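import Mathlib

set_option autoImplicit false

/-!
# Small cyclic sequences
-/

namespace Pool.Agent.Helper19.Fan

theorem arith6 (δ : ℕ → ℤ) (hn : ∀ i, 0 ≤ δ i) (hp : ∀ i, δ (i + 6) = δ i)
    (h1 : ∀ i, δ i + δ (i + 1) ≤ 2) (h2 : ∀ i, δ (i + 1) = 0 ∨ δ (i + 3) = 0)
    (h3 : ∀ i, δ (i + 1) + δ (i + 4) ≤ 2) : δ 0 + δ 1 + δ 2 + δ 3 + δ 4 + δ 5 ≤ 2 := by
  have p0 := hp 0; have p1 := hp 1; have p2 := hp 2; have p3 := hp 3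
  have n0 := hn 0; have n1 := hn 1; have n2 := hn 2; have n3 := hn 3; have n4 := hn 4
  have n5 := hn 5
  have a0 := h1 0; have a1 := h1 1; have a2 := h1 2; have a3 := h1 3; have a4 := h1 4
  have a5 := h1 5
  have b0 := h2 0; have b1 := h2 1; have b2 := h2 2; have b3 := h2 3; have b4 := h2 4
  have b5 := h2 5
  have c0 := h3 0; have c1 := h3 1; have c2 := h3 2
  norm_num at p0 p1 p2 p3 a0 a1 a2 a3 a4 a5 b0 b1 b2 b3 b4 b5 c0 c1 c2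
  rw [p0] at a5 b3
  rw [p1] at b4
  rw [p2] at b5
  rw [p0] at b5
  omega

theorem arith7 (δ : ℕ → ℤ) (hn : ∀ i, 0 ≤ δ i) (hp : ∀ i, δ (i + 7) = δ i)
    (h1 : ∀ i, δ i + δ (i + 1) ≤ 2) (h2 : ∀ i, δ (i + 1) = 0 ∨ δ (i + 3) = 0) :
    δ 0 + δ 1 + δ 2 + δ 3 + δ 4 + δ 5 + δ 6 ≤ 4 := by
  have p0 := hp 0; have p1 := hp 1; have p2 := hp 2; have p3 := hp 3
  have n0 := hn 0; have n1 := hn 1; have n2 := hn 2; have n3 := hn 3; have n4 := hn 4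
  have n5 := hn 5; have n6 := hn 6
  have a0 := h1 0; have a1 := h1 1; have a2 := h1 2; have a3 := h1 3; have a4 := h1 4
  have a5 := h1 5; have a6 := h1 6
  have b0 := h2 0; have b1 := h2 1; have b2 := h2 2; have b3 := h2 3; have b4 := h2 4
  have b5 := h2 5; have b6 := h2 6
  norm_num at p0 p1 p2 p3 a0 a1 a2 a3 a4 a5 a6 b0 b1 b2 b3 b4 b5 b6
  omega

theorem arith9 (δ : ℕ → ℤ) (hn : ∀ i, 0 ≤ δ i) (hp : ∀ i, δ (i + 9) = δ i)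
    (h1 : ∀ i, δ i + δ (i + 1) ≤ 2)
    (h2 : δ 1 = 0 ∨ δ 2 = 0 ∨ δ 3 = 0 ∨ δ 4 = 0) :
    δ 0 + δ 1 + δ 2 + δ 3 + δ 4 + δ 5 + δ 6 + δ 7 + δ 8 ≤ 8 := by
  have p0 := hp 0
  have n0 := hn 0; have n1 := hn 1; have n2 := hn 2; have n3 := hn 3; have n4 := hn 4
  have n5 := hn 5; have n6 := hn 6; have n7 := hn 7; have n8 := hn 8
  have a0 := h1 0; have a1 := h1 1; have a2 := h1 2; have a3 := h1 3; have a4 := h1 4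
  have a5 := h1 5; have a6 := h1 6; have a7 := h1 7; have a8 := h1 8
  norm_num at p0 a0 a1 a2 a3 a4 a5 a6 a7 a8
  omega

theorem arith8_aux (a b c d e f g h : ℤ) (na : 0 ≤ a) (nb : 0 ≤ b) (nc : 0 ≤ c) (_nd : 0 ≤ d)
    (ne : 0 ≤ e) (nf : 0 ≤ f) (ng : 0 ≤ g) (nh : 0 ≤ h)
    (ab : a + b ≤ 2) (bc : b + c ≤ 2) (cd : c + d ≤ 2) (de : d + e ≤ 2) (ef : e + f ≤ 2)
    (fg : f + g ≤ 2) (gh : g + h ≤ 2) (ha : h + a ≤ 2)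
    (hb : (b = 0 ∧ f = 0) ∨ (d = 0 ∧ h = 0))
    (t1 : a = 0 ∨ c = 0 ∨ e = 0 ∨ (a ≤ 1 ∧ c ≤ 1 ∧ e ≤ 1))
    (t2 : c = 0 ∨ e = 0 ∨ g = 0 ∨ (c ≤ 1 ∧ e ≤ 1 ∧ g ≤ 1))
    (t3 : e = 0 ∨ g = 0 ∨ a = 0 ∨ (e ≤ 1 ∧ g ≤ 1 ∧ a ≤ 1))
    (t4 : g = 0 ∨ a = 0 ∨ c = 0 ∨ (g ≤ 1 ∧ a ≤ 1 ∧ c ≤ 1)) :
    a + b + c + d + e + f + g + h ≤ 6 := by
  omega

theorem four {a b c d : Prop} (h1 : a ∨ b) (h2 : b ∨ c) (h3 : c ∨ d) (h4 : a ∨ d) :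
    (b ∧ d) ∨ (c ∧ a) := by tauto

theorem arith8 (δ : ℕ → ℤ) (hn : ∀ i, 0 ≤ δ i) (hp : ∀ i, δ (i + 8) = δ i)
    (h1 : ∀ i, δ i + δ (i + 1) ≤ 2)
    (q1 : ∀ i, δ (i + 1) = 0 ∨ δ (i + 3) = 0 ∨ δ (i + 2) = 0 ∨ δ (i + 4) = 0)
    (q2 : ∀ i, δ (i + 1) = 0 ∨ δ (i + 3) = 0 ∨ δ (i + 6) = 0 ∨ δ (i + 8) = 0)
    (ht : ∀ i, δ (i + 1) = 0 ∨ δ (i + 3) = 0 ∨ δ (i + 5) = 0 ∨
      (δ (i + 1) ≤ 1 ∧ δ (i + 3) ≤ 1 ∧ δ (i + 5) ≤ 1)) :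
    δ 0 + δ 1 + δ 2 + δ 3 + δ 4 + δ 5 + δ 6 + δ 7 ≤ 6 := by
  have p0 := hp 0; have p1 := hp 1; have p2 := hp 2; have p3 := hp 3; have p4 := hp 4
  have p5 := hp 5; have p6 := hp 6; have p7 := hp 7
  have n0 := hn 0; have n1 := hn 1; have n2 := hn 2; have n3 := hn 3; have n4 := hn 4
  have n5 := hn 5; have n6 := hn 6; have n7 := hn 7
  have a0 := h1 0; have a1 := h1 1; have a2 := h1 2; have a3 := h1 3; have a4 := h1 4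
  have a5 := h1 5; have a6 := h1 6; have a7 := h1 7
  have t0 := ht 0; have t1 := ht 1; have t2 := ht 2; have t3 := ht 3; have t4 := ht 4
  have t5 := ht 5; have t6 := ht 6; have t7 := ht 7
  have r0 := q1 0; have r1 := q1 1; have r2 := q1 2; have r3 := q1 3; have r4 := q1 4
  have r5 := q1 5; have r6 := q1 6; have r7 := q1 7
  have s0 := q2 0; have s1 := q2 1; have s2 := q2 2; have s3 := q2 3; have s4 := q2 4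
  have s5 := q2 5; have s6 := q2 6; have s7 := q2 7
  norm_num at p0 p1 p2 p3 p4 p5 p6 p7 a0 a1 a2 a3 a4 a5 a6 a7 t0 t1 t2 t3 t4 t5 t6 t7
  norm_num at r0 r1 r2 r3 r4 r5 r6 r7 s0 s1 s2 s3 s4 s5 s6 s7
  simp only [p0, p1, p2, p3, p4, p5, p6, p7] at a7 t3 t4 t5 t6 t7
  simp only [p0, p1, p2, p3, p4, p5, p6, p7] at r4 r5 r6 r7
  simp only [p0, p1, p2, p3, p4, p5, p6, p7] at s0 s1 s2 s3 s4 s5 s6 s7
  by_cases hA : (δ 1 = 0 ∧ δ 5 = 0) ∨ (δ 3 = 0 ∧ δ 7 = 0)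
  · exact arith8_aux _ _ _ _ _ _ _ _ n0 n1 n2 n3 n4 n5 n6 n7 a0 a1 a2 a3 a4 a5 a6 a7 hA
      t7 t1 t3 t5
  · have hB : (δ 2 = 0 ∧ δ 6 = 0) ∨ (δ 4 = 0 ∧ δ 0 = 0) := by
      rw [not_or, not_and_or, not_and_or] at hA
      obtain ⟨hA1 | hA1, hA2 | hA2⟩ := hA
      · simp only [hA1, hA2, false_or, or_false] at r0 r7 s0 s3
        exact four r7 r0 s3 s0.symm
      · simp only [hA1, hA2, false_or, or_false] at r5 r6 s1 s6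
        exact four r6 s1 s6 r5.symm
      · simp only [hA1, hA2, false_or, or_false] at r1 r2 s2 s5
        exact four s2 r1 r2 s5.symm
      · simp only [hA1, hA2, false_or, or_false] at r3 r4 s4 s7
        exact four s7 s4 r3 r4.symm
    have := arith8_aux _ _ _ _ _ _ _ _ n1 n2 n3 n4 n5 n6 n7 n0 a1 a2 a3 a4 a5 a6 a7 a0 hB
      t0 t2 t4 t6
    linarith

end Pool.Agent.Helper19.Fan
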