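import Pool.Agent.Helper19.Fan.Defs

set_option autoImplicit false

namespace Pool.Agent.Helper19.Fan

open Equiv.Perm

variable {V E : Type} {G : E → Sym2 V} {X D : Type}

theorem Leads.unique {rev rot : Equiv.Perm D} {org : D → V ⊕ X} {d : D} {v w : V}
    (h : Leads rev rot org d v) (h' : Leads rev rot org d w) : v = w := by
  induction h with
  | stop h1 =>
    cases h' with
    | stop h2 => rw [h1] at h2; exact Sum.inl.inj h2
    | cross h2 _ => rw [h1] at h2; cases h2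
  | cross h1 _ ih =>
    cases h' with
    | stop h2 => rw [h1] at h2; cases h2
    | cross _ h3 => exact ih h3

namespace Drawing

variable (Γ : Drawing G X D)

/-- The next dart along the boundary of the cell on the left. -/
def phi : Equiv.Perm D := Γ.rot⁻¹ * Γ.rev

theorem phi_apply (d : D) : Γ.phi d = Γ.rot⁻¹ (Γ.rev d) := rfl

@[simp] theorem rev_rev' (d : D) : Γ.rev (Γ.rev d) = d := Γ.rev_rev d

@[simp] theorem rot_phi (d : D) : Γ.rot (Γ.phi d) = Γ.rev d := by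
  simp [phi_apply]

theorem rev_inv (d : D) : Γ.rev⁻¹ d = Γ.rev d := by
  rw [Equiv.Perm.inv_eq_iff_eq, Γ.rev_rev]

theorem phi_inv_apply (d : D) : Γ.phi⁻¹ d = Γ.rev (Γ.rot d) := by
  rw [Equiv.Perm.inv_eq_iff_eq]
  simp [phi_apply]

/-- The dart starts at a crossing point. -/
def IsX (d : D) : Prop := ∃ x, Γ.org d = Sum.inr x

theorem not_isX {d : D} : ¬ Γ.IsX d ↔ ∃ v, Γ.org d = Sum.inl v := by
  unfold IsX
  rcases h : Γ.org d with v | x
  · simp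
  · simp

theorem org_rot (d : D) : Γ.org (Γ.rot d) = Γ.org d := by
  rw [Γ.org_eq_iff, sameCycle_apply_left]

theorem org_phi (d : D) : Γ.org (Γ.phi d) = Γ.org (Γ.rev d) := by
  rw [← Γ.org_rot (Γ.phi d), rot_phi]

theorem isX_rot {d : D} : Γ.IsX (Γ.rot d) ↔ Γ.IsX d := by
  unfold IsX; rw [org_rot]

theorem isX_phi {d : D} : Γ.IsX (Γ.phi d) ↔ Γ.IsX (Γ.rev d) := by
  unfold IsX; rw [org_phi]

theorem rot4 {d : D} (h : Γ.IsX d) : Γ.rot (Γ.rot (Γ.rot (Γ.rot d))) = d := by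
  obtain ⟨x, hx⟩ := h
  exact (Γ.crossing_four d x hx).1

theorem rot2_ne {d : D} (h : Γ.IsX d) : Γ.rot (Γ.rot d) ≠ d := by
  obtain ⟨x, hx⟩ := h
  exact (Γ.crossing_four d x hx).2

theorem rot_inv_of_isX {d : D} (h : Γ.IsX d) : Γ.rot⁻¹ d = Γ.rot (Γ.rot (Γ.rot d)) := by
  rw [Equiv.Perm.inv_eq_iff_eq, Γ.rot4 h]

/-- The darts at a crossing point. -/
theorem star {c c' : D} (h : Γ.IsX c) (hc : Γ.org c = Γ.org c') [Finite D] :
    c' = c ∨ c' = Γ.rot c ∨ c' = Γ.rot (Γ.rot c) ∨ c' = Γ.rot (Γ.rot (Γ.rot c)) := by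
  rw [Γ.org_eq_iff] at hc
  obtain ⟨n, rfl⟩ := hc.exists_nat_pow_eq
  clear hc
  induction n with
  | zero => simp
  | succ n ih =>
    rw [pow_succ', Equiv.Perm.mul_apply]
    rcases ih with ih | ih | ih | ih <;> rw [ih]
    · simp
    · simp
    · simp
    · rw [Γ.rot4 h]; simp

/-- The vertex to which a dart leads. -/
noncomputable def tgt (d : D) : V := (Γ.leads d).choose

theorem leads_tgt (d : D) : Leads Γ.rev Γ.rot Γ.org d (Γ.tgt d) := (Γ.leads d).choose_spec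

theorem tgt_eq {d : D} {v : V} (h : Leads Γ.rev Γ.rot Γ.org d v) : Γ.tgt d = v :=
  (Γ.leads_tgt d).unique h

theorem tgt_of_org {d : D} {v : V} (h : Γ.org (Γ.rev d) = Sum.inl v) : Γ.tgt d = v :=
  Γ.tgt_eq (Leads.stop h)

theorem tgt_rev_of_org {d : D} {v : V} (h : Γ.org d = Sum.inl v) : Γ.tgt (Γ.rev d) = v :=
  Γ.tgt_of_org (by simpa using h)

/-- The dart opposite to `c` leads where `rev c` leads. -/
theorem tgt_rot2 {c : D} (h : Γ.IsX c) : Γ.tgt (Γ.rot (Γ.rot c)) = Γ.tgt (Γ.rev c) := by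
  obtain ⟨x, hx⟩ := h
  symm
  apply Γ.tgt_eq
  refine Leads.cross (x := x) (by simpa using hx) ?_
  rw [Γ.rev_rev]
  exact Γ.leads_tgt _

theorem tgt_rev_rot2 {c : D} (h : Γ.IsX c) : Γ.tgt (Γ.rev (Γ.rot (Γ.rot c))) = Γ.tgt c := by
  have h2 : Γ.IsX (Γ.rot (Γ.rot c)) := Γ.isX_rot.mpr (Γ.isX_rot.mpr h)
  have := Γ.tgt_rot2 h2
  rw [Γ.rot4 h] at this
  exact this.symm

theorem lab_isX {d : D} (h : Γ.IsX d) : ∃ e, Γ.lab d = some e := by
  rcases h' : Γ.lab d with _ | e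
  · obtain ⟨v, hv⟩ := (Γ.stub d h').2.2
    obtain ⟨x, hx⟩ := h
    rw [hv] at hx; cases hx
  · exact ⟨e, rfl⟩

theorem cell_phi (d : D) : Γ.cell d (Γ.phi d) := Γ.cell_walk d

theorem cell_of_sameCycle [Finite D] {a b : D} (h : Γ.phi.SameCycle a b) : Γ.cell a b := by
  obtain ⟨n, rfl⟩ := h.exists_nat_pow_eq
  clear h
  induction n with
  | zero => exact Γ.cell.refl _
  | succ n ih =>
    rw [pow_succ', Equiv.Perm.mul_apply]
    exact Γ.cell.trans ih (Γ.cell_phi _)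

/-- The cell on the left of the dart has a single boundary walk. -/
def Solo (a : D) : Prop := ∀ d, Γ.cell a d → Γ.phi.SameCycle a d

theorem Solo.of_cell [Finite D] {Γ : Drawing G X D} {a b : D} (h : Γ.Solo a) (hab : Γ.cell a b) :
    Γ.Solo b :=
  fun d hd => (h b hab).symm.trans (h d (Γ.cell.trans hab hd))

theorem Solo.phi [Finite D] {Γ : Drawing G X D} {a : D} (h : Γ.Solo a) : Γ.Solo (Γ.phi a) :=
  h.of_cell (Γ.cell_phi a)

/-- Only darts of the plane map with a label have an opposite dart; the others are fixed. -/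
theorem rev_eq_iff {d : D} : Γ.rev d = d ↔ Γ.lab d = none := by
  constructor
  · intro h
    rcases hl : Γ.lab d with _ | e
    · rfl
    · exact absurd h (Γ.rev_ne d e hl)
  · intro h; exact (Γ.stub d h).1

theorem phi_of_stub {d : D} (h : Γ.lab d = none) : Γ.phi d = d := by
  obtain ⟨h1, h2, -⟩ := Γ.stub d h
  rw [phi_apply, h1, Equiv.Perm.inv_eq_iff_eq, h2]

theorem lab_rot2 {d : D} (h : Γ.IsX d) : Γ.lab (Γ.rot (Γ.rot d)) = Γ.lab d := by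
  obtain ⟨x, hx⟩ := h
  exact Γ.lab_straight d x hx

theorem lab_phi_inv (d : D) : Γ.lab (Γ.phi⁻¹ d) = Γ.lab (Γ.rot d) := by
  rw [phi_inv_apply, Γ.lab_rev]

theorem ends' {d : D} {e : E} (h : Γ.lab d = some e) : G e = s(Γ.tgt d, Γ.tgt (Γ.rev d)) :=
  Γ.ends d e _ _ h (Γ.leads_tgt d) (Γ.leads_tgt _)

theorem tgt_mem {d : D} {e : E} (h : Γ.lab d = some e) : Γ.tgt d ∈ G e := by
  rw [Γ.ends' h]; exact Sym2.mem_mk_left _ _

theorem tgt_rev_mem {d : D} {e : E} (h : Γ.lab d = some e) : Γ.tgt (Γ.rev d) ∈ G e := by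
  rw [Γ.ends' h]; exact Sym2.mem_mk_right _ _

theorem mem_iff {d : D} {e : E} (h : Γ.lab d = some e) (v : V) :
    v ∈ G e ↔ v = Γ.tgt d ∨ v = Γ.tgt (Γ.rev d) := by
  rw [Γ.ends' h, Sym2.mem_iff]

/-- All hypotheses on the drawing. -/
structure Good : Prop where
  loopless : ∀ e, ¬ (G e).IsDiag
  simple : Γ.Simple
  fan : Γ.FanPlanar
  nonhom : Γ.NoHomotopicParallel

variable {Γ}

namespace Good

theorem tgt_ne (h : Γ.Good) {d : D} {e : E} (hd : Γ.lab d = some e) :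
    Γ.tgt d ≠ Γ.tgt (Γ.rev d) := by
  intro hh
  apply h.loopless e
  rw [Γ.ends' hd, hh]
  exact Sym2.mk_isDiag_iff.mpr rfl

theorem tgt_ne_isX (h : Γ.Good) {d : D} (hd : Γ.IsX d) : Γ.tgt d ≠ Γ.tgt (Γ.rev d) := by
  obtain ⟨e, he⟩ := Γ.lab_isX hd
  exact h.tgt_ne he

theorem tgt_ne_isX' (h : Γ.Good) {d : D} (hd : Γ.IsX (Γ.rev d)) :
    Γ.tgt d ≠ Γ.tgt (Γ.rev d) := by
  obtain ⟨e, he⟩ := Γ.lab_isX hd
  rw [Γ.lab_rev] at he
  exact h.tgt_ne he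

/-- Crossing edges have four different endpoints. -/
theorem cross (h : Γ.Good) {c : D} (hc : Γ.IsX c) :
    Γ.tgt c ≠ Γ.tgt (Γ.rot c) ∧ Γ.tgt c ≠ Γ.tgt (Γ.rev (Γ.rot c)) ∧
    Γ.tgt (Γ.rev c) ≠ Γ.tgt (Γ.rot c) ∧ Γ.tgt (Γ.rev c) ≠ Γ.tgt (Γ.rev (Γ.rot c)) := by
  obtain ⟨e, he⟩ := Γ.lab_isX hc
  obtain ⟨f, hf⟩ := Γ.lab_isX (Γ.isX_rot.mpr hc)
  obtain ⟨x, hx⟩ := hc
  have key := h.simple.1 c x e f hx he hf
  refine ⟨fun hh => ?_, fun hh => ?_, fun hh => ?_, fun hh => ?_⟩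
  · exact key _ ⟨Γ.tgt_mem he, by rw [hh]; exact Γ.tgt_mem hf⟩
  · exact key _ ⟨Γ.tgt_mem he, by rw [hh]; exact Γ.tgt_rev_mem hf⟩
  · exact key _ ⟨Γ.tgt_rev_mem he, by rw [hh]; exact Γ.tgt_mem hf⟩
  · exact key _ ⟨Γ.tgt_rev_mem he, by rw [hh]; exact Γ.tgt_rev_mem hf⟩

/-- The corner version of `cross`. -/
theorem corner (h : Γ.Good) {a : D} (ha : Γ.IsX (Γ.phi a)) :
    Γ.tgt (Γ.phi a) ≠ Γ.tgt (Γ.rev a) ∧ Γ.tgt (Γ.phi a) ≠ Γ.tgt a ∧
    Γ.tgt (Γ.rev (Γ.phi a)) ≠ Γ.tgt (Γ.rev a) ∧ Γ.tgt (Γ.rev (Γ.phi a)) ≠ Γ.tgt a := by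
  have := h.cross ha
  rwa [rot_phi, rev_rev'] at this

theorem lab_rot_ne (h : Γ.Good) {c : D} (hc : Γ.IsX c) : Γ.lab (Γ.rot c) ≠ Γ.lab c := by
  intro hh
  obtain ⟨e, he⟩ := Γ.lab_isX hc
  rw [he] at hh
  have h1 := (Γ.mem_iff hh (Γ.tgt c)).mp (Γ.tgt_mem he)
  rcases h1 with h1 | h1
  · exact (h.cross hc).1 h1
  · exact (h.cross hc).2.1 h1

theorem lab_phi_ne (h : Γ.Good) {a : D} (ha : Γ.IsX (Γ.phi a)) : Γ.lab (Γ.phi a) ≠ Γ.lab a := by
  have := h.lab_rot_ne ha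
  rw [rot_phi, Γ.lab_rev] at this
  exact this.symm

/-- A corner is determined by its two edges and the direction of the first. -/
theorem corner_unique [Finite D] (h : Γ.Good) {a a' : D} (ha : Γ.IsX (Γ.phi a))
    (ha' : Γ.IsX (Γ.phi a')) (h1 : Γ.lab a = Γ.lab a') (h2 : Γ.lab (Γ.phi a) = Γ.lab (Γ.phi a'))
    (h3 : Γ.tgt a = Γ.tgt a') : a = a' := by
  obtain ⟨x, hx⟩ := ha
  obtain ⟨x', hx'⟩ := ha'
  have hxx : x = x' := h.simple.2 _ _ x x' hx hx' h2 (by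
    rw [rot_phi, rot_phi, Γ.lab_rev, Γ.lab_rev, h1])
  subst hxx
  have hX : Γ.IsX (Γ.phi a) := ⟨x, hx⟩
  have horg : Γ.org (Γ.phi a) = Γ.org (Γ.phi a') := by rw [hx, hx']
  rcases Γ.star hX horg with hc | hc | hc | hc
  · exact (Γ.phi.injective hc).symm
  · exfalso
    apply h.lab_rot_ne hX
    rw [← hc, ← h2]
  · exfalso
    have e1 : Γ.rev a' = Γ.rot (Γ.rot (Γ.rev a)) := by
      rw [← rot_phi, hc, rot_phi]
    have hXa : Γ.IsX (Γ.rev a) := Γ.isX_phi.mp hX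
    have e2 : Γ.tgt a' = Γ.tgt (Γ.rev a) := by
      have := Γ.tgt_rev_rot2 hXa
      rw [← e1, rev_rev'] at this
      exact this
    exact h.tgt_ne_isX' hXa (h3.trans e2)
  · exfalso
    apply h.lab_rot_ne hX
    have h5 := Γ.lab_rot2 (Γ.isX_rot.mpr hX)
    rw [← hc, ← h2] at h5
    exact h5.symm

/-- No segment joins a crossing point to itself. -/
theorem org_ne [Finite D] (h : Γ.Good) {a : D} (ha : Γ.IsX a) : Γ.org (Γ.rev a) ≠ Γ.org a := by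
  intro hh
  have key : Γ.rot (Γ.rot (Γ.rev a)) = a := by
    rcases Γ.star ha hh.symm with hc | hc | hc | hc
    · obtain ⟨e, he⟩ := Γ.lab_isX ha
      exact absurd hc (Γ.rev_ne a e he)
    · exfalso
      apply h.lab_rot_ne ha
      rw [← hc, Γ.lab_rev]
    · rw [hc, Γ.rot4 ha]
    · exfalso
      apply h.lab_rot_ne ha
      rw [← Γ.lab_rot2 (Γ.isX_rot.mpr ha), ← hc, Γ.lab_rev]
  have inf : ∀ d v, Leads Γ.rev Γ.rot Γ.org d v → d ≠ a := by
    intro d v hd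
    induction hd with
    | @stop d v h1 =>
      rintro rfl
      rw [hh] at h1
      obtain ⟨x, hx⟩ := ha
      rw [hx] at h1; cases h1
    | @cross d x v h1 h2 ih =>
      rintro rfl
      exact ih key
  exact inf a _ (Γ.leads_tgt a) rfl

end Good

end Drawing

end Pool.Agent.Helper19.Fan
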