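import Pool.Agent.Helper19.Fan.Local
import Pool.Agent.Helper19.Fan.Arith

set_option autoImplicit false

/-!
# The charge of a cell
-/

namespace Pool.Agent.Helper19.Fan

open Equiv.Perm

open scoped Classical

variable {V E : Type} {G : E → Sym2 V} {X D : Type}

namespace Drawing

variable {Γ : Drawing G X D}

/-- The boundary walk of a cell, with period `k`. -/
structure Walk (Γ : Drawing G X D) (x : ℕ → D) (k : ℕ) : Prop where
  step : ∀ i, x (i + 1) = Γ.phi (x i)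
  per : ∀ i, x (i + k) = x i
  pos : 0 < k
  inj : ∀ i j, i < k → j < k → x i = x j → i = j

namespace Walk

variable {x : ℕ → D} {k : ℕ}

theorem phi_inv (W : Walk Γ x k) (i : ℕ) : Γ.phi⁻¹ (x (i + 1)) = x i := by
  rw [W.step, phi_inv_phi]

theorem cyc (W : Walk Γ x k) (i j : ℕ) : Γ.phi.SameCycle (x i) (x (i + j)) := by
  induction j with
  | zero => exact SameCycle.refl _ _
  | succ j ih =>
    rw [← add_assoc, W.step, sameCycle_apply_right]; exact ih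

theorem mod (W : Walk Γ x k) (i : ℕ) : x i = x (i % k) := by
  conv_lhs => rw [← Nat.mod_add_div i k]
  generalize i / k = q
  induction q with
  | zero => simp
  | succ q ih =>
    rw [Nat.mul_succ, ← add_assoc, W.per]; exact ih

theorem ne_of_mod (W : Walk Γ x k) {i j : ℕ} (hij : i % k ≠ j % k) : x i ≠ x j := by
  intro hh
  rw [W.mod i, W.mod j] at hh
  exact hij (W.inj _ _ (Nat.mod_lt _ W.pos) (Nat.mod_lt _ W.pos) hh)

theorem fl_tgt (W : Walk Γ x k) {i : ℕ} (hf : Γ.Fl (x (i + 1))) :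
    Γ.tgt (x (i + 2)) = Γ.tgt (Γ.rev (x i)) ∧ Γ.tgt (Γ.rev (x (i + 2))) = Γ.tgt (x i) := by
  obtain ⟨_, _, h3, h4⟩ := hf
  rw [W.phi_inv, ← W.step] at h3 h4
  exact ⟨h3, h4⟩

theorem corner (W : Walk Γ x k) (h : Γ.Good) {i : ℕ} (hX : Γ.IsX (x (i + 1))) :
    Γ.tgt (x (i + 1)) ≠ Γ.tgt (Γ.rev (x i)) ∧ Γ.tgt (x (i + 1)) ≠ Γ.tgt (x i) ∧
    Γ.tgt (Γ.rev (x (i + 1))) ≠ Γ.tgt (Γ.rev (x i)) ∧
    Γ.tgt (Γ.rev (x (i + 1))) ≠ Γ.tgt (x i) := by
  rw [W.step] at hX ⊢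
  exact h.corner hX

theorem share (W : Walk Γ x k) (h : Γ.Good) (F : Γ.FanData) {i : ℕ} (h1 : Γ.IsX (x (i + 1)))
    (h2 : Γ.IsX (x (i + 2))) : Γ.tgt (x (i + 2)) = Γ.tgt (Γ.rev (x i)) ∨
      Γ.tgt (Γ.rev (x (i + 2))) = Γ.tgt (x i) := by
  have := F.share h h1 (by rw [← W.step]; exact h2)
  rwa [W.phi_inv, ← W.step] at this

/-- Two flanked segments at distance two: the outer flanking segments lie on the same edge. -/
theorem aligned [Finite V] [Finite X] [Finite D] (W : Walk Γ x k) (h : Γ.Good) {i : ℕ}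
    (h1 : Γ.Fl (x (i + 1))) (h2 : Γ.Fl (x (i + 3))) :
    Γ.lab (x (i + 4)) = Γ.lab (x i) ∧ Γ.tgt (x (i + 4)) = Γ.tgt (x i) ∧
      Γ.tgt (Γ.rev (x (i + 4))) = Γ.tgt (Γ.rev (x i)) := by
  obtain ⟨a1, a2⟩ := W.fl_tgt h1
  obtain ⟨a3, a4⟩ := W.fl_tgt (i := i + 2) h2
  have e1 : Γ.tgt (x (i + 4)) = Γ.tgt (x i) := by rw [a3, a2]
  have e2 : Γ.tgt (Γ.rev (x (i + 4))) = Γ.tgt (Γ.rev (x i)) := by rw [a4, a1]
  obtain ⟨e, -, he, -, -⟩ := h1.labels
  obtain ⟨-, f, -, hf, -⟩ := h2.labels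
  rw [W.phi_inv] at he
  rw [← W.step] at hf
  have hG : G e = G f := by
    rw [Γ.ends' he, Γ.ends' hf]
    change _ = s(Γ.tgt (x (i + 4)), Γ.tgt (Γ.rev (x (i + 4))))
    rw [e1, e2]
  have hef := h.same_edge he hf hG (W.cyc i 4) e1.symm
  refine ⟨?_, e1, e2⟩
  rw [he, hef]; exact hf

/-- Same crossing, same corner. -/
theorem no_double [Finite D] (W : Walk Γ x k) (h : Γ.Good) {i : ℕ}
    (hX : Γ.IsX (x (i + 1))) (hX' : Γ.IsX (x (i + 5)))
    (l1 : Γ.lab (x (i + 4)) = Γ.lab (x i)) (t1 : Γ.tgt (x (i + 4)) = Γ.tgt (x i))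
    (l2 : Γ.lab (x (i + 5)) = Γ.lab (x (i + 1))) : x i = x (i + 4) := by
  apply h.corner_unique (by rw [← W.step]; exact hX) (by rw [← W.step]; exact hX') l1.symm
    (by rw [← W.step, ← W.step]; exact l2.symm) t1.symm

end Walk

namespace FanData

variable (F : Γ.FanData)

theorem delta_of_not_fl {a : D} (ha : ¬ Γ.Fl a) : F.delta a = 0 := by
  unfold delta; rw [if_neg ha]

theorem fl_of_delta {a : D} (ha : F.delta a ≠ 0) : Γ.Fl a := by
  by_contra hh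
  exact ha (F.delta_of_not_fl hh)

theorem delta_le {a : D} : F.delta a ≤ 2 - 2 * vx Γ a := by
  unfold delta vx
  split_ifs with h1 h2 h2
  · rcases F.b01 (Γ.phi⁻¹ a) with h3 | h3 <;> rcases F.b01 a with h4 | h4 <;>
    rcases F.b01 (Γ.phi a) with h5 | h5 <;> rw [h3, h4, h5] <;> norm_num
  · exact absurd h1.1 h2
  · norm_num
  · norm_num

theorem delta_pair (a : D) : F.delta a + F.delta (Γ.phi a) ≤ 2 - 2 * vx Γ (Γ.phi a) := by
  by_cases hX : Γ.IsX (Γ.phi a)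
  · have : vx Γ (Γ.phi a) = 0 := by unfold vx; rw [if_pos hX]
    rw [this]
    unfold delta
    rw [phi_inv_phi]
    split_ifs with h1 h2 h2
    · rcases F.b01 (Γ.phi⁻¹ a) with h3 | h3 <;> rcases F.b01 a with h4 | h4 <;>
      rcases F.b01 (Γ.phi a) with h5 | h5 <;> rcases F.b01 (Γ.phi (Γ.phi a)) with h6 | h6 <;>
      rw [h3, h4, h5, h6] <;> norm_num
    · rcases F.b01 (Γ.phi⁻¹ a) with h3 | h3 <;> rcases F.b01 a with h4 | h4 <;>
      rcases F.b01 (Γ.phi a) with h5 | h5 <;>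
      rw [h3, h4, h5] <;> norm_num
    · rcases F.b01 a with h4 | h4 <;>
      rcases F.b01 (Γ.phi a) with h5 | h5 <;> rcases F.b01 (Γ.phi (Γ.phi a)) with h6 | h6 <;>
      rw [h4, h5, h6] <;> norm_num
    · norm_num
  · rw [F.delta_of_not_fl (fun hh => hX hh.2.1), F.delta_of_not_fl (fun hh => hX hh.1)]
    unfold vx; rw [if_neg hX]; norm_num

end FanData

namespace Walk

variable {x : ℕ → D} {k : ℕ}

theorem noFl5 (W : Walk Γ x 5) (h : Γ.Good) (F : Γ.FanData) (hX : ∀ i, Γ.IsX (x i)) (i : ℕ) :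
    ¬ Γ.Fl (x (i + 1)) := by
  intro hf
  obtain ⟨a1, a2⟩ := W.fl_tgt hf
  obtain ⟨c1, c2, c3, c4⟩ := W.corner h (i := i + 2) (hX _)
  have hs := W.share h F (i := i + 3) (hX _) (hX _)
  have hp : x (i + 3 + 2) = x i := W.per i
  rw [hp] at hs
  have e3 : i + 2 + 1 = i + 3 := rfl
  rw [e3] at c1 c2 c3 c4
  rcases hs with hs | hs
  · rw [← a2] at hs; exact c3 hs.symm
  · rw [← a1] at hs; exact c2 hs.symm

theorem noFl6 [Finite V] [Finite X] [Finite D] (W : Walk Γ x 6) (h : Γ.Good) (F : Γ.FanData)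
    (hX : ∀ i, Γ.IsX (x i)) (i : ℕ) : ¬ (Γ.Fl (x (i + 1)) ∧ Γ.Fl (x (i + 3))) := by
  rintro ⟨h1, h2⟩
  obtain ⟨-, e1, e2⟩ := W.aligned h h1 h2
  have hs := W.share h F (i := i + 4) (hX _) (hX _)
  have hp : x (i + 4 + 2) = x i := W.per i
  rw [hp, e1, e2] at hs
  have hne := h.tgt_ne_isX (hX i)
  rcases hs with hs | hs
  · exact hne hs
  · exact hne hs.symm

theorem noFl7 [Finite V] [Finite X] [Finite D] (W : Walk Γ x 7) (h : Γ.Good) (F : Γ.FanData)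
    (hX : ∀ i, Γ.IsX (x i)) (i : ℕ) : ¬ (Γ.Fl (x (i + 1)) ∧ Γ.Fl (x (i + 3))) := by
  rintro ⟨h1, h2⟩
  obtain ⟨e0, e1, -⟩ := W.aligned h h1 h2
  obtain ⟨e, he⟩ := Γ.lab_isX (hX i)
  have he' : Γ.lab (x (i + 4)) = some e := by rw [e0, he]
  have hb : F.b (x (i + 4)) = F.b (x i) := F.b_congr e0 e1
  obtain ⟨c1, c2, c3, c4⟩ := W.corner h (i := i + 5) (hX _)
  have hp : x (i + 6 + 1) = x i := W.per i
  have hinv : Γ.phi⁻¹ (x i) = x (i + 6) := by rw [← hp, W.phi_inv]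
  rcases F.b01 (x i) with b0 | b0
  · have f1 := F.end_right h he' (by rw [← W.step]; exact hX _) (hb.trans b0)
    have f2 := F.start_right h he (hX i) b0
    rw [← W.step] at f1
    rw [hinv] at f2
    exact c1 (f2.trans f1.symm)
  · have f1 := F.end_left he' (by rw [← W.step]; exact hX _) (hb.trans b0)
    have f2 := F.start_left h he (hX i) b0
    rw [← W.step] at f1
    rw [hinv] at f2
    exact c4 (f2.trans f1.symm)

/-- In a hexagon with opposite flanked segments the bits are not both zero. -/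
theorem opp6 (W : Walk Γ x 6) (h : Γ.Good) (F : Γ.FanData) (hX : ∀ i, Γ.IsX (x i)) (i : ℕ)
    (h2 : Γ.Fl (x (i + 4))) : F.delta (x (i + 1)) ≤ 1 := by
  by_cases h1 : Γ.Fl (x (i + 1))
  · have key : ¬ (F.b (x i) = 0 ∧ F.b (x (i + 2)) = 0) := by
      rintro ⟨b0, b2⟩
      obtain ⟨e, he⟩ := Γ.lab_isX (hX i)
      obtain ⟨f, hf⟩ := Γ.lab_isX (hX (i + 2))
      have f1 := F.end_right h he (by rw [← W.step]; exact hX _) b0
      have f2 := F.start_right h hf (hX _) b2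
      have f3 := F.end_right h hf (by rw [← W.step]; exact hX _) b2
      have f4 := F.start_right h he (hX i) b0
      have hp : x (i + 5 + 1) = x i := W.per i
      have hinv : Γ.phi⁻¹ (x i) = x (i + 5) := by rw [← hp, W.phi_inv]
      rw [← W.step] at f1 f3
      rw [W.phi_inv] at f2
      rw [hinv] at f4
      obtain ⟨a1, -⟩ := W.fl_tgt (i := i + 3) h2
      have e5 : i + 3 + 2 = i + 5 := rfl
      rw [e5, f4] at a1
      change F.w e = Γ.tgt (Γ.rev (x (i + 2 + 1))) at a1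
      rw [f3] at a1
      apply h.tgt_ne_isX (hX (i + 1))
      rw [f1, f2, a1]
    unfold FanData.delta
    rw [if_pos h1, W.phi_inv, ← W.step]
    rcases F.b01 (x i) with b0 | b0
    · rcases F.b01 (x (i + 2)) with b2 | b2
      · exact absurd ⟨b0, b2⟩ key
      · have b2' : F.b (x (i + 1 + 1)) = 1 := b2
        rcases F.b01 (x (i + 1)) with b1 | b1 <;> rw [b0, b1, b2'] <;> norm_num
    · rcases F.b01 (x (i + 1)) with b1 | b1 <;> rw [b0, b1] <;> norm_num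
  · rw [F.delta_of_not_fl h1]; norm_num

/-- Three flanked segments in a row (every second one). -/
theorem triple [Finite V] [Finite X] [Finite D] (W : Walk Γ x k) (h : Γ.Good) (F : Γ.FanData)
    (hX : ∀ i, Γ.IsX (x i)) (i : ℕ) (hk : x i ≠ x (i + 4)) (h1 : Γ.Fl (x (i + 1)))
    (h2 : Γ.Fl (x (i + 3))) (h3 : Γ.Fl (x (i + 5))) :
    F.delta (x (i + 1)) ≤ 1 ∧ F.delta (x (i + 3)) ≤ 1 ∧ F.delta (x (i + 5)) ≤ 1 := by
  obtain ⟨l0, t0, r0⟩ := W.aligned h h1 h2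
  obtain ⟨l2, t2, r2⟩ := W.aligned (i := i + 2) h h2 h3
  have e6 : i + 2 + 4 = i + 6 := rfl
  rw [e6] at l2 t2 r2
  have hb4 : F.b (x (i + 4)) = F.b (x i) := F.b_congr l0 t0
  have hb6 : F.b (x (i + 6)) = F.b (x (i + 2)) := F.b_congr l2 t2
  obtain ⟨e, he⟩ := Γ.lab_isX (hX i)
  obtain ⟨f, hf⟩ := Γ.lab_isX (hX (i + 2))
  have he' : Γ.lab (x (i + 4)) = some e := by rw [l0, he]
  have hf' : Γ.lab (x (i + 6)) = some f := by rw [l2, hf]
  have key : ¬ (F.b (x i) = 0 ∧ F.b (x (i + 2)) = 0) := by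
    rintro ⟨b0, b2⟩
    have f1 := F.end_right h he (by rw [← W.step]; exact hX _) b0
    have f2 := F.start_right h hf (hX _) b2
    have f3 := F.end_right h he' (by rw [← W.step]; exact hX _) (hb4.trans b0)
    have f4 := F.start_right h hf' (hX _) (hb6.trans b2)
    rw [← W.step] at f1 f3
    rw [W.phi_inv] at f2
    have hinv : Γ.phi⁻¹ (x (i + 6)) = x (i + 5) := W.phi_inv (i + 5)
    rw [hinv] at f4
    have e5 : i + 4 + 1 = i + 5 := rfl
    rw [e5] at f3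
    obtain ⟨g, hg⟩ := Γ.lab_isX (hX (i + 1))
    obtain ⟨g', hg'⟩ := Γ.lab_isX (hX (i + 5))
    have hG : G g = G g' := by
      rw [Γ.ends' hg, Γ.ends' hg', f1, f2, f3, f4]
    have := h.same_edge hg hg' hG (W.cyc (i + 1) 4) (by
      show Γ.tgt (x (i + 1)) = Γ.tgt (x (i + 5))
      rw [f2, f4])
    apply hk
    apply W.no_double h (hX _) (hX _) l0 t0
    rw [hg, hg', this]
  have key' : F.b (x i) = 1 ∨ F.b (x (i + 2)) = 1 := by
    rcases F.b01 (x i) with b0 | b0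
    · rcases F.b01 (x (i + 2)) with b2 | b2
      · exact absurd ⟨b0, b2⟩ key
      · exact Or.inr b2
    · exact Or.inl b0
  have dl : ∀ j, (F.b (x j) = F.b (x i) ∧ F.b (x (j + 2)) = F.b (x (i + 2))) ∨
      (F.b (x j) = F.b (x (i + 2)) ∧ F.b (x (j + 2)) = F.b (x i)) → F.delta (x (j + 1)) ≤ 1 := by
    intro j hj
    by_cases hfl : Γ.Fl (x (j + 1))
    · unfold FanData.delta
      rw [if_pos hfl, W.phi_inv, ← W.step]
      change F.b (x (j + 1)) + (1 - F.b (x j)) * (1 - F.b (x (j + 2))) ≤ 1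
      rcases hj with ⟨j1, j2⟩ | ⟨j1, j2⟩ <;> rw [j1, j2] <;> rcases key' with b0 | b0 <;>
      rcases F.b01 (x (j + 1)) with b1 | b1 <;> rw [b0, b1] <;> norm_num
    · rw [F.delta_of_not_fl hfl]; norm_num
  refine ⟨dl i (Or.inl ⟨rfl, rfl⟩), dl (i + 2) (Or.inr ⟨rfl, hb4⟩), dl (i + 4) (Or.inl ⟨hb4, hb6⟩)⟩

end Walk

end Drawing

end Pool.Agent.Helper19.Fan
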