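import Pool.Agent.Helper19.Fan.Cell

set_option autoImplicit false

/-!
# The charge of a cell, assembled
-/

namespace Pool.Agent.Helper19.Fan

open Equiv.Perm Finset

open scoped Classical

variable {V E : Type} {G : E → Sym2 V} {X D : Type}

namespace Drawing

variable {Γ : Drawing G X D}

open FanData

namespace Walk

variable {x : ℕ → D} {k : ℕ}

theorem not1 (W : Walk Γ x 1) (h : Γ.Good) {e : E} (hl : Γ.lab (x 0) = some e) : False := by
  have e1 : Γ.phi (x 0) = x 0 := by rw [← W.step]; exact W.per 0
  have e2 : Γ.rev (x 0) = Γ.rot (x 0) := by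
    rw [← Γ.rot_phi, e1]
  by_cases hX : Γ.IsX (x 0)
  · apply h.lab_rot_ne hX
    rw [← e2, Γ.lab_rev]
  · obtain ⟨v, hv⟩ := Γ.not_isX.mp hX
    have t1 : Γ.tgt (Γ.rev (x 0)) = v := Γ.tgt_rev_of_org hv
    have t2 : Γ.tgt (x 0) = v := by
      apply Γ.tgt_of_org
      rw [e2, org_rot, hv]
    exact h.tgt_ne hl (t2.trans t1.symm)

theorem not1X (W : Walk Γ x 1) (h : Γ.Good) (hX : Γ.IsX (x 0)) : False := by
  obtain ⟨e, he⟩ := Γ.lab_isX hX
  exact W.not1 h he

theorem not1V [Finite V] [Finite D] (W : Walk Γ x 1) (h : Γ.Good) (hn : 3 ≤ Nat.card V)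
    (hs : Γ.Solo (x 0)) : False := by
  rcases hl : Γ.lab (x 0) with _ | e
  · obtain ⟨r1, r2, v, hv⟩ := Γ.stub _ hl
    have hall : ∀ d, d = x 0 := by
      intro d
      induction Γ.connected (x 0) d with
      | refl => rfl
      | tail _ hstep ih =>
        rcases hstep with rfl | rfl | hstep
        · rw [ih]; exact r1
        · rw [ih]; exact r2
        · rw [ih] at hstep
          exact (SameCycle.eq_of_left (hs _ hstep) (Γ.phi_of_stub hl)).symm
    have hV : ∀ u : V, u = v := by
      intro u
      obtain ⟨d, hd⟩ := Γ.org_surj (Sum.inl u)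
      rw [hall d, hv] at hd
      exact (Sum.inl.inj hd).symm
    have : Fintype V := Fintype.ofFinite V
    rw [Nat.card_eq_fintype_card] at hn
    have hle : Fintype.card V ≤ 1 := Fintype.card_le_one_iff.mpr (fun a b => by rw [hV a, hV b])
    omega
  · exact W.not1 h hl

theorem not2X (W : Walk Γ x 2) (h : Γ.Good) (F : Γ.FanData) (hX : ∀ i, Γ.IsX (x i)) : False := by
  have hs := W.share h F (i := 0) (hX _) (hX _)
  have e : x (0 + 2) = x 0 := W.per 0
  rw [e] at hs
  have hne := h.tgt_ne_isX (hX 0)
  rcases hs with hs | hs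
  · exact hne hs
  · exact hne hs.symm

theorem not2XV (W : Walk Γ x 2) (h : Γ.Good) (h0 : ¬ Γ.IsX (x 0)) (h1 : Γ.IsX (x 1)) :
    False := by
  obtain ⟨v, hv⟩ := Γ.not_isX.mp h0
  have t1 : Γ.tgt (Γ.rev (x 0)) = v := Γ.tgt_rev_of_org hv
  have t2 : Γ.tgt (x 1) = v := by
    apply Γ.tgt_of_org
    rw [← org_phi, ← W.step]
    change Γ.org (x (0 + 2)) = _
    rw [W.per]; exact hv
  exact (W.corner h (i := 0) h1).1 (t2.trans t1.symm)

theorem not2VV [Finite V] [Finite D] (W : Walk Γ x 2) (h : Γ.Good) (hn : 3 ≤ Nat.card V)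
    (hs : Γ.Solo (x 0)) (h0 : ¬ Γ.IsX (x 0)) (h1 : ¬ Γ.IsX (x 1)) : False := by
  obtain ⟨v, hv⟩ := Γ.not_isX.mp h0
  obtain ⟨v', hv'⟩ := Γ.not_isX.mp h1
  have s0 : Γ.phi (x 0) = x 1 := (W.step 0).symm
  have s1 : Γ.phi (x 1) = x 0 := by rw [← W.step]; exact W.per 0
  have o0 : Γ.org (Γ.rev (x 0)) = Sum.inl v' := by rw [← org_phi, s0, hv']
  have o1 : Γ.org (Γ.rev (x 1)) = Sum.inl v := by rw [← org_phi, s1, hv]
  have hx01 : x 0 ≠ x 1 := by
    intro hh
    exact absurd (W.inj 0 1 (by norm_num) (by norm_num) hh) (by norm_num)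
  have hcyc : ∀ d, Γ.phi.SameCycle (x 0) d → d = x 0 ∨ d = x 1 := by
    rintro d ⟨n, rfl⟩
    induction n with
    | zero => left; rfl
    | succ n ih =>
      rw [add_comm, zpow_add, zpow_one, Equiv.Perm.mul_apply]
      rcases ih with ih | ih <;> rw [ih]
      · right; exact s0
      · left; exact s1
    | pred n ih =>
      rw [sub_eq_add_neg, add_comm, zpow_add, zpow_neg_one, Equiv.Perm.mul_apply]
      rcases ih with ih | ih <;> rw [ih]
      · right; rw [Equiv.Perm.inv_eq_iff_eq, s1]
      · left; rw [Equiv.Perm.inv_eq_iff_eq, s0]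
  have hcell : ∀ c d, (c = x 0 ∨ c = x 1) → Γ.cell c d → (d = x 0 ∨ d = x 1) := by
    intro c d hc hcd
    apply hcyc
    apply hs
    rcases hc with rfl | rfl
    · exact hcd
    · exact Γ.cell.trans (by rw [← s0]; exact Γ.cell_phi _) hcd
  -- the two darts are not opposite
  have hrev : x 1 ≠ Γ.rev (x 0) := by
    intro hh
    have r0 : Γ.rot (x 1) = x 1 := by rw [← s0, Γ.rot_phi, s0, hh]
    have r1 : Γ.rot (x 0) = x 0 := by
      have : Γ.rev (x 1) = x 0 := by rw [hh, Γ.rev_rev]
      rw [← s1, Γ.rot_phi, s1, this]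
    have hall : ∀ d, d = x 0 ∨ d = x 1 := by
      intro d
      induction Γ.connected (x 0) d with
      | refl => left; rfl
      | tail _ hstep ih =>
        rcases hstep with rfl | rfl | hstep
        · rcases ih with ih | ih <;> rw [ih]
          · right; exact hh.symm
          · left; rw [hh, Γ.rev_rev]
        · rcases ih with ih | ih <;> rw [ih]
          · left; exact r1
          · right; exact r0
        · exact hcell _ _ ih hstep
    have hV : ∀ u : V, u = v ∨ u = v' := by
      intro u
      obtain ⟨d, hd⟩ := Γ.org_surj (Sum.inl u)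
      rcases hall d with rfl | rfl
      · left; rw [hv] at hd; exact (Sum.inl.inj hd).symm
      · right; rw [hv'] at hd; exact (Sum.inl.inj hd).symm
    have : Fintype V := Fintype.ofFinite V
    rw [Nat.card_eq_fintype_card] at hn
    have hle : Fintype.card V ≤ 2 := by
      have : (Finset.univ : Finset V) ⊆ {v, v'} := by
        intro u _
        rw [Finset.mem_insert, Finset.mem_singleton]
        exact hV u
      exact (Finset.card_le_card this).trans Finset.card_le_two
    omega
  rcases hl : Γ.lab (x 0) with _ | e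
  · apply hx01
    rw [← s0, Γ.phi_of_stub hl]
  · rcases hl' : Γ.lab (x 1) with _ | f
    · apply hx01
      rw [← s1, Γ.phi_of_stub hl']
    · by_cases hef : e = f
      · subst hef
        have := Γ.single (x 0) (Γ.rev (x 1)) e v hl (by rw [Γ.lab_rev, hl']) hv o1
        apply hrev
        rw [this, Γ.rev_rev]
      · have hG : G e = G f := by
          rw [Γ.ends' hl, Γ.ends' hl', Γ.tgt_of_org o0, Γ.tgt_rev_of_org hv, Γ.tgt_of_org o1,
            Γ.tgt_rev_of_org hv']
          exact Sym2.eq_swap
        obtain ⟨d', u, hreach, hu, hnu⟩ := h.nonhom e f hef hG (x 0)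
        have hd' : d' = x 0 ∨ d' = x 1 := by
          clear hu
          induction hreach with
          | refl => left; rfl
          | tail _ hstep ih =>
            rcases hstep with hstep | ⟨n1, n2, rfl⟩
            · exact hcell _ _ ih hstep
            · rcases ih with ih | ih
              · exact absurd (by rw [ih]; exact hl) n1
              · exact absurd (by rw [ih]; exact hl') n2
        apply hnu
        rw [Γ.ends' hl, Γ.tgt_of_org o0, Γ.tgt_rev_of_org hv, Sym2.mem_iff]
        rcases hd' with rfl | rfl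
        · right; rw [hv] at hu; exact (Sum.inl.inj hu).symm
        · left; rw [hv'] at hu; exact (Sum.inl.inj hu).symm

theorem not3X (W : Walk Γ x 3) (h : Γ.Good) (F : Γ.FanData) (hX : ∀ i, Γ.IsX (x i)) : False := by
  have hs := W.share h F (i := 0) (hX _) (hX _)
  obtain ⟨c1, c2, c3, c4⟩ := W.corner h (i := 2) (hX _)
  have e : x (2 + 1) = x 0 := W.per 0
  rw [e] at c1 c2 c3 c4
  rcases hs with hs | hs
  · exact c4 hs.symm
  · exact c1 hs.symm

/-- Sums over a period may be shifted. -/
theorem sum_shift (W : Walk Γ x k) (f : D → ℤ) :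
    ∑ i ∈ range k, f (x (i + 1)) = ∑ i ∈ range k, f (x i) := by
  have h1 := Finset.sum_range_succ' (fun i => f (x i)) k
  have h2 := Finset.sum_range_succ (fun i => f (x i)) k
  have h3 : x k = x 0 := by simpa using W.per 0
  rw [h1, h3] at h2
  exact add_right_cancel h2

/-- The general bound. -/
theorem sum_general (W : Walk Γ x k) (F : Γ.FanData) :
    2 * (k : ℤ) + 6 * ∑ i ∈ range k, vx Γ (x i) ≤
      ∑ i ∈ range k, (4 + 4 * vx Γ (x i) - 2 * F.delta (x i)) := by
  have h1 : ∑ i ∈ range k, (F.delta (x i) + F.delta (x (i + 1))) ≤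
      ∑ i ∈ range k, (2 - 2 * vx Γ (x (i + 1))) := by
    apply Finset.sum_le_sum
    intro i _
    rw [W.step]
    exact F.delta_pair _
  rw [Finset.sum_add_distrib, W.sum_shift F.delta, Finset.sum_sub_distrib, ← Finset.mul_sum,
    W.sum_shift (vx Γ)] at h1
  rw [Finset.sum_sub_distrib, Finset.sum_add_distrib, ← Finset.mul_sum, ← Finset.mul_sum]
  simp only [Finset.sum_const, Finset.card_range, nsmul_eq_mul] at h1 ⊢
  linarith

theorem vx_zero {a : D} (h : Γ.IsX a) : vx Γ a = 0 := by unfold vx; rw [if_pos h]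

theorem vx_one {a : D} (h : ¬ Γ.IsX a) : vx Γ a = 1 := by unfold vx; rw [if_neg h]

theorem delta_per (W : Walk Γ x k) (F : Γ.FanData) (i : ℕ) :
    F.delta (x (i + k)) = F.delta (x i) := by rw [W.per]

theorem delta_add_le (W : Walk Γ x k) (F : Γ.FanData) (i : ℕ) :
    F.delta (x i) + F.delta (x (i + 1)) ≤ 2 - 2 * vx Γ (x (i + 1)) := by
  rw [W.step]; exact F.delta_pair _

theorem sumX [Finite V] [Finite X] [Finite D] (W : Walk Γ x k) (h : Γ.Good) (F : Γ.FanData)
    (hX : ∀ i, Γ.IsX (x i)) (hs : Γ.Solo (x 0)) (hQ : ¬ Γ.QF (x 0)) :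
    20 ≤ ∑ i ∈ range k, (4 + 4 * vx Γ (x i) - 2 * F.delta (x i)) := by
  have hv : ∀ i, vx Γ (x i) = 0 := fun i => vx_zero (hX i)
  have hpair : ∀ i, F.delta (x i) + F.delta (x (i + 1)) ≤ 2 := by
    intro i
    have := W.delta_add_le F i
    rw [hv] at this
    linarith
  have hnn : ∀ i, 0 ≤ F.delta (x i) := fun i => F.delta_nonneg _
  rcases lt_or_ge k 10 with hk | hk
  · have hpos := W.pos
    interval_cases k
    · exact (W.not1X h (hX 0)).elim
    · exact (W.not2X h F hX).elim
    · exact (W.not3X h F hX).elim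
    · exfalso
      apply hQ
      refine ⟨hX 0, ?_, ?_, ?_, ?_, hs⟩
      · rw [← W.step]; exact hX _
      · rw [← W.step, ← W.step]; exact hX _
      · rw [← W.step, ← W.step, ← W.step]; exact hX _
      · rw [← W.step, ← W.step, ← W.step, ← W.step]; exact W.per 0
    · have h0 : ∀ i, F.delta (x (i + 1)) = 0 := fun i =>
        F.delta_of_not_fl (W.noFl5 h F hX i)
      have d0 : F.delta (x 0) = 0 := by rw [← W.per 0]; exact h0 4
      have d1 := h0 0; have d2 := h0 1; have d3 := h0 2; have d4 := h0 3
      norm_num at d1 d2 d3 d4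
      simp only [Finset.sum_range_succ, Finset.sum_range_zero, hv, d0, d1, d2, d3, d4]
      norm_num
    · have := arith6 (fun i => F.delta (x i)) hnn (W.delta_per F) hpair (by
        intro i
        by_contra hh
        rw [not_or] at hh
        exact W.noFl6 h F hX i ⟨F.fl_of_delta hh.1, F.fl_of_delta hh.2⟩) (by
        intro i
        by_cases hA : F.delta (x (i + 1)) = 0
        · have h1 := F.delta_le (a := x (i + 4))
          rw [hv] at h1
          show F.delta (x (i + 1)) + F.delta (x (i + 4)) ≤ 2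
          rw [hA]; linarith
        · by_cases hB : F.delta (x (i + 4)) = 0
          · have h1 := F.delta_le (a := x (i + 1))
            rw [hv] at h1
            show F.delta (x (i + 1)) + F.delta (x (i + 4)) ≤ 2
            rw [hB]; linarith
          · have h1 := W.opp6 h F hX i (F.fl_of_delta hB)
            have h2 := W.opp6 h F hX (i + 3) (by
              have e : x (i + 3 + 4) = x (i + 1) := W.per (i + 1)
              rw [e]; exact F.fl_of_delta hA)
            show F.delta (x (i + 1)) + F.delta (x (i + 4)) ≤ 2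
            have h2' : F.delta (x (i + 4)) ≤ 1 := h2
            linarith)
      simp only [Finset.sum_range_succ, Finset.sum_range_zero, hv]
      linarith
    · have := arith7 (fun i => F.delta (x i)) hnn (W.delta_per F) hpair (by
        intro i
        by_contra hh
        rw [not_or] at hh
        exact W.noFl7 h F hX i ⟨F.fl_of_delta hh.1, F.fl_of_delta hh.2⟩)
      simp only [Finset.sum_range_succ, Finset.sum_range_zero, hv]
      linarith
    · -- `k = 8`
      have hne : ∀ i, x i ≠ x (i + 4) := fun i => W.ne_of_mod (by omega)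
      have := arith8 (fun i => F.delta (x i)) hnn (W.delta_per F) hpair (by
        intro i
        by_contra hh
        rw [not_or, not_or, not_or] at hh
        obtain ⟨l0, t0, -⟩ := W.aligned h (F.fl_of_delta hh.1) (F.fl_of_delta hh.2.1)
        obtain ⟨l1, -, -⟩ := W.aligned (i := i + 1) h (F.fl_of_delta hh.2.2.1)
          (F.fl_of_delta hh.2.2.2)
        exact hne i (W.no_double h (hX _) (hX _) l0 t0 l1)) (by
        intro i
        by_contra hh
        rw [not_or, not_or, not_or] at hh
        obtain ⟨l0, t0, -⟩ := W.aligned h (F.fl_of_delta hh.1) (F.fl_of_delta hh.2.1)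
        obtain ⟨l1, -, -⟩ := W.aligned (i := i + 5) h (F.fl_of_delta hh.2.2.1)
          (F.fl_of_delta hh.2.2.2)
        have e : x (i + 5 + 4) = x (i + 1) := W.per (i + 1)
        rw [e] at l1
        exact hne i (W.no_double h (hX _) (hX _) l0 t0 l1.symm)) (by
        intro i
        by_cases hA : F.delta (x (i + 1)) = 0
        · exact Or.inl hA
        · by_cases hB : F.delta (x (i + 3)) = 0
          · exact Or.inr (Or.inl hB)
          · by_cases hC : F.delta (x (i + 5)) = 0
            · exact Or.inr (Or.inr (Or.inl hC))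
            · exact Or.inr (Or.inr (Or.inr (W.triple h F hX i (hne i) (F.fl_of_delta hA)
                (F.fl_of_delta hB) (F.fl_of_delta hC)))))
      simp only [Finset.sum_range_succ, Finset.sum_range_zero, hv]
      linarith
    · -- `k = 9`
      have hne : ∀ i, x i ≠ x (i + 4) := fun i => W.ne_of_mod (by omega)
      have := arith9 (fun i => F.delta (x i)) hnn (W.delta_per F) hpair (by
        by_contra hh
        rw [not_or, not_or, not_or] at hh
        obtain ⟨l0, t0, -⟩ := W.aligned (i := 0) h (F.fl_of_delta hh.1)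
          (F.fl_of_delta hh.2.2.1)
        obtain ⟨l1, -, -⟩ := W.aligned (i := 1) h (F.fl_of_delta hh.2.1)
          (F.fl_of_delta hh.2.2.2)
        exact hne 0 (W.no_double h (hX _) (hX _) l0 t0 l1))
      simp only [Finset.sum_range_succ, Finset.sum_range_zero, hv]
      linarith
  · have := W.sum_general F
    simp only [hv, Finset.sum_const_zero] at this
    simp only [hv]
    have hk' : (10 : ℤ) ≤ k := by exact_mod_cast hk
    linarith

end Walk

end Drawing

end Pool.Agent.Helper19.Fan
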