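import Pool.Agent.Helper19.Fan.Cell2

set_option autoImplicit false

/-!
# The charge of a cell is at least 20
-/

namespace Pool.Agent.Helper19.Fan

open Equiv.Perm Finset

open scoped Classical

variable {V E : Type} {G : E → Sym2 V} {X D : Type}

namespace Drawing

variable {Γ : Drawing G X D}

open FanData

namespace Walk

variable {x : ℕ → D} {k : ℕ}

theorem noFl4a (W : Walk Γ x 4) (h : Γ.Good) (h0 : ¬ Γ.IsX (x 0)) (h3 : Γ.IsX (x 3)) :
    ¬ Γ.Fl (x 1) := by
  intro hf
  obtain ⟨v, hv⟩ := Γ.not_isX.mp h0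
  obtain ⟨a1, -⟩ := W.fl_tgt (i := 0) hf
  rw [Γ.tgt_rev_of_org hv] at a1
  have t3 : Γ.tgt (x 3) = v := by
    apply Γ.tgt_of_org
    rw [← org_phi, ← W.step]
    have : x (3 + 1) = x 0 := W.per 0
    rw [this, hv]
  exact (W.corner h (i := 2) h3).2.1 (t3.trans a1.symm)

theorem noFl4b (W : Walk Γ x 4) (h : Γ.Good) (h0 : ¬ Γ.IsX (x 0)) (h1 : Γ.IsX (x 1)) :
    ¬ Γ.Fl (x 2) := by
  intro hf
  obtain ⟨v, hv⟩ := Γ.not_isX.mp h0
  obtain ⟨a1, -⟩ := W.fl_tgt (i := 1) hf
  have t3 : Γ.tgt (x 3) = v := by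
    apply Γ.tgt_of_org
    rw [← org_phi, ← W.step]
    have : x (3 + 1) = x 0 := W.per 0
    rw [this, hv]
  have a2 : v = Γ.tgt (Γ.rev (x 1)) := t3.symm.trans a1
  apply (W.corner h (i := 0) h1).2.2.1
  rw [Γ.tgt_rev_of_org hv]
  exact a2.symm

theorem noFl5V (W : Walk Γ x 5) (h : Γ.Good) (h0 : ¬ Γ.IsX (x 0)) (h2 : Γ.IsX (x 2)) :
    ¬ (Γ.Fl (x 1) ∧ Γ.Fl (x 3)) := by
  rintro ⟨hf, hf'⟩
  obtain ⟨v, hv⟩ := Γ.not_isX.mp h0
  obtain ⟨a1, -⟩ := W.fl_tgt (i := 0) hf
  rw [Γ.tgt_rev_of_org hv] at a1
  obtain ⟨a2, -⟩ := W.fl_tgt (i := 2) hf'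
  have t4 : Γ.tgt (x 4) = v := by
    apply Γ.tgt_of_org
    rw [← org_phi, ← W.step]
    have : x (4 + 1) = x 0 := W.per 0
    rw [this, hv]
  have a3 : v = Γ.tgt (Γ.rev (x 2)) := t4.symm.trans a2
  exact h.tgt_ne_isX h2 (a1.trans a3)

theorem sumV [Finite V] [Finite X] [Finite D] (W : Walk Γ x k) (h : Γ.Good) (F : Γ.FanData)
    (hn : 3 ≤ Nat.card V) (hs : Γ.Solo (x 0)) (h0 : ¬ Γ.IsX (x 0)) (hT : ∀ i, ¬ Γ.TB (x i)) :
    20 ≤ ∑ i ∈ range k, (4 + 4 * vx Γ (x i) - 2 * F.delta (x i)) := by
  have v0 : vx Γ (x 0) = 1 := vx_one h0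
  have hnn : ∀ i, 0 ≤ F.delta (x i) := fun i => F.delta_nonneg _
  have hle : ∀ i, F.delta (x i) ≤ 2 - 2 * vx Γ (x i) := fun i => F.delta_le
  have hpair := W.delta_add_le F
  have hvx : ∀ i, vx Γ (x i) = 0 ∨ vx Γ (x i) = 1 := fun i => vx01 _
  have hX : ∀ i, vx Γ (x i) = 0 → Γ.IsX (x i) := by
    intro i hi
    by_contra hh
    rw [vx_one hh] at hi
    exact absurd hi (by norm_num)
  rcases lt_or_ge k 7 with hk | hk
  · have hpos := W.pos
    interval_cases k
    · exact (W.not1V h hn hs).elim
    · exfalso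
      by_cases h1 : Γ.IsX (x 1)
      · exact W.not2XV h h0 h1
      · exact W.not2VV h hn hs h0 h1
    · -- `k = 3`
      have p3 : x 3 = x 0 := W.per 0
      have p4 : x 4 = x 1 := W.per 1
      have hcase : vx Γ (x 1) = 1 ∨ vx Γ (x 2) = 1 := by
        rcases hvx 1 with h1 | h1
        · rcases hvx 2 with h2 | h2
          · exfalso
            apply hT 1
            have s1 : Γ.phi (x 1) = x 2 := (W.step 1).symm
            have s2 : Γ.phi (x 2) = x 3 := (W.step 2).symm
            have s3 : Γ.phi (x 3) = x 4 := (W.step 3).symm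
            refine ⟨hX 1 h1, ?_, ?_, ?_, ?_⟩
            · rw [s1]; exact hX 2 h2
            · rw [s1, s2, p3]; exact h0
            · rw [s1, s2, s3, p4]
            · have s0 : Γ.phi (x 0) = x 1 := (W.step 0).symm
              rw [← s0]; exact hs.phi
          · exact Or.inr h2
        · exact Or.inl h1
      have e0 := hle 0; have e1 := hle 1
      have f1 := hpair 1; have f2 := hpair 2
      have n0 := hnn 0; have n1 := hnn 1; have n2 := hnn 2; have n3 := hnn 3
      have g1 := hvx 1; have g2 := hvx 2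
      norm_num at f1 f2
      rw [p3] at f2 n3
      simp only [Finset.sum_range_succ, Finset.sum_range_zero]
      omega
    · -- `k = 4`
      have p4 : x 4 = x 0 := W.per 0
      have e0 := hle 0; have e1 := hle 1; have e2 := hle 2
      have f1 := hpair 1; have f2 := hpair 2; have f3 := hpair 3
      have n0 := hnn 0; have n1 := hnn 1; have n2 := hnn 2; have n3 := hnn 3
      have g1 := hvx 1; have g2 := hvx 2; have g3 := hvx 3
      norm_num at f1 f2 f3
      rw [p4] at f3
      have a1 : vx Γ (x 3) = 0 → F.delta (x 1) = 0 := fun hh =>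
        F.delta_of_not_fl (W.noFl4a h h0 (hX 3 hh))
      have a2 : vx Γ (x 1) = 0 → F.delta (x 2) = 0 := fun hh =>
        F.delta_of_not_fl (W.noFl4b h h0 (hX 1 hh))
      simp only [Finset.sum_range_succ, Finset.sum_range_zero]
      omega
    · -- `k = 5`
      have p5 : x 5 = x 0 := W.per 0
      have e0 := hle 0; have e1 := hle 1; have e2 := hle 2; have e3 := hle 3
      have f1 := hpair 1; have f2 := hpair 2; have f3 := hpair 3; have f4 := hpair 4
      have n0 := hnn 0; have n1 := hnn 1; have n2 := hnn 2; have n3 := hnn 3; have n4 := hnn 4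
      have g1 := hvx 1; have g2 := hvx 2; have g3 := hvx 3; have g4 := hvx 4
      norm_num at f1 f2 f3 f4
      rw [p5] at f4
      have a1 : vx Γ (x 2) = 0 → (F.delta (x 1) = 0 ∨ F.delta (x 3) = 0) := by
        intro hh
        by_contra hcon
        rw [not_or] at hcon
        exact W.noFl5V h h0 (hX 2 hh) ⟨F.fl_of_delta hcon.1, F.fl_of_delta hcon.2⟩
      simp only [Finset.sum_range_succ, Finset.sum_range_zero]
      omega
    · -- `k = 6`
      have p6 : x 6 = x 0 := W.per 0
      have e0 := hle 0; have e1 := hle 1; have e2 := hle 2; have e3 := hle 3; have e4 := hle 4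
      have f1 := hpair 1; have f2 := hpair 2; have f3 := hpair 3; have f4 := hpair 4
      have f5 := hpair 5
      have n0 := hnn 0; have n1 := hnn 1; have n2 := hnn 2; have n3 := hnn 3; have n4 := hnn 4
      have n5 := hnn 5
      have g1 := hvx 1; have g2 := hvx 2; have g3 := hvx 3; have g4 := hvx 4; have g5 := hvx 5
      norm_num at f1 f2 f3 f4 f5
      rw [p6] at f5
      simp only [Finset.sum_range_succ, Finset.sum_range_zero]
      omega
  · have h1 := W.sum_general F
    have h2 : vx Γ (x 0) ≤ ∑ i ∈ range k, vx Γ (x i) := by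
      apply Finset.single_le_sum (f := fun i => vx Γ (x i))
      · intro i _
        rcases hvx i with h3 | h3 <;> rw [h3]
        norm_num
      · rw [Finset.mem_range]; omega
    have hk' : (7 : ℤ) ≤ k := by exact_mod_cast hk
    rw [v0] at h2
    linarith

theorem sum_g (W : Walk Γ x k) (F : Γ.FanData) (hT : ∀ i, ¬ Γ.TB (x i))
    (hQ : ∀ i, ¬ Γ.QF (x i)) :
    ∑ i ∈ range k, (4 + 4 * vx Γ (x i) - 2 * F.delta (x i)) ≤ ∑ i ∈ range k, F.g (x i) := by
  have h1 : ∑ i ∈ range k, F.g (x i) =
      ∑ i ∈ range k, (4 + 4 * vx Γ (x i) + 2 * F.near (x i) + 2 * F.near (x (i + 1))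
        - F.tau (x i)) := by
    have e1 := W.sum_shift F.near
    have e2 : ∑ i ∈ range k, (4 + 4 * vx Γ (x i) + 2 * F.near (x i) + 2 * F.near (x (i + 1))
        - F.tau (x i)) = ∑ i ∈ range k, (4 + 4 * vx Γ (x i) + 2 * F.near (x i)
        - F.tau (x i)) + 2 * ∑ i ∈ range k, F.near (x (i + 1)) := by
      rw [Finset.mul_sum, ← Finset.sum_add_distrib]
      apply Finset.sum_congr rfl
      intro i _; ring
    rw [e2, e1, Finset.mul_sum, ← Finset.sum_add_distrib]
    apply Finset.sum_congr rfl
    intro i _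
    unfold FanData.g
    ring
  rw [h1]
  apply Finset.sum_le_sum
  intro i _
  have hk := W.pos
  have e3 : Γ.phi⁻¹ (x i) = x (i + (k - 1)) := by
    rw [Equiv.Perm.inv_eq_iff_eq, ← W.step]
    have : i + (k - 1) + 1 = i + k := by omega
    rw [this, W.per]
  have := F.tau_le (hT i) (hQ i) (by rw [e3]; exact hT _) (by rw [← W.step]; exact hT _)
  rw [← W.step] at this
  linarith

end Walk

theorem exists_walk [Finite D] (c : D) : ∃ k, Walk Γ (fun i => Γ.phi^[i] c) k := by
  have hmem : c ∈ Function.periodicPts Γ.phi := by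
    apply Function.mk_mem_periodicPts (orderOf_pos Γ.phi)
    change Γ.phi^[orderOf Γ.phi] c = c
    rw [Equiv.Perm.iterate_eq_pow, pow_orderOf_eq_one]; rfl
  refine ⟨Function.minimalPeriod Γ.phi c, ?_, ?_, ?_, ?_⟩
  · intro i; exact Function.iterate_succ_apply' _ _ _
  · intro i; exact Function.iterate_add_minimalPeriod_eq
  · exact Function.minimalPeriod_pos_of_mem_periodicPts hmem
  · intro i j hi hj hij
    exact Function.iterate_injOn_Iio_minimalPeriod hi hj hij

theorem sum_class [Fintype D] {c : D} {k : ℕ} (W : Walk Γ (fun i => Γ.phi^[i] c) k)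
    (f : D → ℤ) : ∑ d ∈ univ.filter (fun d => Γ.phi.SameCycle c d), f d =
      ∑ i ∈ range k, f (Γ.phi^[i] c) := by
  have himg : univ.filter (fun d => Γ.phi.SameCycle c d) =
      (range k).image (fun i => Γ.phi^[i] c) := by
    ext d
    simp only [Finset.mem_filter, Finset.mem_univ, true_and, Finset.mem_image, Finset.mem_range]
    constructor
    · intro hd
      obtain ⟨n, rfl⟩ := hd.exists_nat_pow_eq
      exact ⟨n % k, Nat.mod_lt _ W.pos, by
        rw [← Equiv.Perm.iterate_eq_pow]; exact (W.mod n).symm⟩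
    · rintro ⟨i, _, rfl⟩
      have := W.cyc 0 i
      simpa using this
  rw [himg, Finset.sum_image]
  intro i hi j hj hij
  exact W.inj i j (by simpa using hi) (by simpa using hj) hij

/-- The charge of a cell is at least 20. -/
theorem cell_charge [Finite V] [Finite X] [Fintype D] (h : Γ.Good) (F : Γ.FanData)
    (hn : 3 ≤ Nat.card V) (a : D) (hs : Γ.Solo a) :
    20 ≤ ∑ d ∈ univ.filter (fun d => Γ.phi.SameCycle a d), F.g d := by
  -- change the representative
  have hrep : ∀ c, Γ.phi.SameCycle a c →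
      univ.filter (fun d => Γ.phi.SameCycle a d) = univ.filter (fun d => Γ.phi.SameCycle c d) := by
    intro c hc
    ext d
    simp only [Finset.mem_filter, Finset.mem_univ, true_and]
    exact ⟨fun hd => hc.symm.trans hd, fun hd => hc.trans hd⟩
  by_cases hTex : ∃ c, Γ.phi.SameCycle a c ∧ Γ.TB c
  · obtain ⟨c, hc, ht⟩ := hTex
    rw [hrep c hc]
    obtain ⟨k, W⟩ := exists_walk (Γ := Γ) c
    have hk : k = 3 := by
      have h3 : c = Γ.phi^[3] c := by
        simp only [Function.iterate_succ_apply', Function.iterate_zero, id_eq]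
        exact ht.2.2.2.1.symm
      have h4 : k ∣ 3 := by
        by_contra hnd
        exact W.ne_of_mod (i := 0) (j := 3) (by
          intro hh
          apply hnd
          rw [Nat.zero_mod] at hh
          exact Nat.dvd_of_mod_eq_zero hh.symm) h3
      rcases (Nat.dvd_prime Nat.prime_three).mp h4 with h5 | h5
      · rw [h5] at W; exact (W.not1X h ht.1).elim
      · exact h5
    rw [sum_class W, hk]
    simp only [Finset.sum_range_succ, Finset.sum_range_zero, Function.iterate_succ_apply',
      Function.iterate_zero, id_eq, zero_add]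
    exact F.g_triangle h ht
  · by_cases hQex : ∃ c, Γ.phi.SameCycle a c ∧ Γ.QF c
    · obtain ⟨c, hc, hq⟩ := hQex
      rw [hrep c hc]
      obtain ⟨k, W⟩ := exists_walk (Γ := Γ) c
      have hk : k = 4 := by
        have h3 : c = Γ.phi^[4] c := by
          simp only [Function.iterate_succ_apply', Function.iterate_zero, id_eq]
          exact hq.2.2.2.2.1.symm
        have h4 : k ∣ 4 := by
          by_contra hnd
          exact W.ne_of_mod (i := 0) (j := 4) (by
            intro hh
            apply hnd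
            rw [Nat.zero_mod] at hh
            exact Nat.dvd_of_mod_eq_zero hh.symm) h3
        have h5 : k ≤ 4 := Nat.le_of_dvd (by norm_num) h4
        have h6 := W.pos
        interval_cases k
        · exact (W.not1X h hq.1).elim
        · exfalso
          apply W.not2X h F
          have h7 : ∀ i, Γ.IsX (Γ.phi^[i] c) ∧ Γ.IsX (Γ.phi^[i + 1] c) := by
            intro i
            induction i with
            | zero => exact ⟨hq.1, hq.2.1⟩
            | succ i ih =>
              refine ⟨ih.2, ?_⟩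
              have := W.per i
              rw [show i + 1 + 1 = i + 2 from rfl, this]; exact ih.1
          exact fun i => (h7 i).1
        · exact absurd h4 (by norm_num)
        · rfl
      rw [sum_class W, hk]
      simp only [Finset.sum_range_succ, Finset.sum_range_zero, Function.iterate_succ_apply',
        Function.iterate_zero, id_eq, zero_add]
      exact (F.g_quadrangle h hq).ge
    · have hnT : ∀ c, Γ.phi.SameCycle a c → ¬ Γ.TB c := fun c hc ht => hTex ⟨c, hc, ht⟩
      have hnQ : ∀ c, Γ.phi.SameCycle a c → ¬ Γ.QF c := fun c hc ht => hQex ⟨c, hc, ht⟩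
      have main : ∀ c, Γ.phi.SameCycle a c → (¬ Γ.IsX c ∨ ∀ d, Γ.phi.SameCycle a d → Γ.IsX d) →
          20 ≤ ∑ d ∈ univ.filter (fun d => Γ.phi.SameCycle c d), F.g d := by
        intro c hc hcase
        obtain ⟨k, W⟩ := exists_walk (Γ := Γ) c
        have hsc : ∀ i, Γ.phi.SameCycle a (Γ.phi^[i] c) := by
          intro i
          have := W.cyc 0 i
          exact hc.trans (by simpa using this)
        rw [sum_class W]
        refine le_trans ?_ (W.sum_g F (fun i => hnT _ (hsc i)) (fun i => hnQ _ (hsc i)))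
        rcases hcase with h0 | h0
        · exact W.sumV h F hn (hs.of_cell (Γ.cell_of_sameCycle hc)) h0
            (fun i => hnT _ (hsc i))
        · exact W.sumX h F (fun i => h0 _ (hsc i)) (hs.of_cell (Γ.cell_of_sameCycle hc))
            (hnQ _ (hsc 0))
      by_cases hV : ∃ c, Γ.phi.SameCycle a c ∧ ¬ Γ.IsX c
      · obtain ⟨c, hc, hcX⟩ := hV
        rw [hrep c hc]
        exact main c hc (Or.inl hcX)
      · refine main a (SameCycle.refl _ _) (Or.inr ?_)
        intro d hd
        by_contra hh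
        exact hV ⟨d, hd, hh⟩

end Drawing

end Pool.Agent.Helper19.Fan
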