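import Pool.Agent.Helper19.Fan.Lune

set_option autoImplicit false

/-!
# Sides, flanked segments, ladders
-/

namespace Pool.Agent.Helper19.Fan

open Equiv.Perm

variable {V E : Type} {G : E → Sym2 V} {X D : Type}

namespace Drawing

variable (Γ : Drawing G X D)

/-- A choice of the data witnessing fan-planarity. -/
structure FanData where
  w : E → V
  u : E → V
  mem : ∀ e, u e ∈ G e
  left : ∀ e d x, Γ.lab d = some e → Γ.org (Γ.rev d) = Sum.inr x →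
    Leads Γ.rev Γ.rot Γ.org d (u e) → Leads Γ.rev Γ.rot Γ.org (Γ.rot⁻¹ (Γ.rev d)) (w e)

variable {Γ}

theorem Good.exists_fan (h : Γ.Good) : Nonempty Γ.FanData := by
  have := h.fan
  choose w u hu hl using this
  exact ⟨⟨w, u, hu, hl⟩⟩

variable (Γ)

@[simp] theorem phi_phi_inv (a : D) : Γ.phi (Γ.phi⁻¹ a) = a := by simp

@[simp] theorem phi_inv_phi (a : D) : Γ.phi⁻¹ (Γ.phi a) = a := by simp

theorem isX_phi_rev {a : D} : Γ.IsX (Γ.phi (Γ.rev a)) ↔ Γ.IsX a := by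
  rw [isX_phi, rev_rev']

theorem across {a : D} (ha : Γ.IsX a) : Γ.lab (Γ.phi (Γ.rev a)) = Γ.lab (Γ.phi⁻¹ a) ∧
    Γ.tgt (Γ.phi (Γ.rev a)) = Γ.tgt (Γ.phi⁻¹ a) ∧
    Γ.tgt (Γ.rev (Γ.phi (Γ.rev a))) = Γ.tgt (Γ.rev (Γ.phi⁻¹ a)) := by
  have h1 : Γ.phi (Γ.rev a) = Γ.rot (Γ.rot (Γ.rot a)) := by
    rw [phi_apply, rev_rev', Γ.rot_inv_of_isX ha]
  have hX : Γ.IsX (Γ.rot a) := Γ.isX_rot.mpr ha
  rw [h1, phi_inv_apply, Γ.lab_rot2 hX, Γ.lab_rev, Γ.tgt_rot2 hX, Γ.tgt_rev_rot2 hX, rev_rev']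
  exact ⟨rfl, rfl, rfl⟩

/-- The corner at the start of a dart. -/
theorem Good.corner' {Γ : Drawing G X D} (h : Γ.Good) {a : D} (ha : Γ.IsX a) :
    Γ.tgt a ≠ Γ.tgt (Γ.rev (Γ.phi⁻¹ a)) ∧ Γ.tgt a ≠ Γ.tgt (Γ.phi⁻¹ a) ∧
    Γ.tgt (Γ.rev a) ≠ Γ.tgt (Γ.rev (Γ.phi⁻¹ a)) ∧ Γ.tgt (Γ.rev a) ≠ Γ.tgt (Γ.phi⁻¹ a) := by
  have := h.corner (a := Γ.phi⁻¹ a) (by rw [phi_phi_inv]; exact ha)
  rwa [phi_phi_inv] at this

/-- A segment between two crossings with edges that are parallel. -/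
def Fl (a : D) : Prop := Γ.IsX a ∧ Γ.IsX (Γ.phi a) ∧ Γ.tgt (Γ.phi a) = Γ.tgt (Γ.rev (Γ.phi⁻¹ a)) ∧
  Γ.tgt (Γ.rev (Γ.phi a)) = Γ.tgt (Γ.phi⁻¹ a)

theorem Fl.rev {a : D} (h : Γ.Fl a) : Γ.Fl (Γ.rev a) := by
  obtain ⟨h1, h2, h3, h4⟩ := h
  have hX : Γ.IsX (Γ.rev a) := Γ.isX_phi.mp h2
  obtain ⟨-, e1, e2⟩ := Γ.across h1
  obtain ⟨-, e3, e4⟩ := Γ.across hX
  rw [rev_rev'] at e3 e4
  refine ⟨hX, Γ.isX_phi_rev.mpr h1, ?_, ?_⟩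
  · rw [e1, ← e4, h4]
  · rw [e2, ← e3, h3]

theorem fl_rev {a : D} : Γ.Fl (Γ.rev a) ↔ Γ.Fl a :=
  ⟨fun h => by have := Fl.rev Γ h; rwa [rev_rev'] at this, fun h => Fl.rev Γ h⟩

/-- `a` is the base of a triangle whose third corner is a vertex. -/
def TB (a : D) : Prop := Γ.IsX a ∧ Γ.IsX (Γ.phi a) ∧ ¬ Γ.IsX (Γ.phi (Γ.phi a)) ∧
  Γ.phi (Γ.phi (Γ.phi a)) = a ∧ Γ.Solo a

/-- The cell left of `a` is a quadrangle whose corners are crossings. -/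
def QF (a : D) : Prop := Γ.IsX a ∧ Γ.IsX (Γ.phi a) ∧ Γ.IsX (Γ.phi (Γ.phi a)) ∧
  Γ.IsX (Γ.phi (Γ.phi (Γ.phi a))) ∧ Γ.phi (Γ.phi (Γ.phi (Γ.phi a))) = a ∧ Γ.Solo a

/-- Walking through quadrangles from `a` to the left one arrives at a triangle. -/
inductive TEnd : D → Prop
  | base {a : D} : Γ.TB a → TEnd a
  | step {a : D} : Γ.QF a → TEnd (Γ.rev (Γ.phi (Γ.phi a))) → TEnd a

variable {Γ}

theorem TB.not_QF {a : D} (h : Γ.TB a) : ¬ Γ.QF a := fun h' => h.2.2.1 h'.2.2.1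

theorem QF.phi [Finite D] {a : D} (h : Γ.QF a) : Γ.QF (Γ.phi a) := by
  obtain ⟨h1, h2, h3, h4, h5, h6⟩ := h
  exact ⟨h2, h3, h4, by rw [h5]; exact h1, by rw [h5], h6.phi⟩

theorem TEnd.of_QF {a : D} (hq : Γ.QF a) (h : Γ.TEnd a) : Γ.TEnd (Γ.rev (Γ.phi (Γ.phi a))) := by
  cases h with
  | base h1 => exact absurd hq h1.not_QF
  | step _ h2 => exact h2

theorem TEnd.cases' {a : D} (h : Γ.TEnd a) : Γ.TB a ∨ Γ.QF a := by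
  cases h with
  | base h1 => exact Or.inl h1
  | step h1 _ => exact Or.inr h1

theorem QF.fl_opp {a : D} (hq : Γ.QF a) (h : Γ.Fl a) : Γ.Fl (Γ.phi (Γ.phi a)) := by
  obtain ⟨h1, h2, h3, h4⟩ := h
  obtain ⟨q1, q2, q3, q4, q5, -⟩ := hq
  have e1 : Γ.phi⁻¹ a = Γ.phi (Γ.phi (Γ.phi a)) := by
    rw [Equiv.Perm.inv_eq_iff_eq]; exact q5.symm
  have e2 : Γ.phi⁻¹ (Γ.phi (Γ.phi a)) = Γ.phi a := by simp
  rw [e1] at h3 h4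
  refine ⟨q3, q4, ?_, ?_⟩
  · rw [e2]; exact h4.symm
  · rw [e2]; exact h3.symm

theorem Fl.labels {a : D} (ha : Γ.Fl a) : ∃ e f, Γ.lab (Γ.phi⁻¹ a) = some e ∧
    Γ.lab (Γ.phi a) = some f ∧ G e = G f := by
  obtain ⟨h1, h2, h3, h4⟩ := ha
  obtain ⟨e, he⟩ := Γ.lab_isX (Γ.isX_rot.mpr h1)
  rw [← Γ.lab_phi_inv] at he
  obtain ⟨f, hf⟩ := Γ.lab_isX h2
  refine ⟨e, f, he, hf, ?_⟩
  rw [Γ.ends' he, Γ.ends' hf, h3, h4]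
  exact Sym2.eq_swap

theorem Fl.labels_ne [Finite D] (h : Γ.Good) {a : D} (ha : Γ.Fl a) :
    Γ.lab (Γ.phi⁻¹ a) ≠ Γ.lab (Γ.phi a) := by
  intro hl
  obtain ⟨h1, h2, h3, h4⟩ := ha
  obtain ⟨x, hx⟩ := h1
  obtain ⟨y, hy⟩ := h2
  have hX : Γ.IsX a := ⟨x, hx⟩
  have hX' : Γ.IsX (Γ.phi a) := ⟨y, hy⟩
  -- the crossing of `lab a` and the flanking edge, seen from both ends
  have hxy : x = y := by
    apply h.simple.2 (Γ.rot a) (Γ.phi a) x y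
    · rw [org_rot]; exact hx
    · exact hy
    · rw [← Γ.lab_phi_inv, hl]
    · rw [rot_phi, Γ.lab_rev, Γ.lab_rot2 hX]
  subst hxy
  apply h.org_ne hX
  rw [← Γ.org_phi, hy, hx]

end Drawing

end Pool.Agent.Helper19.Fan
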