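import Pool.Agent.Helper19.Fan.Cell3

set_option autoImplicit false

/-!
# The final count
-/

namespace Pool.Agent.Helper19.Fan

open Equiv.Perm Finset

open scoped Classical

variable {V E : Type} {G : E → Sym2 V} {X D : Type}

namespace Drawing

variable {Γ : Drawing G X D}

theorem sum_tau [Fintype D] (h : Γ.Good) (F : Γ.FanData) : ∑ d, F.tau d = 0 := by
  have h1 : ∑ d, F.tau (Γ.rev d) = ∑ d, F.tau d := Equiv.sum_comp Γ.rev F.tau
  have h2 : ∑ d, F.tau (Γ.rev d) = - ∑ d, F.tau d := by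
    rw [← Finset.sum_neg_distrib]
    exact Finset.sum_congr rfl (fun d _ => F.tau_rev h d)
  linarith

theorem near_four (h : Γ.Good) (F : Γ.FanData) (d : D) :
    F.near d + F.near (Γ.rot d) + F.near (Γ.rot (Γ.rot d)) + F.near (Γ.rot (Γ.rot (Γ.rot d))) =
      if Γ.IsX d then 1 else 0 := by
  have key : ∀ c, Γ.IsX c → F.near c = (1 - F.b (Γ.rot c)) * F.b c := by
    intro c hc
    unfold FanData.near
    rw [if_pos hc, phi_inv_apply, F.b_rev_isX h (Γ.isX_rot.mpr hc)]
  by_cases hX : Γ.IsX d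
  · have h1 := Γ.isX_rot.mpr hX
    have h2 := Γ.isX_rot.mpr h1
    have h3 := Γ.isX_rot.mpr h2
    rw [if_pos hX, key _ hX, key _ h1, key _ h2, key _ h3, Γ.rot4 hX,
      F.b_rot2 h h1, F.b_rot2 h hX]
    ring
  · have h1 : ¬ Γ.IsX (Γ.rot d) := fun hh => hX (Γ.isX_rot.mp hh)
    have h2 : ¬ Γ.IsX (Γ.rot (Γ.rot d)) := fun hh => h1 (Γ.isX_rot.mp hh)
    have h3 : ¬ Γ.IsX (Γ.rot (Γ.rot (Γ.rot d))) := fun hh => h2 (Γ.isX_rot.mp hh)
    unfold FanData.near
    rw [if_neg hX, if_neg h1, if_neg h2, if_neg h3, if_neg hX]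
    norm_num

theorem sum_near [Fintype D] (h : Γ.Good) (F : Γ.FanData) :
    4 * ∑ d, F.near d = ∑ d, (if Γ.IsX d then 1 else 0) := by
  have h1 : ∑ d, F.near (Γ.rot d) = ∑ d, F.near d := Equiv.sum_comp Γ.rot F.near
  have h2 : ∑ d, F.near (Γ.rot (Γ.rot d)) = ∑ d, F.near d := by
    rw [Equiv.sum_comp Γ.rot (fun d => F.near (Γ.rot d)), h1]
  have h3 : ∑ d, F.near (Γ.rot (Γ.rot (Γ.rot d))) = ∑ d, F.near d := by
    rw [Equiv.sum_comp Γ.rot (fun d => F.near (Γ.rot (Γ.rot d))), h2]
  have h4 : ∑ d, (F.near d + F.near (Γ.rot d) + F.near (Γ.rot (Γ.rot d)) +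
      F.near (Γ.rot (Γ.rot (Γ.rot d)))) = ∑ d, (if Γ.IsX d then 1 else 0) :=
    Finset.sum_congr rfl (fun d _ => near_four h F d)
  rw [Finset.sum_add_distrib, Finset.sum_add_distrib, Finset.sum_add_distrib, h1, h2, h3] at h4
  linarith

theorem card_isX [Fintype X] [Fintype D] :
    4 * Fintype.card X ≤ (univ.filter (fun d : D => Γ.IsX d)).card := by
  have himg : (univ.filter (fun d : D => Γ.IsX d)).image Γ.org =
      (univ : Finset X).image Sum.inr := by
    ext p
    simp only [Finset.mem_image, Finset.mem_filter, Finset.mem_univ, true_and]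
    constructor
    · rintro ⟨d, ⟨x, hx⟩, rfl⟩
      exact ⟨x, hx.symm⟩
    · rintro ⟨x, rfl⟩
      obtain ⟨d, hd⟩ := Γ.org_surj (Sum.inr x)
      exact ⟨d, ⟨x, hd⟩, hd⟩
  have hcard : ((univ.filter (fun d : D => Γ.IsX d)).image Γ.org).card = Fintype.card X := by
    rw [himg, Finset.card_image_of_injective _ Sum.inr_injective]
    rfl
  rw [← hcard]
  apply Finset.mul_card_image_le_card
  intro p hp
  rw [himg, Finset.mem_image] at hp
  obtain ⟨x, -, rfl⟩ := hp
  obtain ⟨d, hd⟩ := Γ.org_surj (Sum.inr x)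
  have hX : Γ.IsX d := ⟨x, hd⟩
  have n2 := Γ.rot2_ne hX
  have r4 := Γ.rot4 hX
  have n1 : Γ.rot d ≠ d := fun hh => n2 (by rw [hh, hh])
  have n3 : Γ.rot (Γ.rot (Γ.rot d)) ≠ d := fun hh => n1 (by rw [hh] at r4; exact r4)
  have hsub : ({d, Γ.rot d, Γ.rot (Γ.rot d), Γ.rot (Γ.rot (Γ.rot d))} : Finset D) ⊆
      (univ.filter (fun d : D => Γ.IsX d)).filter (fun a => Γ.org a = Sum.inr x) := by
    intro a ha
    simp only [Finset.mem_insert, Finset.mem_singleton] at ha
    have hao : Γ.org a = Sum.inr x := by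
      rcases ha with rfl | rfl | rfl | rfl
      · exact hd
      · rw [org_rot, hd]
      · rw [org_rot, org_rot, hd]
      · rw [org_rot, org_rot, org_rot, hd]
    rw [Finset.mem_filter, Finset.mem_filter]
    exact ⟨⟨Finset.mem_univ _, ⟨x, hao⟩⟩, hao⟩
  have hc4 : ({d, Γ.rot d, Γ.rot (Γ.rot d), Γ.rot (Γ.rot (Γ.rot d))} : Finset D).card = 4 := by
    rw [Finset.card_insert_of_notMem, Finset.card_insert_of_notMem, Finset.card_insert_of_notMem,
      Finset.card_singleton]
    · rw [Finset.mem_singleton]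
      intro hh; exact n1 (Γ.rot.injective (Γ.rot.injective hh)).symm
    · rw [Finset.mem_insert, Finset.mem_singleton, not_or]
      exact ⟨fun hh => n1 (Γ.rot.injective hh).symm, fun hh => n2 (Γ.rot.injective hh).symm⟩
    · rw [Finset.mem_insert, Finset.mem_insert, Finset.mem_singleton, not_or, not_or]
      exact ⟨n1.symm, n2.symm, n3.symm⟩
  rw [← hc4]
  exact Finset.card_le_card hsub

theorem Good.exists_at (h : Γ.Good) {e : E} {v : V} (hv : v ∈ G e) :
    ∃ r, Γ.lab r = some e ∧ Γ.org r = Sum.inl v := by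
  have key : ∀ d v, Leads Γ.rev Γ.rot Γ.org d v → Γ.lab d = some e →
      ∃ r, Γ.lab r = some e ∧ Γ.org r = Sum.inl v := by
    intro d v hL hl
    obtain ⟨l, hl1, hl2, -⟩ := h.exists_last (f := e) rfl (fun _ => 0) (fun _ => rfl)
      (fun _ => 0) (fun _ => (add_zero _).symm) (fun _ _ _ => rfl) hL hl
    exact ⟨Γ.rev l, by rw [Γ.lab_rev, hl1], hl2⟩
  obtain ⟨d, hd⟩ := Γ.drawn e
  rcases (Γ.mem_iff hd v).mp hv with rfl | rfl
  · exact key d _ (Γ.leads_tgt d) hd
  · exact key (Γ.rev d) _ (Γ.leads_tgt _) (by rw [Γ.lab_rev, hd])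

theorem card_edges [Fintype E] [Fintype D] (h : Γ.Good) :
    2 * Fintype.card E ≤ (univ.filter (fun d : D => Γ.lab d ≠ none ∧ ¬ Γ.IsX d)).card := by
  have himg : (univ.filter (fun d : D => Γ.lab d ≠ none ∧ ¬ Γ.IsX d)).image Γ.lab =
      (univ : Finset E).image some := by
    ext p
    simp only [Finset.mem_image, Finset.mem_filter, Finset.mem_univ, true_and]
    constructor
    · rintro ⟨d, ⟨h1, _⟩, rfl⟩
      obtain ⟨e, he⟩ := Option.ne_none_iff_exists'.mp h1
      exact ⟨e, he.symm⟩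
    · rintro ⟨e, rfl⟩
      obtain ⟨d, hd⟩ := Γ.drawn e
      obtain ⟨r, hr1, hr2⟩ := h.exists_at (Γ.tgt_mem hd)
      exact ⟨r, ⟨by rw [hr1]; exact Option.some_ne_none _, Γ.not_isX.mpr ⟨_, hr2⟩⟩, hr1⟩
  have hcard : ((univ.filter (fun d : D => Γ.lab d ≠ none ∧ ¬ Γ.IsX d)).image Γ.lab).card =
      Fintype.card E := by
    rw [himg, Finset.card_image_of_injective _ (Option.some_injective _)]
    rfl
  rw [← hcard]
  apply Finset.mul_card_image_le_card
  intro p hp
  rw [himg, Finset.mem_image] at hp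
  obtain ⟨e, -, rfl⟩ := hp
  obtain ⟨d, hd⟩ := Γ.drawn e
  obtain ⟨r, hr1, hr2⟩ := h.exists_at (Γ.tgt_mem hd)
  obtain ⟨s, hs1, hs2⟩ := h.exists_at (Γ.tgt_rev_mem hd)
  have hne : r ≠ s := by
    rintro rfl
    rw [hr2] at hs2
    exact h.tgt_ne hd (Sum.inl.inj hs2)
  have hsub : ({r, s} : Finset D) ⊆
      (univ.filter (fun d : D => Γ.lab d ≠ none ∧ ¬ Γ.IsX d)).filter
        (fun a => Γ.lab a = some e) := by
    intro a ha
    simp only [Finset.mem_insert, Finset.mem_singleton] at ha
    rw [Finset.mem_filter, Finset.mem_filter]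
    rcases ha with rfl | rfl
    · exact ⟨⟨Finset.mem_univ _, by rw [hr1]; exact Option.some_ne_none _,
        Γ.not_isX.mpr ⟨_, hr2⟩⟩, hr1⟩
    · exact ⟨⟨Finset.mem_univ _, by rw [hs1]; exact Option.some_ne_none _,
        Γ.not_isX.mpr ⟨_, hs2⟩⟩, hs1⟩
  rw [← Finset.card_pair hne]
  exact Finset.card_le_card hsub

/-- A representative of the boundary walk. -/
noncomputable def rep (Γ : Drawing G X D) (d : D) : D :=
  (Quotient.mk (SameCycle.setoid Γ.phi) d).out

theorem rep_sameCycle (d : D) : Γ.phi.SameCycle (rep Γ d) d :=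
  Quotient.mk_out (s := SameCycle.setoid Γ.phi) d

theorem rep_eq {a b : D} (h : Γ.phi.SameCycle a b) : rep Γ a = rep Γ b := by
  unfold rep
  rw [Quotient.sound (s := SameCycle.setoid Γ.phi) h]

theorem rep_rep (d : D) : rep Γ (rep Γ d) = rep Γ d := rep_eq (rep_sameCycle d)

theorem card_rep [Fintype D] : (univ.filter (fun d : D => rep Γ d = d)).card ≤
    Nat.card (Quotient (SameCycle.setoid Γ.phi)) := by
  have : Fintype (Quotient (SameCycle.setoid Γ.phi)) := Fintype.ofFinite _
  rw [Nat.card_eq_fintype_card, ← Finset.card_univ]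
  apply Finset.card_le_card_of_injOn (fun d => Quotient.mk (SameCycle.setoid Γ.phi) d)
  · intro a _
    exact Finset.mem_univ _
  · intro a ha b hb hab
    rw [Finset.mem_coe, Finset.mem_filter] at ha hb
    rw [← ha.2, ← hb.2]
    exact rep_eq (Quotient.exact (s := SameCycle.setoid Γ.phi) hab)

/-- The contribution of a dart to the charge of its cell. -/
noncomputable def wt (Γ : Drawing G X D) (F : Γ.FanData) (d : D) : ℤ :=
  (if Γ.lab d = none then 0 else F.g d) + 20 * (if rep Γ d = d then 1 else 0)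

theorem no_stub [Finite V] [Finite D] (h : Γ.Good) (hn : 3 ≤ Nat.card V) {a : D}
    (hs : Γ.Solo a) : Γ.lab a ≠ none := by
  intro hl
  obtain ⟨k, W⟩ := exists_walk (Γ := Γ) a
  have hk : k = 1 := by
    by_contra hne
    have hk := W.pos
    have := W.inj 0 1 hk (by omega) (by
      change a = Γ.phi a
      exact (Γ.phi_of_stub hl).symm)
    exact absurd this (by norm_num)
  rw [hk] at W
  exact W.not1V h hn hs

theorem cell_wt [Finite V] [Finite X] [Fintype D] (h : Γ.Good) (F : Γ.FanData)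
    (hn : 3 ≤ Nat.card V) (a : D) :
    40 ≤ ∑ d ∈ univ.filter (fun d => Γ.cell a d), wt Γ F d := by
  have hg : ∀ d, 0 ≤ (if Γ.lab d = none then 0 else F.g d) := by
    intro d
    split_ifs
    · exact le_rfl
    · exact F.g_nonneg d
  have hr : ∀ d, (0 : ℤ) ≤ (if rep Γ d = d then 1 else 0) := by
    intro d; split_ifs <;> norm_num
  unfold wt
  rw [Finset.sum_add_distrib, ← Finset.mul_sum]
  have hrc : ∀ d, Γ.cell a d → Γ.cell a (rep Γ d) := fun d hd =>
    Γ.cell.trans hd (Γ.cell.symm (Γ.cell_of_sameCycle (rep_sameCycle d)))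
  by_cases hs : Γ.Solo a
  · have e1 : univ.filter (fun d => Γ.cell a d) = univ.filter (fun d => Γ.phi.SameCycle a d) := by
      ext d
      simp only [Finset.mem_filter, Finset.mem_univ, true_and]
      exact ⟨fun hd => hs d hd, fun hd => Γ.cell_of_sameCycle hd⟩
    have e2 : ∑ d ∈ univ.filter (fun d => Γ.cell a d), (if Γ.lab d = none then 0 else F.g d) =
        ∑ d ∈ univ.filter (fun d => Γ.phi.SameCycle a d), F.g d := by
      rw [e1]
      apply Finset.sum_congr rfl
      intro d hd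
      rw [Finset.mem_filter] at hd
      rw [if_neg (no_stub h hn (hs.of_cell (Γ.cell_of_sameCycle hd.2)))]
    have e3 := cell_charge h F hn a hs
    have e4 : (1 : ℤ) ≤ ∑ d ∈ univ.filter (fun d => Γ.cell a d),
        (if rep Γ d = d then 1 else 0) := by
      have := Finset.single_le_sum (f := fun d => (if rep Γ d = d then (1 : ℤ) else 0))
        (s := univ.filter (fun d => Γ.cell a d)) (fun d _ => hr d)
        (a := rep Γ a) (by
          rw [Finset.mem_filter]
          exact ⟨Finset.mem_univ _, hrc a (Γ.cell.refl a)⟩)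
      simp only [rep_rep, if_true] at this
      exact this
    rw [e2]
    linarith
  · unfold Solo at hs
    rw [not_forall] at hs
    obtain ⟨b, hb⟩ := hs
    rw [Classical.not_imp] at hb
    obtain ⟨hb1, hb2⟩ := hb
    have hne : rep Γ a ≠ rep Γ b := by
      intro hh
      apply hb2
      have h1 := rep_sameCycle (Γ := Γ) a
      have h2 := rep_sameCycle (Γ := Γ) b
      rw [← hh] at h2
      exact h1.symm.trans h2
    have e4 : (2 : ℤ) ≤ ∑ d ∈ univ.filter (fun d => Γ.cell a d),
        (if rep Γ d = d then 1 else 0) := by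
      have hsub : ({rep Γ a, rep Γ b} : Finset D) ⊆ univ.filter (fun d => Γ.cell a d) := by
        intro d hd
        rw [Finset.mem_insert, Finset.mem_singleton] at hd
        rw [Finset.mem_filter]
        rcases hd with rfl | rfl
        · exact ⟨Finset.mem_univ _, hrc a (Γ.cell.refl a)⟩
        · exact ⟨Finset.mem_univ _, hrc b hb1⟩
      have := Finset.sum_le_sum_of_subset_of_nonneg
        (f := fun d => (if rep Γ d = d then (1 : ℤ) else 0)) hsub (fun d _ _ => hr d)
      rw [Finset.sum_pair hne] at this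
      simp only [rep_rep, if_true] at this
      linarith
    have e5 : 0 ≤ ∑ d ∈ univ.filter (fun d => Γ.cell a d),
        (if Γ.lab d = none then 0 else F.g d) := Finset.sum_nonneg (fun d _ => hg d)
    linarith

theorem sum_wt [Finite V] [Finite X] [Fintype D] (h : Γ.Good) (F : Γ.FanData)
    (hn : 3 ≤ Nat.card V) :
    40 * (Nat.card (Quotient Γ.cell) : ℤ) ≤ ∑ d, wt Γ F d := by
  have : Fintype (Quotient Γ.cell) := Fintype.ofFinite _
  rw [← Finset.sum_fiberwise (univ : Finset D) (fun d => Quotient.mk Γ.cell d) (wt Γ F)]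
  rw [Nat.card_eq_fintype_card, ← Finset.card_univ]
  have := Finset.card_nsmul_le_sum (univ : Finset (Quotient Γ.cell))
    (fun K => ∑ d ∈ univ.filter (fun d => Quotient.mk Γ.cell d = K), wt Γ F d) 40 (by
      intro K _
      induction K using Quotient.inductionOn with
      | _ a =>
        have e1 : univ.filter (fun d => Quotient.mk Γ.cell d = Quotient.mk Γ.cell a) =
            univ.filter (fun d => Γ.cell a d) := by
          ext d
          simp only [Finset.mem_filter, Finset.mem_univ, true_and]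
          rw [Quotient.eq]
          exact ⟨fun hd => Γ.cell.symm hd, fun hd => Γ.cell.symm hd⟩
        show 40 ≤ ∑ d ∈ univ.filter (fun d => Quotient.mk Γ.cell d = Quotient.mk Γ.cell a), wt Γ F d
        rw [e1]
        exact cell_wt h F hn a)
  rw [nsmul_eq_mul, mul_comm] at this
  exact this

theorem edge_bound [Fintype V] [Fintype E] [Finite X] [Finite D] (h : Γ.Good)
    (hn : 3 ≤ Fintype.card V) : Fintype.card E + 10 ≤ 5 * Fintype.card V := by
  have : Fintype X := Fintype.ofFinite X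
  have : Fintype D := Fintype.ofFinite D
  obtain ⟨F⟩ := h.exists_fan
  have hn' : 3 ≤ Nat.card V := by rw [Nat.card_eq_fintype_card]; exact hn
  have h1 := sum_wt h F hn'
  have h2 := sum_tau h F
  have h3 := sum_near h F
  have h4 := card_isX (Γ := Γ)
  have h5 := card_edges h
  have h6 := card_rep (Γ := Γ)
  have h7 := Γ.euler
  -- the sum of the weights
  have tau0 : ∀ d, Γ.lab d = none → F.tau d = 0 := by
    intro d hd
    have := F.tau_rev h d
    rw [(Γ.stub d hd).1] at this
    linarith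
  have near0 : ∀ d, Γ.lab d = none → F.near d = 0 := by
    intro d hd
    unfold FanData.near
    rw [if_neg (Γ.not_isX.mpr (Γ.stub d hd).2.2)]
  have e1 : ∀ d, wt Γ F d = 4 * (if Γ.lab d ≠ none then 1 else 0) +
      4 * (if Γ.lab d ≠ none ∧ ¬ Γ.IsX d then 1 else 0) + 4 * F.near d - F.tau d +
      20 * (if rep Γ d = d then 1 else 0) := by
    intro d
    unfold wt FanData.g
    by_cases hl : Γ.lab d = none
    · have g1 : ¬ (Γ.lab d ≠ none) := fun hh => hh hl
      have g2 : ¬ (Γ.lab d ≠ none ∧ ¬ Γ.IsX d) := fun hh => hh.1 hl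
      rw [if_pos hl, if_neg g1, if_neg g2, tau0 d hl, near0 d hl]
      ring
    · have g1 : Γ.lab d ≠ none := hl
      rw [if_neg hl, if_pos g1]
      by_cases hX : Γ.IsX d
      · have g3 : FanData.vx Γ d = 0 := by unfold FanData.vx; rw [if_pos hX]
        have g2 : ¬ (Γ.lab d ≠ none ∧ ¬ Γ.IsX d) := fun hh => hh.2 hX
        rw [g3, if_neg g2]; ring
      · have g3 : FanData.vx Γ d = 1 := by unfold FanData.vx; rw [if_neg hX]
        have g2 : Γ.lab d ≠ none ∧ ¬ Γ.IsX d := ⟨hl, hX⟩
        rw [g3, if_pos g2]; ring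
  have e2 : ∑ d, wt Γ F d = 4 * ((univ.filter (fun d : D => Γ.lab d ≠ none)).card : ℤ) +
      4 * ((univ.filter (fun d : D => Γ.lab d ≠ none ∧ ¬ Γ.IsX d)).card : ℤ) +
      ((univ.filter (fun d : D => Γ.IsX d)).card : ℤ) +
      20 * ((univ.filter (fun d : D => rep Γ d = d)).card : ℤ) := by
    rw [Finset.sum_congr rfl (fun d _ => e1 d)]
    rw [Finset.sum_add_distrib, Finset.sum_sub_distrib, Finset.sum_add_distrib,
      Finset.sum_add_distrib, ← Finset.mul_sum, ← Finset.mul_sum, ← Finset.mul_sum,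
      ← Finset.mul_sum, h2, h3]
    rw [Finset.sum_boole, Finset.sum_boole, Finset.sum_boole, Finset.sum_boole]
    ring
  have e3 : (univ.filter (fun d : D => Γ.lab d ≠ none)).card =
      (univ.filter (fun d : D => Γ.lab d ≠ none ∧ ¬ Γ.IsX d)).card +
      (univ.filter (fun d : D => Γ.IsX d)).card := by
    rw [← Finset.card_union_of_disjoint]
    · congr 1
      ext d
      simp only [Finset.mem_filter, Finset.mem_univ, true_and, Finset.mem_union]
      constructor
      · intro hd
        by_cases hX : Γ.IsX d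
        · exact Or.inr hX
        · exact Or.inl ⟨hd, hX⟩
      · rintro (hd | hd)
        · exact hd.1
        · obtain ⟨e, he⟩ := Γ.lab_isX hd
          rw [he]; exact Option.some_ne_none _
    · rw [Finset.disjoint_left]
      intro d hd hd'
      rw [Finset.mem_filter] at hd hd'
      exact hd.2.2 hd'.2
  have e4 : Nat.card {d // Γ.lab d ≠ none} = (univ.filter (fun d : D => Γ.lab d ≠ none)).card := by
    rw [Nat.card_eq_fintype_card, Fintype.card_subtype]
  rw [e4, Nat.card_eq_fintype_card (α := V), Nat.card_eq_fintype_card (α := X)] at h7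
  rw [e2] at h1
  have h6' : (univ.filter (fun d : D => rep Γ d = d)).card ≤
      Nat.card (Quotient (SameCycle.setoid (Γ.rot⁻¹ * Γ.rev))) := h6
  zify at h4 h5 h6' h7 e3 ⊢
  linarith

end Drawing

theorem FanPlanarNonHomotopic.card_le {V E : Type} [Fintype V] [Fintype E] {G : E → Sym2 V}
    (h : FanPlanarNonHomotopic G) (hn : 3 ≤ Fintype.card V) :
    Fintype.card E + 10 ≤ 5 * Fintype.card V := by
  obtain ⟨h0, X, D, hX, hD, Γ, h1, h2, h3⟩ := h
  exact Drawing.edge_bound (Γ := Γ) ⟨h0, h1, h2, h3⟩ hn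

end Pool.Agent.Helper19.Fan
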