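import Mathlib

set_option autoImplicit false

/-!
# Drawings of multigraphs, recorded by their planarization

A multigraph with vertex set `V` and edge set `E` is a function `G : E → Sym2 V` giving the
endpoints of every edge.  A drawing of it on the sphere is recorded by its planarization: the
points where something happens are the vertices (`V`) and the crossing points (`X`), and the edges
are cut by the crossing points into segments.  A dart (`D`) is a segment with a direction.  The
rotation system (`rev`, `rot`) determines the boundary walks of the cells; since the planarization
may be disconnected, a cell may have several boundary walks, so the relation `cell` is part of the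
data.  An isolated vertex is recorded by one unlabelled dart (a stub), which has no other purpose
than to say in which cell the vertex lies.
-/

namespace Pool.Agent.Helper19.Fan

open Equiv.Perm

/-- `Leads rev rot org d v`: following the edge containing the dart `d` in the direction of `d`,
going straight through all crossing points, one arrives at the vertex `v`. -/
inductive Leads {V X D : Type} (rev rot : Equiv.Perm D) (org : D → V ⊕ X) : D → V → Prop
  | stop {d : D} {v : V} : org (rev d) = Sum.inl v → Leads rev rot org d v
  | cross {d : D} {x : X} {v : V} : org (rev d) = Sum.inr x →
      Leads rev rot org (rot (rot (rev d))) v → Leads rev rot org d v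

/-- A drawing on the sphere of the multigraph `G`, recorded by its planarization. -/
structure Drawing {V E : Type} (G : E → Sym2 V) (X D : Type) where
  /-- the same segment in the opposite direction -/
  rev : Equiv.Perm D
  /-- the next dart counterclockwise around the starting point -/
  rot : Equiv.Perm D
  /-- the starting point: a vertex or a crossing point -/
  org : D → V ⊕ X
  /-- the edge containing the dart; `none` for the stub of an isolated vertex -/
  lab : D → Option E
  /-- two darts are related if they have the same cell on their left -/
  cell : Setoid D
  rev_rev : ∀ d, rev (rev d) = d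
  rev_ne : ∀ d e, lab d = some e → rev d ≠ d
  /-- a stub is a single dart at an isolated vertex -/
  stub : ∀ d, lab d = none → rev d = d ∧ rot d = d ∧ ∃ v, org d = Sum.inl v
  /-- the darts starting at a point form one cycle of the rotation -/
  org_eq_iff : ∀ a b, org a = org b ↔ rot.SameCycle a b
  org_surj : Function.Surjective org
  /-- exactly four darts start at a crossing point -/
  crossing_four : ∀ d x, org d = Sum.inr x →
    rot (rot (rot (rot d))) = d ∧ rot (rot d) ≠ d
  /-- the cycles of `rot⁻¹ * rev` are the boundary walks of the cells; the cell is on the left -/
  cell_walk : ∀ d, cell d ((rot⁻¹ * rev) d)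
  /-- the surface is connected -/
  connected : ∀ a b, Relation.ReflTransGen (fun c d => d = rev c ∨ d = rot c ∨ cell c d) a b
  /-- Euler's formula for the sphere: a cell with `k` boundary walks is a sphere with `k` holes and
  has Euler characteristic `2 - k`, so the number of points minus the number of segments, plus
  twice the number of cells, minus the number of boundary walks, is `2` -/
  euler : 2 * (Nat.card V + Nat.card X) + 4 * Nat.card (Quotient cell) =
    Nat.card {d // lab d ≠ none} + 2 * Nat.card (Quotient (SameCycle.setoid (rot⁻¹ * rev))) + 4
  lab_rev : ∀ d, lab (rev d) = lab d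
  /-- edges go straight through crossing points -/
  lab_straight : ∀ d x, org d = Sum.inr x → lab (rot (rot d)) = lab d
  /-- every dart leads to a vertex -/
  leads : ∀ d, ∃ v, Leads rev rot org d v
  /-- every edge is drawn -/
  drawn : ∀ e, ∃ d, lab d = some e
  /-- an edge joins its two endpoints -/
  ends : ∀ d e u v, lab d = some e → Leads rev rot org d u → Leads rev rot org (rev d) v →
    G e = s(u, v)
  /-- an edge is drawn as a single arc: it leaves each endpoint only once -/
  single : ∀ d d' e v, lab d = some e → lab d' = some e → org d = Sum.inl v →
    org d' = Sum.inl v → d = d'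

namespace Drawing

variable {V E : Type} {G : E → Sym2 V} {X D : Type} (Γ : Drawing G X D)

/-- The drawing is simple: edges that cross have no common endpoint (so no edge crosses itself),
and two edges cross at most once. -/
def Simple : Prop :=
  (∀ d x e f, Γ.org d = Sum.inr x → Γ.lab d = some e → Γ.lab (Γ.rot d) = some f →
    ∀ v, ¬ (v ∈ G e ∧ v ∈ G f)) ∧
  (∀ d d' x x', Γ.org d = Sum.inr x → Γ.org d' = Sum.inr x' → Γ.lab d = Γ.lab d' →
    Γ.lab (Γ.rot d) = Γ.lab (Γ.rot d') → x = x')

/-- The drawing is fan-planar: for every edge `e` there are a vertex `w` and an endpoint `u` of
`e` such that, when `e` is followed towards `u`, every edge crossing `e`, followed to the left from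
the crossing, leads to `w`.  So all edges crossing `e` have the common endpoint `w`, and `w` lies
on the same side of `e` for all of them. -/
def FanPlanar : Prop :=
  ∀ e, ∃ w u, u ∈ G e ∧ ∀ d x, Γ.lab d = some e → Γ.org (Γ.rev d) = Sum.inr x →
    Leads Γ.rev Γ.rot Γ.org d u → Leads Γ.rev Γ.rot Γ.org (Γ.rot⁻¹ (Γ.rev d)) w

/-- No two parallel edges `e ≠ f` are homotopic: each region of the closed curve formed by `e` and
`f` contains a vertex.  A region is a class of cells: one may pass from a cell to another one
across any segment that does not belong to `e` or `f`. -/
def NoHomotopicParallel : Prop :=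
  ∀ e f, e ≠ f → G e = G f → ∀ d, ∃ d' v,
    Relation.ReflTransGen (fun a b => Γ.cell a b ∨
      (Γ.lab a ≠ some e ∧ Γ.lab a ≠ some f ∧ b = Γ.rev a)) d d' ∧
    Γ.org d' = Sum.inl v ∧ v ∉ G e

end Drawing

/-- `G` is a (loopless) fan-planar multigraph without homotopic parallel edges. -/
def FanPlanarNonHomotopic {V E : Type} (G : E → Sym2 V) : Prop :=
  (∀ e, ¬ (G e).IsDiag) ∧
  ∃ (X D : Type) (_ : Finite X) (_ : Finite D) (Γ : Drawing G X D),
    Γ.Simple ∧ Γ.FanPlanar ∧ Γ.NoHomotopicParallel

end Pool.Agent.Helper19.Fan
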