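import Pool.Agent.Helper19.Fan.Four
import Pool.Agent.Helper19.Fan.Low.FamA4
import Pool.Agent.Helper19.Fan.Low.Small

set_option autoImplicit false

/-!
# The exact maximum
-/

namespace Pool.Agent.Helper19.Fan

open Equiv.Perm Finset

open scoped Classical

variable {V E : Type} {G : E → Sym2 V} {X D : Type}

namespace Drawing

variable {Γ : Drawing G X D}

theorem Walk.shift {x : ℕ → D} {k : ℕ} (W : Walk Γ x k) : Walk Γ (fun i => x (i + 1)) k where
  step := fun i => W.step (i + 1)
  per := by
    intro i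
    have := W.per (i + 1)
    rwa [add_right_comm] at this
  pos := W.pos
  inj := by
    intro i j hi hj hij
    by_contra hne
    have h1 : (i + 1) % k ≠ (j + 1) % k := by
      intro hh
      apply hne
      have h2 := Nat.ModEq.add_right_cancel' 1 hh
      have h3 := Nat.mod_eq_of_lt hi
      have h4 := Nat.mod_eq_of_lt hj
      unfold Nat.ModEq at h2
      omega
    exact W.ne_of_mod h1 hij

theorem four_cell [Fintype V] [Finite X] [Fintype D] (h : Γ.Good) (hn : Fintype.card V = 4)
    (a : D) (hs : Γ.Solo a) : (8 : ℤ) ≤ ∑ d ∈ univ.filter (fun d => Γ.phi.SameCycle a d),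
      (if Γ.lab d = none then 0 else 2 + FanData.vx Γ d) := by
  have hn3 : 3 ≤ Nat.card V := by rw [Nat.card_eq_fintype_card]; omega
  obtain ⟨k, W⟩ := exists_walk (Γ := Γ) a
  rw [sum_class W]
  have hsolo : ∀ i, Γ.Solo (Γ.phi^[i] a) := by
    intro i
    have := W.cyc 0 i
    exact hs.of_cell (Γ.cell_of_sameCycle (by simpa using this))
  have e1 : ∀ i, (if Γ.lab (Γ.phi^[i] a) = none then (0 : ℤ) else
      2 + FanData.vx Γ (Γ.phi^[i] a)) = 2 + FanData.vx Γ (Γ.phi^[i] a) := fun i =>
    if_neg (no_stub h hn3 (hsolo i))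
  rw [Finset.sum_congr rfl (fun i _ => e1 i)]
  set x : ℕ → D := fun i => Γ.phi^[i] a with hx
  change 8 ≤ ∑ i ∈ range k, (2 + FanData.vx Γ (x i))
  have hv : ∀ i, FanData.vx Γ (x i) = 0 ∨ FanData.vx Γ (x i) = 1 := fun i => FanData.vx01 _
  have hXX : ∀ i, FanData.vx Γ (x i) + FanData.vx Γ (x (i + 1)) ≥ 1 := by
    intro i
    by_contra hh
    have h1 : FanData.vx Γ (x i) = 0 := by
      rcases hv i with h1 | h1
      · exact h1
      · rcases hv (i + 1) with h2 | h2 <;> omega
    have h2 : FanData.vx Γ (x (i + 1)) = 0 := by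
      rcases hv (i + 1) with h2 | h2
      · exact h2
      · omega
    have hX : ∀ j, FanData.vx Γ (x j) = 0 → Γ.IsX (x j) := by
      intro j hj
      by_contra hc
      rw [Walk.vx_one hc] at hj
      exact absurd hj (by norm_num)
    refine h.noXX hn (hX i h1) ?_
    rw [← W.step]
    exact hX _ h2
  rcases lt_or_ge k 4 with hk | hk
  · have hpos := W.pos
    interval_cases k
    · exact (W.not1V h hn3 hs).elim
    · exfalso
      have h01 := hXX 0
      by_cases h0 : Γ.IsX (x 0)
      · have h1 : ¬ Γ.IsX (x 1) := by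
          intro h1
          rw [Walk.vx_zero h0, Walk.vx_zero h1] at h01
          exact absurd h01 (by norm_num)
        have hp : x (1 + 1) = x 0 := W.per 0
        refine (Walk.not2XV W.shift h h1 ?_)
        show Γ.IsX (x (1 + 1))
        rw [hp]; exact h0
      · by_cases h1 : Γ.IsX (x 1)
        · exact W.not2XV h h0 h1
        · exact W.not2VV h hn3 hs h0 h1
    · have p3 : x 3 = x 0 := W.per 0
      have a0 := hXX 0
      have a1 := hXX 1
      have a2 := hXX 2
      norm_num at a0 a1 a2
      rw [p3] at a2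
      have b0 := hv 0; have b1 := hv 1; have b2 := hv 2
      simp only [Finset.sum_range_succ, Finset.sum_range_zero]
      omega
  · have h1 : ∑ i ∈ range k, (2 : ℤ) ≤ ∑ i ∈ range k, (2 + FanData.vx Γ (x i)) := by
      apply Finset.sum_le_sum
      intro i _
      rcases hv i with h2 | h2 <;> omega
    rw [Finset.sum_const, Finset.card_range, nsmul_eq_mul] at h1
    have hk' : (4 : ℤ) ≤ k := by exact_mod_cast hk
    linarith

theorem four [Fintype V] [Fintype E] [Finite X] [Finite D] (h : Γ.Good)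
    (hn : Fintype.card V = 4) : Fintype.card E ≤ 8 := by
  have : Fintype X := Fintype.ofFinite X
  have : Fintype D := Fintype.ofFinite D
  have h1 := sum_cells (Γ := Γ) (fun d => if Γ.lab d = none then 0 else 2 + FanData.vx Γ d)
    (by
      intro d
      split_ifs
      · exact le_rfl
      · rcases FanData.vx01 (Γ := Γ) d with h2 | h2 <;> rw [h2] <;> norm_num) 8 (by norm_num)
    (fun a hs => four_cell h hn a hs)
  have h4 := card_isX (Γ := Γ)
  have h5 := card_edges h
  have h7 := Γ.euler
  have e1 : ∀ d, (if Γ.lab d = none then (0 : ℤ) else 2 + FanData.vx Γ d) =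
      2 * (if Γ.lab d ≠ none then 1 else 0) + (if Γ.lab d ≠ none ∧ ¬ Γ.IsX d then 1 else 0) := by
    intro d
    by_cases hl : Γ.lab d = none
    · have g1 : ¬ (Γ.lab d ≠ none) := fun hh => hh hl
      have g2 : ¬ (Γ.lab d ≠ none ∧ ¬ Γ.IsX d) := fun hh => hh.1 hl
      rw [if_pos hl, if_neg g1, if_neg g2]
      ring
    · have g1 : Γ.lab d ≠ none := hl
      rw [if_neg hl, if_pos g1]
      by_cases hX : Γ.IsX d
      · have g2 : ¬ (Γ.lab d ≠ none ∧ ¬ Γ.IsX d) := fun hh => hh.2 hX
        rw [Walk.vx_zero hX, if_neg g2]; ring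
      · have g2 : Γ.lab d ≠ none ∧ ¬ Γ.IsX d := ⟨hl, hX⟩
        rw [Walk.vx_one hX, if_pos g2]; ring
  have e2 : ∑ d, (if Γ.lab d = none then (0 : ℤ) else 2 + FanData.vx Γ d) =
      2 * ((univ.filter (fun d : D => Γ.lab d ≠ none)).card : ℤ) +
      ((univ.filter (fun d : D => Γ.lab d ≠ none ∧ ¬ Γ.IsX d)).card : ℤ) := by
    rw [Finset.sum_congr rfl (fun d _ => e1 d)]
    rw [Finset.sum_add_distrib, ← Finset.mul_sum, Finset.sum_boole, Finset.sum_boole]
  have e3 : (univ.filter (fun d : D => Γ.lab d ≠ none)).card =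
      (univ.filter (fun d : D => Γ.lab d ≠ none ∧ ¬ Γ.IsX d)).card +
      (univ.filter (fun d : D => Γ.IsX d)).card := by
    rw [← Finset.card_union_of_disjoint]
    · congr 1
      ext d
      simp only [Finset.mem_filter, Finset.mem_univ, true_and, Finset.mem_union]
      constructor
      · intro hd
        by_cases hX : Γ.IsX d
        · exact Or.inr hX
        · exact Or.inl ⟨hd, hX⟩
      · rintro (hd | hd)
        · exact hd.1
        · obtain ⟨e, he⟩ := Γ.lab_isX hd
          rw [he]; exact Option.some_ne_none _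
    · rw [Finset.disjoint_left]
      intro d hd hd'
      rw [Finset.mem_filter] at hd hd'
      exact hd.2.2 hd'.2
  have e4 : Nat.card {d // Γ.lab d ≠ none} = (univ.filter (fun d : D => Γ.lab d ≠ none)).card := by
    rw [Nat.card_eq_fintype_card, Fintype.card_subtype]
  rw [e4, Nat.card_eq_fintype_card (α := V), Nat.card_eq_fintype_card (α := X), hn] at h7
  rw [e2] at h1
  have h8 : 2 * 8 * (Nat.card (Quotient Γ.cell) : ℤ) ≤
      2 * ((univ.filter (fun d : D => Γ.lab d ≠ none)).card : ℤ) +
      ((univ.filter (fun d : D => Γ.lab d ≠ none ∧ ¬ Γ.IsX d)).card : ℤ) +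
      8 * (Nat.card (Quotient (SameCycle.setoid (Γ.rot⁻¹ * Γ.rev))) : ℤ) := h1
  zify at h4 h5 h7 e3 ⊢
  linarith

end Drawing

theorem FanPlanarNonHomotopic.card_le_three {V E : Type} [Fintype V] [Fintype E]
    {G : E → Sym2 V} (h : FanPlanarNonHomotopic G) (hn : Fintype.card V = 3) :
    Fintype.card E ≤ 3 := by
  obtain ⟨h0, X, D, hX, hD, Γ, h1, h2, h3⟩ := h
  exact Drawing.three (Γ := Γ) ⟨h0, h1, h2, h3⟩ hn

theorem FanPlanarNonHomotopic.card_le_four {V E : Type} [Fintype V] [Fintype E]
    {G : E → Sym2 V} (h : FanPlanarNonHomotopic G) (hn : Fintype.card V = 4) :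
    Fintype.card E ≤ 8 := by
  obtain ⟨h0, X, D, hX, hD, Γ, h1, h2, h3⟩ := h
  exact Drawing.four (Γ := Γ) ⟨h0, h1, h2, h3⟩ hn

/-- The numbers of edges of `n`-vertex fan-planar multigraphs without homotopic parallel edges. -/
def edgeCounts (n : ℕ) : Set ℕ :=
  {m | ∃ (V E : Type) (_ : Fintype V) (_ : Fintype E) (G : E → Sym2 V),
    Fintype.card V = n ∧ Fintype.card E = m ∧ FanPlanarNonHomotopic G}

theorem isGreatest_edgeCounts (n : ℕ) (hn : 3 ≤ n) :
    IsGreatest (edgeCounts n) (if n = 3 then 3 else if n = 4 then 8 else 5 * n - 10) := by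
  constructor
  · rcases eq_or_ne n 3 with rfl | h3
    · rw [if_pos rfl]
      exact ⟨_, _, inferInstance, inferInstance, _, Fintype.card_fin _, Fintype.card_fin _,
        Low.CC.fanPlanarNonHomotopic Low.ok_c3⟩
    · rw [if_neg h3]
      rcases eq_or_ne n 4 with rfl | h4
      · rw [if_pos rfl]
        exact ⟨_, _, inferInstance, inferInstance, _, Fintype.card_fin _, Fintype.card_fin _,
          Low.CC.fanPlanarNonHomotopic Low.ok_c4⟩
      · rw [if_neg h4]
        rcases eq_or_ne n 5 with rfl | h5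
        · exact ⟨_, _, inferInstance, inferInstance, _, Fintype.card_fin _, Fintype.card_fin _,
            Low.CC.fanPlanarNonHomotopic Low.ok_c5⟩
        · exact Low.FamA.exists_six n (by omega)
  · rintro m ⟨V, E, hV, hE, G, h1, h2, h⟩
    split_ifs with h3 h4
    · rw [← h2]; exact h.card_le_three (h1.trans h3)
    · rw [← h2]; exact h.card_le_four (h1.trans h4)
    · have := h.card_le (by rw [h1]; exact hn)
      rw [h1, h2] at this
      omega

end Pool.Agent.Helper19.Fan
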