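import Pool.Agent.Helper19.Fan.Count

set_option autoImplicit false

/-!
# Three and four vertices
-/

namespace Pool.Agent.Helper19.Fan

open Equiv.Perm Finset

open scoped Classical

variable {V E : Type} {G : E → Sym2 V} {X D : Type}

namespace Drawing

variable {Γ : Drawing G X D}

/-- Both sides of the closed curve formed by two parallel edges. -/
theorem Good.exists_sides [Finite V] [Finite X] [Finite D] (h : Γ.Good) {e f : E} (hef : e ≠ f)
    (hG : G e = G f) : ∃ σ : D → ZMod 2, (∀ a b, Γ.cell a b → σ a = σ b) ∧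
      (∀ d, Γ.lab d ≠ some e → Γ.lab d ≠ some f → σ (Γ.rev d) = σ d) ∧
      (∀ d, (Γ.lab d = some e ∨ Γ.lab d = some f) → σ (Γ.rev d) = σ d + 1) ∧
      (∀ s : ZMod 2, ∃ d v, Γ.org d = Sum.inl v ∧ v ∉ G e ∧ σ d = s) := by
  have : Fintype V := Fintype.ofFinite V
  have : Fintype X := Fintype.ofFinite X
  have : Fintype D := Fintype.ofFinite D
  set c : D → ZMod 2 := fun d => (if Γ.lab d = some e then 1 else 0) +
    (if Γ.lab d = some f then 1 else 0) with hcdef
  have hcrev : ∀ d, c (Γ.rev d) = c d := by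
    intro d; simp only [hcdef, Γ.lab_rev]
  have hs : ∀ p, ∑ d ∈ univ.filter (fun d => Γ.org d = p), c d = 0 := by
    intro p
    rcases p with v | x
    · simp only [hcdef, Finset.sum_add_distrib]
      rw [h.sum_label e v, h.sum_label f v, ← hG]
      exact add_self_two _
    · apply Finset.sum_involution (fun d _ => Γ.rot (Γ.rot d))
      · intro d hd
        rw [Finset.mem_filter] at hd
        have : c (Γ.rot (Γ.rot d)) = c d := by
          simp only [hcdef, Γ.lab_rot2 ⟨x, hd.2⟩]
        rw [this]; exact add_self_two _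
      · intro d hd _
        rw [Finset.mem_filter] at hd
        exact Γ.rot2_ne ⟨x, hd.2⟩
      · intro d hd
        rw [Finset.mem_filter] at hd ⊢
        exact ⟨Finset.mem_univ _, by rw [org_rot, org_rot]; exact hd.2⟩
      · intro d hd
        rw [Finset.mem_filter] at hd
        exact Γ.rot4 ⟨x, hd.2⟩
  obtain ⟨σ, hσ, hσc⟩ := exists_side Γ.rev Γ.rot Γ.org Γ.cell Γ.rev_rev Γ.org_rot Γ.org_surj
    Γ.cell_walk Γ.connected (by
      have h1 := Γ.euler
      have h2 : Nat.card {d // Γ.lab d ≠ none} = Fintype.card {d // ¬ Γ.rev d = d} := by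
        rw [← Nat.card_eq_fintype_card]
        apply Nat.card_congr
        apply Equiv.subtypeEquivRight
        intro d
        rw [Γ.rev_eq_iff]
      rw [h2, Nat.card_eq_fintype_card (α := V), Nat.card_eq_fintype_card (α := X)] at h1
      rw [Fintype.card_sum]
      exact h1) c hcrev (by
      intro d hd
      have h1 := Γ.rev_eq_iff.mp hd
      simp only [hcdef, h1]
      simp) hs
  have hc0 : ∀ d, Γ.lab d ≠ some e → Γ.lab d ≠ some f → c d = 0 := by
    intro d h1 h2
    simp only [hcdef, if_neg h1, if_neg h2, add_zero]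
  have hc1 : ∀ d, (Γ.lab d = some e ∨ Γ.lab d = some f) → c d = 1 := by
    rintro d (h1 | h1)
    · have h2 : Γ.lab d ≠ some f := by
        rw [h1]; intro hh; exact hef (Option.some.inj hh)
      simp only [hcdef, if_pos h1, if_neg h2, add_zero]
    · have h2 : Γ.lab d ≠ some e := by
        rw [h1]; intro hh; exact hef (Option.some.inj hh).symm
      simp only [hcdef, if_pos h1, if_neg h2, zero_add]
  refine ⟨σ, hσ, ?_, ?_, ?_⟩
  · intro d h1 h2
    rw [hσc, hc0 d h1 h2, add_zero]
  · intro d h1
    rw [hσc, hc1 d h1]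
  · intro s
    obtain ⟨a, ha⟩ := Γ.drawn e
    have hex : ∃ d, σ d = s := by
      have h1 : σ (Γ.rev a) = σ a + 1 := by rw [hσc, hc1 a (Or.inl ha)]
      by_cases h2 : σ a = s
      · exact ⟨a, h2⟩
      · refine ⟨Γ.rev a, ?_⟩
        rw [h1]
        revert h2
        generalize σ a = x
        revert x s
        decide
    obtain ⟨d, hd⟩ := hex
    obtain ⟨d', v, hreach, h1, h2⟩ := h.nonhom e f hef hG d
    refine ⟨d', v, h1, h2, ?_⟩
    rw [← hd]
    clear h1 h2
    induction hreach with
    | refl => rfl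
    | tail _ hstep ih =>
      rcases hstep with hstep | ⟨n1, n2, rfl⟩
      · rw [← hσ _ _ hstep, ih]
      · rw [hσc, hc0 _ n1 n2, add_zero, ih]

/-- The side is constant around a vertex outside the curve. -/
theorem side_vertex [Finite D] {σ : D → ZMod 2} {e f : E}
    (hG : G e = G f) (hσ : ∀ a b, Γ.cell a b → σ a = σ b)
    (h0 : ∀ d, Γ.lab d ≠ some e → Γ.lab d ≠ some f → σ (Γ.rev d) = σ d)
    {d d' : D} {v : V} (hd : Γ.org d = Sum.inl v) (hd' : Γ.org d' = Sum.inl v) (hv : v ∉ G e) :
    σ d = σ d' := by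
  have hsc : Γ.rot.SameCycle d d' := by rw [← Γ.org_eq_iff, hd, hd']
  obtain ⟨n, rfl⟩ := hsc.exists_nat_pow_eq
  clear hsc hd'
  induction n with
  | zero => rfl
  | succ n ih =>
    have horg : Γ.org ((Γ.rot ^ n) d) = Sum.inl v := by
      clear ih
      induction n with
      | zero => exact hd
      | succ n ih => rw [pow_succ', Equiv.Perm.mul_apply, org_rot, ih]
    rw [ih, pow_succ', Equiv.Perm.mul_apply]
    set r := Γ.rot ((Γ.rot ^ n) d) with hr
    have horg' : Γ.org r = Sum.inl v := by rw [hr, org_rot, horg]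
    have hnl : ∀ g, G g = G e → Γ.lab r ≠ some g := by
      intro g hg hh
      apply hv
      have := Γ.tgt_rev_mem hh
      rwa [Γ.tgt_rev_of_org horg', hg] at this
    have h1 : σ (Γ.rev r) = σ r := h0 r (hnl e rfl) (hnl f hG.symm)
    have h2 : Γ.phi (Γ.rev r) = (Γ.rot ^ n) d := by
      rw [phi_apply, Γ.rev_rev, hr]; simp
    rw [← h1, hσ _ _ (Γ.cell_phi (Γ.rev r)), h2]

theorem card_of_isX [Fintype V] (h : Γ.Good) {c : D} (hc : Γ.IsX c) :
    4 ≤ Fintype.card V := by
  obtain ⟨h1, h2, h3, h4⟩ := h.cross hc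
  have h5 := h.tgt_ne_isX hc
  have h6 := h.tgt_ne_isX (Γ.isX_rot.mpr hc)
  have hc4 : ({Γ.tgt c, Γ.tgt (Γ.rev c), Γ.tgt (Γ.rot c), Γ.tgt (Γ.rev (Γ.rot c))} :
      Finset V).card = 4 := by
    rw [Finset.card_insert_of_notMem, Finset.card_insert_of_notMem, Finset.card_insert_of_notMem,
      Finset.card_singleton]
    · rw [Finset.mem_singleton]; exact h6
    · rw [Finset.mem_insert, Finset.mem_singleton, not_or]; exact ⟨h3, h4⟩
    · rw [Finset.mem_insert, Finset.mem_insert, Finset.mem_singleton, not_or, not_or]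
      exact ⟨h5, h1, h2⟩
  rw [← hc4]
  exact Finset.card_le_univ _

theorem three [Fintype V] [Fintype E] [Finite X] [Finite D] (h : Γ.Good)
    (hn : Fintype.card V = 3) : Fintype.card E ≤ 3 := by
  have hinj : Function.Injective (fun e => (⟨G e, h.loopless e⟩ : {z : Sym2 V // ¬ z.IsDiag})) := by
    intro e f hef
    by_contra hne
    have hG : G e = G f := congrArg Subtype.val hef
    obtain ⟨σ, hσ, h0, -, hs⟩ := h.exists_sides hne hG
    obtain ⟨d, v, h1, h2, h3⟩ := hs 0
    obtain ⟨d', v', h1', h2', h3'⟩ := hs 1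
    obtain ⟨a, ha⟩ := Γ.drawn e
    have hvv : v = v' := by
      by_contra hvv
      have e1 := Γ.mem_iff ha v
      have e2 := Γ.mem_iff ha v'
      have e3 := h.tgt_ne ha
      rw [e1, not_or] at h2
      rw [e2, not_or] at h2'
      have hc4 : ({v, v', Γ.tgt a, Γ.tgt (Γ.rev a)} : Finset V).card = 4 := by
        rw [Finset.card_insert_of_notMem, Finset.card_insert_of_notMem,
          Finset.card_insert_of_notMem, Finset.card_singleton]
        · rw [Finset.mem_singleton]; exact e3
        · rw [Finset.mem_insert, Finset.mem_singleton, not_or]; exact h2'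
        · rw [Finset.mem_insert, Finset.mem_insert, Finset.mem_singleton, not_or, not_or]
          exact ⟨hvv, h2⟩
      have := Finset.card_le_univ ({v, v', Γ.tgt a, Γ.tgt (Γ.rev a)} : Finset V)
      omega
    subst hvv
    have := side_vertex hG hσ h0 h1 h1' h2
    rw [h3, h3'] at this
    exact absurd this (by decide)
  have := Fintype.card_le_of_injective _ hinj
  rw [Sym2.card_subtype_not_diag, hn] at this
  exact this

end Drawing

end Pool.Agent.Helper19.Fan
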