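import Pool.Agent.Helper19.Fan.Few

set_option autoImplicit false

/-!
# Four vertices: no edge is crossed twice
-/

namespace Pool.Agent.Helper19.Fan

open Equiv.Perm Finset

open scoped Classical

variable {V E : Type} {G : E → Sym2 V} {X D : Type}

namespace Drawing

variable {Γ : Drawing G X D}

/-- the next dart on the same edge -/
def nx (Γ : Drawing G X D) (d : D) : D := Γ.rot (Γ.rot (Γ.rev d))

theorem exists_rk (d : D) : ∃ n : ℕ, ¬ Γ.IsX (Γ.rev ((nx Γ)^[n] d)) := by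
  have key : ∀ d v, Leads Γ.rev Γ.rot Γ.org d v → ∃ n : ℕ, ¬ Γ.IsX (Γ.rev ((nx Γ)^[n] d)) := by
    intro d v hL
    induction hL with
    | @stop d v h => exact ⟨0, Γ.not_isX.mpr ⟨v, h⟩⟩
    | @cross d x v h1 h2 ih =>
      obtain ⟨n, hn⟩ := ih
      exact ⟨n + 1, by rw [Function.iterate_succ_apply]; exact hn⟩
  exact key d _ (Γ.leads_tgt d)

/-- the number of crossings ahead -/
noncomputable def rk (Γ : Drawing G X D) (d : D) : ℕ := Nat.find (exists_rk (Γ := Γ) d)

theorem rk_nx {d : D} (h : Γ.IsX (Γ.rev d)) : rk Γ (nx Γ d) < rk Γ d := by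
  have h1 := Nat.find_spec (exists_rk (Γ := Γ) d)
  have h2 : Nat.find (exists_rk (Γ := Γ) d) ≠ 0 := by
    intro h0
    rw [h0] at h1
    exact h1 h
  obtain ⟨m, hm⟩ := Nat.exists_eq_succ_of_ne_zero h2
  have h3 : rk Γ (nx Γ d) ≤ m := by
    apply Nat.find_min'
    rw [← Function.iterate_succ_apply, ← hm]
    exact h1
  unfold rk at h3 ⊢
  omega

theorem lab_nx {d : D} (h : Γ.IsX (Γ.rev d)) : Γ.lab (nx Γ d) = Γ.lab d := by
  unfold nx
  rw [Γ.lab_rot2 h, Γ.lab_rev]

theorem tgt_nx {d : D} (h : Γ.IsX (Γ.rev d)) : Γ.tgt (nx Γ d) = Γ.tgt d := by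
  unfold nx
  rw [Γ.tgt_rot2 h, Γ.rev_rev]

theorem phi_rev_phi {d : D} (h : Γ.IsX (Γ.phi d)) : Γ.phi (Γ.rev (Γ.phi d)) = nx Γ d := by
  unfold nx
  rw [phi_apply Γ (Γ.rev (Γ.phi d)), Γ.rev_rev, Γ.rot_inv_of_isX h, rot_phi]

theorem Good.follow [Finite D] (h : Γ.Good) {σ : D → ZMod 2} {g g' : E}
    (hσ : ∀ a b, Γ.cell a b → σ a = σ b)
    (h0 : ∀ d, Γ.lab d ≠ some g → Γ.lab d ≠ some g' → σ (Γ.rev d) = σ d)
    {a : D} (ha1 : Γ.IsX a) (ha2 : Γ.IsX (Γ.phi a))
    (hgg : (Γ.lab (Γ.rot a) = some g ∧ Γ.lab (Γ.phi a) = some g') ∨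
      (Γ.lab (Γ.rot a) = some g' ∧ Γ.lab (Γ.phi a) = some g)) :
    ∀ (n : ℕ) (d : D), rk Γ d = n → Γ.lab d = Γ.lab a → Γ.tgt d = Γ.tgt a → rk Γ d < rk Γ a →
      ∃ l, Γ.lab l = Γ.lab a ∧ Γ.org (Γ.rev l) = Sum.inl (Γ.tgt a) ∧ σ l = σ d := by
  intro n
  induction n using Nat.strong_induction_on with
  | _ n ih =>
    intro d hn hl ht hr
    by_cases hX : Γ.IsX (Γ.rev d)
    · have hXp : Γ.IsX (Γ.phi d) := Γ.isX_phi.mpr hX
      have hlt := rk_nx hX
      obtain ⟨l, l1, l2, l3⟩ := ih (rk Γ (nx Γ d)) (by omega) (nx Γ d) rfl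
        ((lab_nx hX).trans hl) ((tgt_nx hX).trans ht) (hlt.trans hr)
      refine ⟨l, l1, l2, l3.trans ?_⟩
      -- the edge crossed at the end of `d` is neither `g` nor `g'`
      have n1 : Γ.lab (Γ.phi d) ≠ Γ.lab (Γ.phi a) := by
        intro hh
        have := h.corner_unique hXp ha2 hl hh ht
        rw [this] at hr
        exact lt_irrefl _ hr
      have n2 : Γ.lab (Γ.phi d) ≠ Γ.lab (Γ.rot a) := by
        intro hh
        set b := Γ.rev (Γ.rot (Γ.rot a)) with hb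
        have b1 : Γ.phi b = Γ.rot a := by
          rw [hb, phi_apply, Γ.rev_rev]; simp
        have b2 : Γ.lab b = Γ.lab a := by rw [hb, Γ.lab_rev, Γ.lab_rot2 ha1]
        have b3 : Γ.tgt b = Γ.tgt a := Γ.tgt_rev_rot2 ha1
        have b4 : nx Γ b = a := by
          unfold nx
          rw [hb, Γ.rev_rev, Γ.rot4 ha1]
        have b5 : Γ.IsX (Γ.rev b) := by
          rw [hb, Γ.rev_rev]; exact Γ.isX_rot.mpr (Γ.isX_rot.mpr ha1)
        have := h.corner_unique hXp (by rw [b1]; exact Γ.isX_rot.mpr ha1) (hl.trans b2.symm)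
          (by rw [b1]; exact hh) (ht.trans b3.symm)
        have b6 := rk_nx b5
        rw [b4, ← this] at b6
        exact lt_irrefl _ (hr.trans b6)
      have e1 : σ (nx Γ d) = σ (Γ.rev (Γ.phi d)) := by
        rw [← phi_rev_phi hXp]
        exact (hσ _ _ (Γ.cell_phi _)).symm
      have e2 : σ (Γ.phi d) = σ d := (hσ _ _ (Γ.cell_phi d)).symm
      rw [e1, h0 _ ?_ ?_, e2]
      · rcases hgg with ⟨x1, x2⟩ | ⟨x1, x2⟩
        · rw [← x1]; exact n2
        · rw [← x2]; exact n1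
      · rcases hgg with ⟨x1, x2⟩ | ⟨x1, x2⟩
        · rw [← x2]; exact n1
        · rw [← x1]; exact n2
    · obtain ⟨v, hv⟩ := Γ.not_isX.mp hX
      refine ⟨d, hl, ?_, rfl⟩
      rw [← ht, Γ.tgt_of_org hv, hv]

theorem Good.follow' [Finite D] (h : Γ.Good) {σ : D → ZMod 2} {g g' : E}
    (hσ : ∀ a b, Γ.cell a b → σ a = σ b)
    (h0 : ∀ d, Γ.lab d ≠ some g → Γ.lab d ≠ some g' → σ (Γ.rev d) = σ d)
    (h1 : ∀ d, (Γ.lab d = some g ∨ Γ.lab d = some g') → σ (Γ.rev d) = σ d + 1)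
    {a : D} (ha1 : Γ.IsX a) (ha2 : Γ.IsX (Γ.phi a))
    (hgg : (Γ.lab (Γ.rot a) = some g ∧ Γ.lab (Γ.phi a) = some g') ∨
      (Γ.lab (Γ.rot a) = some g' ∧ Γ.lab (Γ.phi a) = some g)) :
      ∃ l, Γ.lab l = Γ.lab a ∧ Γ.org (Γ.rev l) = Sum.inl (Γ.tgt a) ∧ σ l = σ a + 1 := by
  have hX : Γ.IsX (Γ.rev a) := Γ.isX_phi.mp ha2
  obtain ⟨l, l1, l2, l3⟩ := h.follow hσ h0 ha1 ha2 hgg (rk Γ (nx Γ a)) (nx Γ a) rfl (lab_nx hX)
    (tgt_nx hX) (rk_nx hX)
  refine ⟨l, l1, l2, l3.trans ?_⟩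
  have e1 : σ (nx Γ a) = σ (Γ.rev (Γ.phi a)) := by
    rw [← phi_rev_phi ha2]
    exact (hσ _ _ (Γ.cell_phi _)).symm
  have e2 : σ (Γ.phi a) = σ a := (hσ _ _ (Γ.cell_phi a)).symm
  rw [e1, h1 _ ?_, e2]
  rcases hgg with ⟨-, x2⟩ | ⟨-, x2⟩
  · exact Or.inr x2
  · exact Or.inl x2

theorem Good.noXX [Fintype V] [Finite X] [Finite D] (h : Γ.Good) (hn : Fintype.card V = 4)
    {a : D} (ha1 : Γ.IsX a) (ha2 : Γ.IsX (Γ.phi a)) : False := by
  have hX : Γ.IsX (Γ.rev a) := Γ.isX_phi.mp ha2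
  obtain ⟨g, hg⟩ := Γ.lab_isX (Γ.isX_rot.mpr ha1)
  obtain ⟨g', hg'⟩ := Γ.lab_isX ha2
  obtain ⟨c1, c2, c3, c4⟩ := h.cross ha1
  have c5 := h.tgt_ne_isX ha1
  have c6 := h.tgt_ne_isX (Γ.isX_rot.mpr ha1)
  obtain ⟨k1, k2, k3, k4⟩ := h.corner ha2
  have k5 := h.tgt_ne_isX ha2
  have hall : ∀ v : V, v = Γ.tgt a ∨ v = Γ.tgt (Γ.rev a) ∨ v = Γ.tgt (Γ.rot a) ∨
      v = Γ.tgt (Γ.rev (Γ.rot a)) := by
    intro v
    by_contra hv
    rw [not_or, not_or, not_or] at hv
    have hc5 : ({v, Γ.tgt a, Γ.tgt (Γ.rev a), Γ.tgt (Γ.rot a), Γ.tgt (Γ.rev (Γ.rot a))} :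
        Finset V).card = 5 := by
      rw [Finset.card_insert_of_notMem, Finset.card_insert_of_notMem,
        Finset.card_insert_of_notMem, Finset.card_insert_of_notMem, Finset.card_singleton]
      · rw [Finset.mem_singleton]; exact c6
      · rw [Finset.mem_insert, Finset.mem_singleton, not_or]; exact ⟨c3, c4⟩
      · rw [Finset.mem_insert, Finset.mem_insert, Finset.mem_singleton, not_or, not_or]
        exact ⟨c5, c1, c2⟩
      · rw [Finset.mem_insert, Finset.mem_insert, Finset.mem_insert, Finset.mem_singleton,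
          not_or, not_or, not_or]
        exact hv
    have := Finset.card_le_univ
      ({v, Γ.tgt a, Γ.tgt (Γ.rev a), Γ.tgt (Γ.rot a), Γ.tgt (Γ.rev (Γ.rot a))} : Finset V)
    omega
  have hG : G g = G g' := by
    rw [Γ.ends' hg, Γ.ends' hg', Sym2.eq_iff]
    rcases hall (Γ.tgt (Γ.phi a)) with q | q | q | q
    · exact absurd q k2
    · exact absurd q k1
    · rcases hall (Γ.tgt (Γ.rev (Γ.phi a))) with q' | q' | q' | q'
      · exact absurd q' k4
      · exact absurd q' k3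
      · exact absurd (q.trans q'.symm) k5
      · exact Or.inl ⟨q.symm, q'.symm⟩
    · rcases hall (Γ.tgt (Γ.rev (Γ.phi a))) with q' | q' | q' | q'
      · exact absurd q' k4
      · exact absurd q' k3
      · exact Or.inr ⟨q'.symm, q.symm⟩
      · exact absurd (q.trans q'.symm) k5
  have hne : g ≠ g' := by
    intro hh
    obtain ⟨x, hx⟩ := ha1
    obtain ⟨y, hy⟩ := ha2
    have hX1 : Γ.IsX a := ⟨x, hx⟩
    have hxy : x = y := by
      apply h.simple.2 (Γ.rot a) (Γ.phi a) x y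
      · rw [org_rot]; exact hx
      · exact hy
      · rw [hg, hg', hh]
      · rw [rot_phi, Γ.lab_rev, Γ.lab_rot2 hX1]
    subst hxy
    apply h.org_ne hX1
    rw [← Γ.org_phi, hy, hx]
  obtain ⟨σ, hσ, h0, h1, hs⟩ := h.exists_sides hne hG
  have hag : Γ.lab a ≠ some g := by
    rw [← hg]; exact (h.lab_rot_ne ha1).symm
  have hag' : Γ.lab a ≠ some g' := by
    rw [← hg']; exact (h.lab_phi_ne ha2).symm
  obtain ⟨l, l1, l2, l3⟩ := h.follow' hσ h0 h1 ha1 ha2 (Or.inl ⟨hg, hg'⟩)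
  have hrg : Γ.lab (Γ.rot (Γ.rev a)) = some g' := by
    have e1 : Γ.rot (Γ.rev a) = Γ.rot (Γ.rot (Γ.phi a)) := by rw [rot_phi]
    rw [e1, Γ.lab_rot2 ha2, hg']
  have hpg : Γ.lab (Γ.phi (Γ.rev a)) = some g := by
    rw [(Γ.across ha1).1, lab_phi_inv, hg]
  obtain ⟨l', l1', l2', l3'⟩ := h.follow' hσ h0 h1 (a := Γ.rev a) hX
    (Γ.isX_phi_rev.mpr ha1) (Or.inr ⟨hrg, hpg⟩)
  have s1 : σ (Γ.rev l) = σ a + 1 := by
    rw [h0 l (by rw [l1]; exact hag) (by rw [l1]; exact hag'), l3]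
  have s2 : σ (Γ.rev l') = σ a + 1 := by
    rw [h0 l' (by rw [l1', Γ.lab_rev]; exact hag) (by rw [l1', Γ.lab_rev]; exact hag'), l3',
      h0 a hag hag']
  obtain ⟨d, w, hd1, hd2, hd3⟩ := hs (σ a)
  have hbad : σ d = σ a + 1 := by
    rcases hall w with hw | hw | hw | hw
    · rw [side_vertex hG hσ h0 hd1 (d' := Γ.rev l) (by rw [l2, hw]) hd2, s1]
    · rw [side_vertex hG hσ h0 hd1 (d' := Γ.rev l') (by rw [l2', hw]) hd2, s2]
    · exfalso; apply hd2; rw [hw]; exact Γ.tgt_mem hg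
    · exfalso; apply hd2; rw [hw]; exact Γ.tgt_rev_mem hg
  rw [hd3] at hbad
  have : ∀ x : ZMod 2, x ≠ x + 1 := by decide
  exact this _ hbad

/-- A general counting lemma. -/
theorem sum_cells [Fintype D] (w : D → ℤ) (hw : ∀ d, 0 ≤ w d) (B : ℤ) (hB : 0 ≤ B)
    (hs : ∀ a, Γ.Solo a → B ≤ ∑ d ∈ univ.filter (fun d => Γ.phi.SameCycle a d), w d) :
    2 * B * (Nat.card (Quotient Γ.cell) : ℤ) ≤
      ∑ d, w d + B * (Nat.card (Quotient (SameCycle.setoid Γ.phi)) : ℤ) := by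
  set u : D → ℤ := fun d => w d + B * (if rep Γ d = d then 1 else 0) with hu
  have hr : ∀ d, (0 : ℤ) ≤ (if rep Γ d = d then 1 else 0) := by
    intro d; split_ifs <;> norm_num
  have cell : ∀ a, 2 * B ≤ ∑ d ∈ univ.filter (fun d => Γ.cell a d), u d := by
    intro a
    simp only [hu]
    rw [Finset.sum_add_distrib, ← Finset.mul_sum]
    have hrc : ∀ d, Γ.cell a d → Γ.cell a (rep Γ d) := fun d hd =>
      Γ.cell.trans hd (Γ.cell.symm (Γ.cell_of_sameCycle (rep_sameCycle d)))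
    by_cases hsolo : Γ.Solo a
    · have e1 : univ.filter (fun d => Γ.cell a d) =
          univ.filter (fun d => Γ.phi.SameCycle a d) := by
        ext d
        simp only [Finset.mem_filter, Finset.mem_univ, true_and]
        exact ⟨fun hd => hsolo d hd, fun hd => Γ.cell_of_sameCycle hd⟩
      have e3 := hs a hsolo
      have e4 : (1 : ℤ) ≤ ∑ d ∈ univ.filter (fun d => Γ.cell a d),
          (if rep Γ d = d then 1 else 0) := by
        have := Finset.single_le_sum (f := fun d => (if rep Γ d = d then (1 : ℤ) else 0))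
          (s := univ.filter (fun d => Γ.cell a d)) (fun d _ => hr d)
          (a := rep Γ a) (by
            rw [Finset.mem_filter]
            exact ⟨Finset.mem_univ _, hrc a (Γ.cell.refl a)⟩)
        simp only [rep_rep, if_true] at this
        exact this
      rw [← e1] at e3
      nlinarith
    · unfold Solo at hsolo
      rw [not_forall] at hsolo
      obtain ⟨b, hb⟩ := hsolo
      rw [Classical.not_imp] at hb
      obtain ⟨hb1, hb2⟩ := hb
      have hne : rep Γ a ≠ rep Γ b := by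
        intro hh
        apply hb2
        have h1 := rep_sameCycle (Γ := Γ) a
        have h2 := rep_sameCycle (Γ := Γ) b
        rw [← hh] at h2
        exact h1.symm.trans h2
      have e4 : (2 : ℤ) ≤ ∑ d ∈ univ.filter (fun d => Γ.cell a d),
          (if rep Γ d = d then 1 else 0) := by
        have hsub : ({rep Γ a, rep Γ b} : Finset D) ⊆ univ.filter (fun d => Γ.cell a d) := by
          intro d hd
          rw [Finset.mem_insert, Finset.mem_singleton] at hd
          rw [Finset.mem_filter]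
          rcases hd with rfl | rfl
          · exact ⟨Finset.mem_univ _, hrc a (Γ.cell.refl a)⟩
          · exact ⟨Finset.mem_univ _, hrc b hb1⟩
        have := Finset.sum_le_sum_of_subset_of_nonneg
          (f := fun d => (if rep Γ d = d then (1 : ℤ) else 0)) hsub (fun d _ _ => hr d)
        rw [Finset.sum_pair hne] at this
        simp only [rep_rep, if_true] at this
        linarith
      have e5 : 0 ≤ ∑ d ∈ univ.filter (fun d => Γ.cell a d), w d :=
        Finset.sum_nonneg (fun d _ => hw d)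
      nlinarith
  have total : 2 * B * (Nat.card (Quotient Γ.cell) : ℤ) ≤ ∑ d, u d := by
    have : Fintype (Quotient Γ.cell) := Fintype.ofFinite _
    rw [← Finset.sum_fiberwise (univ : Finset D) (fun d => Quotient.mk Γ.cell d) u]
    rw [Nat.card_eq_fintype_card, ← Finset.card_univ]
    have := Finset.card_nsmul_le_sum (univ : Finset (Quotient Γ.cell))
      (fun K => ∑ d ∈ univ.filter (fun d => Quotient.mk Γ.cell d = K), u d) (2 * B) (by
        intro K _
        induction K using Quotient.inductionOn with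
        | _ a =>
          have e1 : univ.filter (fun d => Quotient.mk Γ.cell d = Quotient.mk Γ.cell a) =
              univ.filter (fun d => Γ.cell a d) := by
            ext d
            simp only [Finset.mem_filter, Finset.mem_univ, true_and]
            rw [Quotient.eq]
            exact ⟨fun hd => Γ.cell.symm hd, fun hd => Γ.cell.symm hd⟩
          show 2 * B ≤ ∑ d ∈ univ.filter
            (fun d => Quotient.mk Γ.cell d = Quotient.mk Γ.cell a), u d
          rw [e1]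
          exact cell a)
    rw [nsmul_eq_mul, mul_comm] at this
    exact this
  have h6 := card_rep (Γ := Γ)
  have e7 : ∑ d, u d = ∑ d, w d + B * ((univ.filter (fun d : D => rep Γ d = d)).card : ℤ) := by
    simp only [hu]
    rw [Finset.sum_add_distrib, ← Finset.mul_sum, Finset.sum_boole]
  rw [e7] at total
  have h6' : ((univ.filter (fun d : D => rep Γ d = d)).card : ℤ) ≤
    (Nat.card (Quotient (SameCycle.setoid Γ.phi)) : ℤ) := by exact_mod_cast h6
  nlinarith

end Drawing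

end Pool.Agent.Helper19.Fan
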