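import Pool.Agent.Helper19.Fan.Charge

set_option autoImplicit false

/-!
# A ladder between parallel edges does not end in triangles on both sides
-/

namespace Pool.Agent.Helper19.Fan

open Equiv.Perm

variable {V E : Type} {G : E → Sym2 V} {X D : Type}

namespace Drawing

variable {Γ : Drawing G X D}

/-- Darts crossing both `e` and `f` whose ladder has triangles at both ends. -/
def LD (Γ : Drawing G X D) (e f : E) (c : D) : Prop :=
  Γ.Fl c ∧ (Γ.lab (Γ.phi⁻¹ c) = some e ∨ Γ.lab (Γ.phi⁻¹ c) = some f) ∧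
    (Γ.lab (Γ.phi c) = some e ∨ Γ.lab (Γ.phi c) = some f) ∧ Γ.TEnd c ∧ Γ.TEnd (Γ.rev c)

theorem LD.rev {e f : E} {c : D} (h : LD Γ e f c) : LD Γ e f (Γ.rev c) := by
  obtain ⟨h1, h2, h3, h4, h5⟩ := h
  have e1 := (Γ.across h1.1).1
  have e2 := (Γ.across (Γ.isX_phi.mp h1.2.1)).1
  rw [rev_rev'] at e2
  refine ⟨Γ.fl_rev.mpr h1, ?_, ?_, h5, by rw [rev_rev']; exact h4⟩
  · rw [← e2]; exact h3
  · rw [e1]; exact h2

theorem LD.opp [Finite D] {e f : E} {c : D} (h : LD Γ e f c) (hq : Γ.QF c) :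
    LD Γ e f (Γ.phi (Γ.phi c)) := by
  obtain ⟨h1, h2, h3, h4, h5⟩ := h
  have e1 : Γ.phi⁻¹ c = Γ.phi (Γ.phi (Γ.phi c)) := by
    rw [Equiv.Perm.inv_eq_iff_eq]; exact hq.2.2.2.2.1.symm
  refine ⟨hq.fl_opp h1, ?_, ?_, ?_, h4.of_QF hq⟩
  · rw [phi_inv_phi]; exact h3
  · rw [← e1]; exact h2
  · refine TEnd.step hq.phi.phi ?_
    rw [hq.2.2.2.2.1]; exact h5

theorem Fl.not_both [Finite D] (h : Γ.Good) {a : D} (ha : Γ.Fl a) (h1 : Γ.TEnd a)
    (h2 : Γ.TEnd (Γ.rev a)) : False := by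
  obtain ⟨e, f, he, hf, hG⟩ := ha.labels
  have hne : e ≠ f := by
    intro hh
    apply ha.labels_ne h
    rw [he, hf, hh]
  let R : D → Prop := fun d => ∃ c, LD Γ e f c ∧ (d = c ∨ d = Γ.phi c ∨ d = Γ.phi (Γ.phi c) ∨
    (Γ.QF c ∧ d = Γ.phi (Γ.phi (Γ.phi c))))
  have hRphi : ∀ d, R d → R (Γ.phi d) := by
    rintro d ⟨c, hc, hd | hd | hd | ⟨hq, hd⟩⟩
    · exact ⟨c, hc, Or.inr (Or.inl (by rw [hd]))⟩
    · exact ⟨c, hc, Or.inr (Or.inr (Or.inl (by rw [hd])))⟩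
    · rcases hc.2.2.2.1.cases' with ht | hq
      · exact ⟨c, hc, Or.inl (by rw [hd]; exact ht.2.2.2.1)⟩
      · exact ⟨c, hc, Or.inr (Or.inr (Or.inr ⟨hq, by rw [hd]⟩))⟩
    · exact ⟨c, hc, Or.inl (by rw [hd]; exact hq.2.2.2.2.1)⟩
  have hRcell : ∀ d d', R d → Γ.cell d d' → R d' := by
    rintro d d' ⟨c, hc, hd⟩ hdd
    have hcd : Γ.cell c d := by
      have p1 := Γ.cell_phi c
      have p2 := Γ.cell.trans p1 (Γ.cell_phi _)
      have p3 := Γ.cell.trans p2 (Γ.cell_phi _)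
      rcases hd with rfl | rfl | rfl | ⟨-, rfl⟩
      · exact Γ.cell.refl _
      · exact p1
      · exact p2
      · exact p3
    have hsolo : Γ.Solo c := by
      rcases hc.2.2.2.1.cases' with ht | hq
      · exact ht.2.2.2.2
      · exact hq.2.2.2.2.2
    obtain ⟨n, rfl⟩ := (hsolo d' (Γ.cell.trans hcd hdd)).exists_nat_pow_eq
    clear hdd
    induction n with
    | zero => exact ⟨c, hc, Or.inl rfl⟩
    | succ n ih =>
      rw [pow_succ', Equiv.Perm.mul_apply]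
      exact hRphi _ ih
  have hRrev : ∀ d, R d → Γ.lab d ≠ some e → Γ.lab d ≠ some f → R (Γ.rev d) := by
    rintro d ⟨c, hc, hd | hd | hd | ⟨hq, hd⟩⟩ h3 h4
    · exact ⟨Γ.rev c, hc.rev, Or.inl (by rw [hd])⟩
    · exfalso
      rw [hd] at h3 h4
      rcases hc.2.2.1 with h5 | h5
      · exact h3 h5
      · exact h4 h5
    · rcases hc.2.2.2.1.cases' with ht | hq
      · exfalso
        have e1 : Γ.phi (Γ.phi c) = Γ.phi⁻¹ c := by
          symm; rw [Equiv.Perm.inv_eq_iff_eq]; exact ht.2.2.2.1.symm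
        rw [hd, e1] at h3 h4
        rcases hc.2.1 with h5 | h5
        · exact h3 h5
        · exact h4 h5
      · exact ⟨_, (hc.opp hq).rev, Or.inl (by rw [hd])⟩
    · exfalso
      have e1 : Γ.phi (Γ.phi (Γ.phi c)) = Γ.phi⁻¹ c := by
        symm; rw [Equiv.Perm.inv_eq_iff_eq]; exact hq.2.2.2.2.1.symm
      rw [hd, e1] at h3 h4
      rcases hc.2.1 with h5 | h5
      · exact h3 h5
      · exact h4 h5
  have hRv : ∀ d v, R d → Γ.org d = Sum.inl v → v ∈ G e := by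
    rintro d v ⟨c, hc, hd⟩ hv
    have hnX : ¬ Γ.IsX d := Γ.not_isX.mpr ⟨v, hv⟩
    have hlab : Γ.lab d = some e ∨ Γ.lab d = some f := by
      rcases hd with hd | hd | hd | ⟨hq, hd⟩
      · exact absurd (hd ▸ hc.1.1) hnX
      · exact absurd (hd ▸ hc.1.2.1) hnX
      · rcases hc.2.2.2.1.cases' with ht | hq
        · have e1 : Γ.phi (Γ.phi c) = Γ.phi⁻¹ c := by
            symm; rw [Equiv.Perm.inv_eq_iff_eq]; exact ht.2.2.2.1.symm
          rw [hd, e1]; exact hc.2.1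
        · exact absurd (hd ▸ hq.2.2.1) hnX
      · exact absurd (hd ▸ hq.2.2.2.1) hnX
    rcases hlab with hl | hl
    · have := Γ.tgt_rev_mem hl
      rwa [Γ.tgt_rev_of_org hv] at this
    · have := Γ.tgt_rev_mem hl
      rw [Γ.tgt_rev_of_org hv] at this
      rw [hG]; exact this
  obtain ⟨d', v, hreach, hv, hvn⟩ := h.nonhom e f hne hG a
  have hRa : R a := ⟨a, ⟨ha, Or.inl he, Or.inr hf, h1, h2⟩, Or.inl rfl⟩
  have hRd : R d' := by
    clear hv
    induction hreach with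
    | refl => exact hRa
    | tail _ hstep ih =>
      rcases hstep with hstep | ⟨h3, h4, rfl⟩
      · exact hRcell _ _ ih hstep
      · exact hRrev _ ih h3 h4
  exact hvn (hRv d' v hRd hv)

end Drawing

end Pool.Agent.Helper19.Fan
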