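import Pool.Agent.Helper19.Fan.Transfer

set_option autoImplicit false

/-!
# Local inequalities; triangles and quadrangles
-/

namespace Pool.Agent.Helper19.Fan

open Equiv.Perm

open scoped Classical

variable {V E : Type} {G : E → Sym2 V} {X D : Type}

namespace Drawing

variable {Γ : Drawing G X D}

namespace FanData

variable (F : Γ.FanData)

theorem near_nonneg (a : D) : 0 ≤ F.near a := by
  unfold near
  split_ifs
  · rcases F.b01 (Γ.phi⁻¹ a) with h1 | h1 <;> rcases F.b01 a with h2 | h2 <;> rw [h1, h2] <;>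
      norm_num
  · exact le_rfl

theorem delta_nonneg (a : D) : 0 ≤ F.delta a := by
  unfold delta
  split_ifs
  · rcases F.b01 (Γ.phi⁻¹ a) with h1 | h1 <;> rcases F.b01 a with h2 | h2 <;>
      rcases F.b01 (Γ.phi a) with h3 | h3 <;> rw [h1, h2, h3] <;> norm_num
  · exact le_rfl

theorem tau_le {a : D} (h1 : ¬ Γ.TB a) (h2 : ¬ Γ.QF a) (h3 : ¬ Γ.TB (Γ.phi⁻¹ a))
    (h4 : ¬ Γ.TB (Γ.phi a)) :
    F.tau a ≤ 2 * F.near a + 2 * F.near (Γ.phi a) + 2 * F.delta a := by
  unfold tau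
  by_cases hF : Γ.Fl a
  · rw [if_pos hF]
    have hte : te Γ a = 0 := by
      unfold te
      rw [if_neg]
      intro hh
      rcases hh.cases' with h | h
      · exact h1 h
      · exact h2 h
    unfold near delta eps
    rw [if_pos hF, if_pos hF.1, if_pos hF.2.1, hte, phi_inv_phi]
    rcases te01 (Γ := Γ) (Γ.rev a) with ht | ht <;>
    rcases F.b01 (Γ.phi⁻¹ a) with h1 | h1 <;> rcases F.b01 a with h2 | h2 <;>
      rcases F.b01 (Γ.phi a) with h3 | h3 <;> rw [ht, h1, h2, h3] <;> norm_num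
  · rw [if_neg hF]
    have hn1 := F.near_nonneg a
    have hn2 := F.near_nonneg (Γ.phi a)
    have hn3 := F.delta_nonneg a
    by_cases hR : F.RS a ∨ F.RS (Γ.rev a)
    · rw [if_pos hR]
      have hR' : F.RS (Γ.rev a) := by
        rcases hR with hR | hR
        · exfalso
          rcases hR with hR | hR
          · exact h3 hR.1
          · exact h4 hR.1
        · exact hR
      rcases hR' with ⟨ht, hb⟩ | ⟨ht, hb⟩
      · have hX : Γ.IsX (Γ.phi a) := by
          have := ht.2.1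
          rw [phi_phi_inv] at this
          exact Γ.isX_phi.mpr this
        rw [F.b_phi_inv_rev hX] at hb
        have e1 : F.near (Γ.phi a) = F.b a := by
          unfold near
          rw [if_pos hX, phi_inv_phi, hb, mul_one]
        rcases F.b01 a with h | h <;> rw [h] at e1 <;> rw [h] <;> linarith
      · have hX : Γ.IsX a := Γ.isX_phi_rev.mp ht.1
        rw [F.b_phi_rev hX] at hb
        have e1 : F.near a = F.b a := by
          unfold near
          rw [if_pos hX, hb, one_mul]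
        rcases F.b01 a with h | h <;> rw [h] at e1 <;> rw [h] <;> linarith
    · rw [if_neg hR]
      linarith

/-- `1` if the dart starts at a vertex -/
noncomputable def vx (Γ : Drawing G X D) (a : D) : ℤ := if Γ.IsX a then 0 else 1

theorem vx01 (a : D) : vx Γ a = 0 ∨ vx Γ a = 1 := by
  unfold vx; split_ifs
  · exact Or.inl rfl
  · exact Or.inr rfl

/-- The charge contributed by a dart. -/
noncomputable def g (a : D) : ℤ := 4 + 4 * vx Γ a + 4 * F.near a - F.tau a

theorem g_nonneg (a : D) : 0 ≤ F.g a := by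
  have hn := F.near_nonneg a
  have hv : 0 ≤ vx Γ a := by rcases vx01 (Γ := Γ) a with h | h <;> rw [h]; norm_num
  unfold g tau
  by_cases hF : Γ.Fl a
  · rw [if_pos hF]
    have hne : F.near a = F.b (Γ.phi⁻¹ a) * F.b a := by unfold near; rw [if_pos hF.1]
    rw [hne]
    unfold eps
    rcases te01 (Γ := Γ) (Γ.rev a) with ht | ht <;> rcases te01 (Γ := Γ) a with ht' | ht' <;>
    rcases F.b01 (Γ.phi⁻¹ a) with h1 | h1 <;> rcases F.b01 a with h2 | h2 <;>
      rcases F.b01 (Γ.phi a) with h3 | h3 <;> rw [ht, ht', h1, h2, h3] <;> norm_num <;> linarith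
  · rw [if_neg hF]
    split_ifs
    · rcases F.b01 a with h | h <;> rw [h] <;> linarith
    · linarith

theorem TB_irregular_fl (h : Γ.Good) {a : D} (ht : Γ.TB a) (hb : F.b a = 0) : Γ.Fl a := by
  obtain ⟨h1, h2, h3, h4, -⟩ := ht
  obtain ⟨e, he⟩ := Γ.lab_isX h1
  refine ⟨h1, h2, ?_, ?_⟩
  · have e1 : Γ.phi⁻¹ a = Γ.phi (Γ.phi a) := by
      rw [Equiv.Perm.inv_eq_iff_eq]; exact h4.symm
    rw [e1]
    obtain ⟨v, hv⟩ := Γ.not_isX.mp h3
    rw [Γ.tgt_rev_of_org hv]
    apply Γ.tgt_of_org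
    rw [← org_phi]; exact hv
  · rw [F.end_right h he h2 hb, F.start_right h he h1 hb]

theorem g_triangle [Finite D] (h : Γ.Good) {a : D} (ht : Γ.TB a) :
    20 ≤ F.g a + F.g (Γ.phi a) + F.g (Γ.phi (Γ.phi a)) := by
  have ht' := ht
  obtain ⟨h1, h2, h3, h4, -⟩ := ht
  have e1 : Γ.phi⁻¹ a = Γ.phi (Γ.phi a) := by
    rw [Equiv.Perm.inv_eq_iff_eq]; exact h4.symm
  have v1 : vx Γ a = 0 := by unfold vx; rw [if_pos h1]
  have v2 : vx Γ (Γ.phi a) = 0 := by unfold vx; rw [if_pos h2]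
  have v3 : vx Γ (Γ.phi (Γ.phi a)) = 1 := by unfold vx; rw [if_neg h3]
  have n1 : F.near a = F.b (Γ.phi (Γ.phi a)) * F.b a := by
    unfold near; rw [if_pos h1, e1]
  have n2 : F.near (Γ.phi a) = F.b a * F.b (Γ.phi a) := by
    unfold near; rw [if_pos h2, phi_inv_phi]
  have n3 : F.near (Γ.phi (Γ.phi a)) = 0 := by
    unfold near; rw [if_neg h3]
  have fl2 : ¬ Γ.Fl (Γ.phi a) := fun hh => h3 hh.2.1
  have fl3 : ¬ Γ.Fl (Γ.phi (Γ.phi a)) := fun hh => h3 hh.1
  have fl1r : ¬ F.RS a := by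
    rintro (⟨hh, _⟩ | ⟨hh, _⟩)
    · rw [e1] at hh
      exact h3 hh.1
    · exact h3 hh.2.1
  have t1 : F.tau a ≤ 4 * F.b a - 4 * (1 - F.b a) * 0 - 4 * F.b a + (if F.b a = 1 then 0 else -4)
      := by
    by_cases hF : Γ.Fl a
    · have hte : te Γ a = 1 := by
        unfold te; rw [if_pos (TEnd.base ht')]
      have hte' : te Γ (Γ.rev a) = 0 := by
        unfold te
        rw [if_neg]
        intro hh
        exact Fl.not_both h hF (TEnd.base ht') hh
      unfold tau eps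
      rw [if_pos hF, hte, hte', e1]
      rcases F.b01 (Γ.phi (Γ.phi a)) with h5 | h5 <;> rcases F.b01 a with h6 | h6 <;>
      rcases F.b01 (Γ.phi a) with h7 | h7 <;> rw [h5, h6, h7] <;> norm_num
    · have hb : F.b a = 1 := by
        rcases F.b01 a with hb | hb
        · exact absurd (F.TB_irregular_fl h ht' hb) hF
        · exact hb
      have fl1r' : ¬ F.RS (Γ.rev a) := by
        rintro (⟨hh, _⟩ | ⟨hh, _⟩)
        · have h5 := hh.2.2.1
          rw [phi_phi_inv, isX_phi_rev] at h5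
          exact h5 h1
        · have h5 := hh.2.2.2.1
          have h6 : Γ.phi (Γ.phi (Γ.phi (Γ.rev a))) = Γ.rev a := by
            have := congrArg (fun z => Γ.phi⁻¹ z) h5
            rwa [phi_inv_phi, phi_inv_phi] at this
          have h7 := hh.2.2.1
          rw [h6] at h7
          exact h7 (Γ.isX_phi.mp h2)
      unfold tau
      rw [if_neg hF, if_neg (by rintro (hh | hh); exacts [fl1r hh, fl1r' hh]), if_pos hb]
      linarith
  have t2 : F.tau (Γ.phi a) = (4 * F.b (Γ.phi a) - 2) * F.b a := by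
    unfold tau
    rw [if_neg fl2]
    rcases F.b01 a with hb | hb
    · rw [if_neg, hb, mul_zero]
      rintro ((⟨hh, h5⟩ | ⟨hh, h5⟩) | (⟨hh, h5⟩ | ⟨hh, h5⟩))
      · rw [phi_inv_phi, hb] at h5; exact absurd h5 (by norm_num)
      · exact h3 hh.1
      · have := hh.2.1
        rw [phi_phi_inv] at this
        exact h3 (Γ.isX_phi.mpr this)
      · rw [F.b_phi_rev h2, phi_inv_phi, hb] at h5; exact absurd h5 (by norm_num)
    · rw [if_pos, hb, mul_one]
      left; left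
      rw [phi_inv_phi]; exact ⟨ht', hb⟩
  have t3 : F.tau (Γ.phi (Γ.phi a)) = (4 * F.b (Γ.phi (Γ.phi a)) - 2) * F.b a := by
    unfold tau
    rw [if_neg fl3]
    rcases F.b01 a with hb | hb
    · rw [if_neg, hb, mul_zero]
      rintro ((⟨hh, h5⟩ | ⟨hh, h5⟩) | (⟨hh, h5⟩ | ⟨hh, h5⟩))
      · rw [phi_inv_phi] at hh; exact h3 hh.2.1
      · rw [h4, hb] at h5; exact absurd h5 (by norm_num)
      · rw [F.b_phi_inv_rev (by rw [h4]; exact h1), h4, hb] at h5
        exact absurd h5 (by norm_num)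
      · exact h3 (Γ.isX_phi_rev.mp hh.1)
    · rw [if_pos, hb, mul_one]
      left; right
      rw [h4]; exact ⟨ht', hb⟩
  unfold g
  rw [v1, v2, v3, n1, n2, n3, t2, t3]
  rcases F.b01 a with hb | hb
  · rw [if_neg (by rw [hb]; norm_num)] at t1
    rw [hb] at t1 ⊢
    linarith
  · rw [if_pos hb] at t1
    rw [hb] at t1 ⊢
    linarith

theorem g_quadrangle [Finite D] (h : Γ.Good) {a : D} (hq : Γ.QF a) :
    F.g a + F.g (Γ.phi a) + F.g (Γ.phi (Γ.phi a)) + F.g (Γ.phi (Γ.phi (Γ.phi a))) = 20 := by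
  have hq' := hq
  obtain ⟨h1, h2, h3, h4, h5, -⟩ := hq
  set a1 := Γ.phi a with ha1
  set a2 := Γ.phi a1 with ha2
  set a3 := Γ.phi a2 with ha3
  have i0 : Γ.phi⁻¹ a = a3 := by rw [Equiv.Perm.inv_eq_iff_eq]; exact h5.symm
  have i1 : Γ.phi⁻¹ a1 = a := by rw [ha1, phi_inv_phi]
  have i2 : Γ.phi⁻¹ a2 = a1 := by rw [ha2, phi_inv_phi]
  have i3 : Γ.phi⁻¹ a3 = a2 := by rw [ha3, phi_inv_phi]
  have noRS : ∀ c, Γ.IsX c → Γ.IsX (Γ.phi c) → Γ.IsX (Γ.phi (Γ.phi c)) →
      Γ.phi (Γ.phi (Γ.phi (Γ.phi c))) = c → Γ.IsX (Γ.phi (Γ.phi (Γ.phi c))) →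
      ¬ (F.RS c ∨ F.RS (Γ.rev c)) := by
    intro c c1 c2 c3 c5 c4
    rintro ((⟨hh, _⟩ | ⟨hh, _⟩) | (⟨hh, _⟩ | ⟨hh, _⟩))
    · have := hh.2.2.1; rw [phi_phi_inv] at this; exact this c2
    · exact hh.2.2.1 c4
    · have := hh.2.2.1; rw [phi_phi_inv, isX_phi_rev] at this; exact this c1
    · have h5 := hh.2.2.2.1
      have h6 : Γ.phi (Γ.phi (Γ.phi (Γ.rev c))) = Γ.rev c := by
        have := congrArg (fun z => Γ.phi⁻¹ z) h5
        rwa [phi_inv_phi, phi_inv_phi] at this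
      have h7 := hh.2.2.1
      rw [h6] at h7
      exact h7 (Γ.isX_phi.mp c2)
  have q1 : Γ.QF a1 := hq'.phi
  have q2 : Γ.QF a2 := q1.phi
  have q3 : Γ.QF a3 := q2.phi
  have r0 := noRS a h1 h2 h3 h5 h4
  have r1 := noRS a1 q1.1 q1.2.1 q1.2.2.1 q1.2.2.2.2.1 q1.2.2.2.1
  have r2 := noRS a2 q2.1 q2.2.1 q2.2.2.1 q2.2.2.2.2.1 q2.2.2.2.1
  have r3 := noRS a3 q3.1 q3.2.1 q3.2.2.1 q3.2.2.2.2.1 q3.2.2.2.1
  have teop : ∀ c, Γ.QF c → te Γ c = te Γ (Γ.rev (Γ.phi (Γ.phi c))) := by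
    intro c hc
    unfold te
    by_cases ht : Γ.TEnd c
    · rw [if_pos ht, if_pos (ht.of_QF hc)]
    · rw [if_neg ht, if_neg (fun hh => ht (TEnd.step hc hh))]
  have te0 := teop a hq'
  have te1 := teop a1 q1
  have te2 := teop a2 q2
  have te3 := teop a3 q3
  have e20 : Γ.phi (Γ.phi a) = a2 := rfl
  have e31 : Γ.phi (Γ.phi a1) = a3 := rfl
  have e02 : Γ.phi (Γ.phi a2) = a := h5
  have e13 : Γ.phi (Γ.phi a3) = a1 := by rw [ha1]; exact congrArg Γ.phi h5
  rw [e20] at te0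
  rw [e31] at te1
  rw [e02] at te2
  rw [e13] at te3
  have p3 : Γ.phi a3 = a := h5
  have fl02 : Γ.Fl a ↔ Γ.Fl a2 := ⟨hq'.fl_opp, fun hh => by have := q2.fl_opp hh; rwa [e02] at this⟩
  have fl13 : Γ.Fl a1 ↔ Γ.Fl a3 := ⟨q1.fl_opp, fun hh => by have := q3.fl_opp hh; rwa [e13] at this⟩
  -- if not flanked then the opposite bits are complementary
  have comp : ∀ c, Γ.QF c → ¬ Γ.Fl c → F.b c + F.b (Γ.phi (Γ.phi c)) = 1 := by
    intro c hc hnf
    obtain ⟨c1, c2, c3, c4, c5, -⟩ := hc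
    obtain ⟨e, he⟩ := Γ.lab_isX c1
    obtain ⟨e', he'⟩ := Γ.lab_isX c3
    have j0 : Γ.phi⁻¹ c = Γ.phi (Γ.phi (Γ.phi c)) := by
      rw [Equiv.Perm.inv_eq_iff_eq]; exact c5.symm
    have j2 : Γ.phi⁻¹ (Γ.phi (Γ.phi c)) = Γ.phi c := by rw [phi_inv_phi]
    rcases F.b01 c with hb | hb <;> rcases F.b01 (Γ.phi (Γ.phi c)) with hb' | hb'
    · exfalso
      apply hnf
      have f1 := F.end_right h he c2 hb
      have f2 := F.start_right h he c1 hb
      have f3 := F.end_right h he' c4 hb'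
      have f4 := F.start_right h he' c3 hb'
      rw [j2] at f4
      rw [j0] at f2
      refine ⟨c1, c2, ?_, ?_⟩
      · rw [j0, f4, f3]
      · rw [j0, f1, f2]
    · rw [hb, hb']; norm_num
    · rw [hb, hb']; norm_num
    · exfalso
      apply hnf
      have f1 := F.end_left he c2 hb
      have f2 := F.start_left h he c1 hb
      have f3 := F.end_left he' c4 hb'
      have f4 := F.start_left h he' c3 hb'
      rw [j2] at f4
      rw [j0] at f2
      refine ⟨c1, c2, ?_, ?_⟩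
      · rw [j0, f1, f2]
      · rw [j0, f4, f3]
  have comp0 := comp a hq'
  have comp1 := comp a1 q1
  rw [e20] at comp0
  rw [e31] at comp1
  unfold g vx near tau eps
  rw [if_pos h1, if_pos h2, if_pos h3, if_pos h4, if_pos h1, if_pos h2, if_pos h3, if_pos h4,
    i0, i1, i2, i3, if_neg r0, if_neg r1, if_neg r2, if_neg r3, p3]
  change _ at te0
  rw [te0, te1, te2, te3]
  rw [← fl02, ← fl13]
  generalize te Γ (Γ.rev a) = t0
  generalize te Γ (Γ.rev a1) = t1
  generalize te Γ (Γ.rev a2) = t2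
  generalize te Γ (Γ.rev a3) = t3
  by_cases fA : Γ.Fl a <;> by_cases fB : Γ.Fl a1
  · simp only [if_pos fA, if_pos fB]
    rcases F.b01 a with b0 | b0 <;> rcases F.b01 a1 with b1 | b1 <;>
    rcases F.b01 a2 with b2 | b2 <;> rcases F.b01 a3 with b3 | b3 <;>
    rw [b0, b1, b2, b3] <;> norm_num <;> ring
  · have c1 := comp1 fB
    simp only [if_pos fA, if_neg fB]
    rcases F.b01 a with b0 | b0 <;> rcases F.b01 a1 with b1 | b1 <;>
    rcases F.b01 a2 with b2 | b2 <;> rcases F.b01 a3 with b3 | b3 <;>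
    first
      | omega
      | (rw [b0, b1, b2, b3]; norm_num <;> ring)
  · have c0 := comp0 fA
    simp only [if_neg fA, if_pos fB]
    rcases F.b01 a with b0 | b0 <;> rcases F.b01 a1 with b1 | b1 <;>
    rcases F.b01 a2 with b2 | b2 <;> rcases F.b01 a3 with b3 | b3 <;>
    first
      | omega
      | (rw [b0, b1, b2, b3]; norm_num <;> ring)
  · have c0 := comp0 fA
    have c1 := comp1 fB
    simp only [if_neg fA, if_neg fB]
    rcases F.b01 a with b0 | b0 <;> rcases F.b01 a1 with b1 | b1 <;>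
    rcases F.b01 a2 with b2 | b2 <;> rcases F.b01 a3 with b3 | b3 <;>
    first
      | omega
      | (rw [b0, b1, b2, b3]; norm_num <;> ring)

end FanData

end Drawing

end Pool.Agent.Helper19.Fan
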