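import Mathlib

set_option autoImplicit false

/-!
# On the sphere every closed curve separates

If `c` is a set of segments meeting every point in an even number of darts, then the cells can be
two-coloured so that the colour changes exactly across the segments of `c`.  Proof: dimension
count over the field with two elements, from Euler's formula.  The map may be disconnected; the
fixed points of `rev` are the stubs of isolated vertices.
-/

namespace Pool.Agent.Helper19.Fan

open Equiv.Perm Finset Module

section

variable {D P : Type} [Fintype D] [Fintype P] [DecidableEq P] [DecidableEq D]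

/-- `x ↦ x + x ∘ f` -/
def addComp (f : Equiv.Perm D) : (D → ZMod 2) →ₗ[ZMod 2] (D → ZMod 2) where
  toFun x := fun d => x d + x (f d)
  map_add' x y := by ext d; simp only [Pi.add_apply]; ring
  map_smul' r x := by ext d; simp only [Pi.smul_apply, smul_eq_mul, RingHom.id_apply]; ring

/-- sums over the darts at a point -/
def sumAt (org : D → P) : (D → ZMod 2) →ₗ[ZMod 2] (P → ZMod 2) where
  toFun x := fun p => ∑ d ∈ univ.filter (fun d => org d = p), x d
  map_add' x y := by ext p; simp [Finset.sum_add_distrib]
  map_smul' r x := by ext p; simp [Finset.mul_sum]

lemma add_self_two (x : ZMod 2) : x + x = 0 := CharTwo.add_self_eq_zero x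

lemma eq_of_add_eq_zero {x y : ZMod 2} (h : x + y = 0) : x = y := by
  have := add_self_two y
  calc x = x + (y + y) := by rw [this, add_zero]
    _ = (x + y) + y := by ring
    _ = y := by rw [h, zero_add]

theorem exists_side (rev rot : Equiv.Perm D) (org : D → P) (cell : Setoid D)
    (hrr : ∀ d, rev (rev d) = d) (horg : ∀ d, org (rot d) = org d)
    (hsurj : Function.Surjective org)
    (hcell : ∀ d, cell d ((rot⁻¹ * rev) d))
    (hconn : ∀ a b, Relation.ReflTransGen (fun c d => d = rev c ∨ d = rot c ∨ cell c d) a b)
    (euler : 2 * Fintype.card P + 4 * Nat.card (Quotient cell) =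
      Fintype.card {d // ¬ rev d = d} +
      2 * Nat.card (Quotient (SameCycle.setoid (rot⁻¹ * rev))) + 4)
    (c : D → ZMod 2) (hc : ∀ d, c (rev d) = c d) (hc0 : ∀ d, rev d = d → c d = 0)
    (hs : ∀ p, ∑ d ∈ univ.filter (fun d => org d = p), c d = 0) :
    ∃ σ : D → ZMod 2, (∀ a b, cell a b → σ a = σ b) ∧ ∀ d, σ (rev d) = σ d + c d := by
  classical
  rcases isEmpty_or_nonempty D with hD | ⟨⟨d₀⟩⟩
  · exact ⟨fun _ => 0, fun d => (hD.false d).elim, fun d => (hD.false d).elim⟩
  have : Fact (Nat.Prime 2) := ⟨Nat.prime_two⟩
  set φ : Equiv.Perm D := rot⁻¹ * rev with hφ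
  set A := addComp rev with hA
  set N := sumAt org with hN
  let U : Submodule (ZMod 2) (D → ZMod 2) :=
    { carrier := {x | ∀ a b, cell a b → x a = x b}
      add_mem' := by
        intro x y hx hy a b hab
        simp only [Pi.add_apply]
        rw [hx a b hab, hy a b hab]
      zero_mem' := by intro a b _; rfl
      smul_mem' := by
        intro r x hx a b hab
        simp only [Pi.smul_apply]
        rw [hx a b hab] }
  have hUmem : ∀ x, x ∈ U ↔ ∀ a b, cell a b → x a = x b := fun x => Iff.rfl
  have hAapp : ∀ x d, A x d = x d + x (rev d) := fun x d => rfl
  have hNapp : ∀ x p, N x p = ∑ d ∈ univ.filter (fun d => org d = p), x d := fun x p => rfl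
  -- walks, components
  have hwc : ∀ a b, φ.SameCycle a b → cell a b := by
    intro a b hab
    obtain ⟨n, rfl⟩ := hab.exists_nat_pow_eq
    clear hab
    induction n with
    | zero => exact cell.refl _
    | succ n ih =>
      rw [pow_succ', Equiv.Perm.mul_apply]
      exact cell.trans ih (hcell _)
  let comp : Setoid D := Relation.EqvGen.setoid (fun c d => d = rev c ∨ d = rot c)
  have hc_rev : ∀ a, comp a (rev a) := fun a => Relation.EqvGen.rel _ _ (Or.inl rfl)
  have hc_rot : ∀ a, comp a (rot a) := fun a => Relation.EqvGen.rel _ _ (Or.inr rfl)
  have hc_phi : ∀ a, comp a (φ a) := by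
    intro a
    have h1 := hc_rot (φ a)
    have h2 : rot (φ a) = rev a := by simp [hφ]
    rw [h2] at h1
    exact comp.trans (hc_rev a) (comp.symm h1)
  have hwk : ∀ a b, φ.SameCycle a b → comp a b := by
    intro a b hab
    obtain ⟨n, rfl⟩ := hab.exists_nat_pow_eq
    clear hab
    induction n with
    | zero => exact comp.refl _
    | succ n ih =>
      rw [pow_succ', Equiv.Perm.mul_apply]
      exact comp.trans ih (hc_phi _)
  -- (3)
  have h3 : Nat.card (Quotient cell) ≤ finrank (ZMod 2) U := by
    let L : (Quotient cell → ZMod 2) →ₗ[ZMod 2] U :=
      { toFun := fun g => ⟨fun d => g (Quotient.mk _ d), by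
          rw [hUmem]
          intro a b hab
          congr 1
          exact Quotient.sound hab⟩
        map_add' := by intro g h; rfl
        map_smul' := by intro r g; rfl }
    have hL : Function.Injective L := by
      intro g h hgh
      ext q
      induction q using Quotient.inductionOn with
      | _ d =>
        have := congrArg (fun (u : U) => (u : D → ZMod 2) d) hgh
        exact this
    have := LinearMap.finrank_le_finrank_of_injective hL
    rwa [Module.finrank_fintype_fun_eq_card, ← Nat.card_eq_fintype_card] at this
  -- (4)
  have h4 : finrank (ZMod 2) U ≤ finrank (ZMod 2) (U.map A) + 1 := by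
    have e1 := LinearMap.finrank_range_add_finrank_ker (A.domRestrict U)
    rw [LinearMap.range_domRestrict] at e1
    have e2 : finrank (ZMod 2) (LinearMap.ker (A.domRestrict U)) ≤ 1 := by
      let L : LinearMap.ker (A.domRestrict U) →ₗ[ZMod 2] ZMod 2 :=
        { toFun := fun u => (u.1.1 : D → ZMod 2) d₀
          map_add' := by intro g h; rfl
          map_smul' := by intro r g; rfl }
      have hL : Function.Injective L := by
        rw [← LinearMap.ker_eq_bot, LinearMap.ker_eq_bot']
        rintro ⟨⟨x, hx⟩, hx'⟩ h0
        have h0' : x d₀ = 0 := h0
        have hx2 : ∀ d, x (rev d) = x d := by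
          intro d
          rw [LinearMap.mem_ker] at hx'
          have := congrFun hx' d
          exact (eq_of_add_eq_zero this).symm
        have hx1 := (hUmem x).mp hx
        have hrot : ∀ d, x (rot d) = x d := by
          intro d
          have h1 := hx1 _ _ (hcell (rev (rot d)))
          have h2 : φ (rev (rot d)) = d := by
            rw [hφ, Equiv.Perm.mul_apply, hrr]; simp
          rw [h2, hx2] at h1
          exact h1
        have hall : ∀ d, x d = 0 := by
          intro d
          have := hconn d₀ d
          induction this with
          | refl => exact h0'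
          | tail _ hstep ih =>
            rcases hstep with rfl | rfl | hstep
            · rw [hx2, ih]
            · rw [hrot, ih]
            · rw [← hx1 _ _ hstep, ih]
        apply Subtype.ext
        apply Subtype.ext
        funext d
        exact hall d
      have := LinearMap.finrank_le_finrank_of_injective hL
      rwa [Module.finrank_self] at this
    omega
  -- (1)
  have h1 : 2 * finrank (ZMod 2) (LinearMap.range A) ≤ Fintype.card {d // ¬ rev d = d} := by
    have e1 := LinearMap.finrank_range_add_finrank_ker A
    rw [Module.finrank_fintype_fun_eq_card] at e1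
    have hker : ∀ x, x ∈ LinearMap.ker A ↔ ∀ d, x (rev d) = x d := by
      intro x
      rw [LinearMap.mem_ker]
      constructor
      · intro h d
        exact (eq_of_add_eq_zero (congrFun h d)).symm
      · intro h
        ext d
        rw [hAapp, h d]; exact add_self_two _
    let J : (LinearMap.range A × ({d // rev d = d} → ZMod 2)) →ₗ[ZMod 2] LinearMap.ker A :=
      { toFun := fun z => ⟨fun d => (z.1 : D → ZMod 2) d +
            (if hd : rev d = d then z.2 ⟨d, hd⟩ else 0), by
          rw [hker]
          intro d
          obtain ⟨⟨_, ⟨x, rfl⟩⟩, s⟩ := z
          have g1 : A x (rev d) = A x d := by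
            rw [hAapp, hAapp, hrr, add_comm]
          change A x (rev d) + _ = A x d + _
          rw [g1]
          congr 1
          by_cases hd : rev d = d
          · simp only [hd]
          · have hd' : ¬ rev (rev d) = rev d := fun hh => hd (rev.injective hh)
            rw [dif_neg hd, dif_neg hd']⟩
        map_add' := by
          intro z w
          apply Subtype.ext
          funext d
          change ((z.1 : D → ZMod 2) d + (w.1 : D → ZMod 2) d) + _ = (_ + _) + (_ + _)
          by_cases hd : rev d = d
          · simp only [dif_pos hd]
            change _ + (z.2 ⟨d, hd⟩ + w.2 ⟨d, hd⟩) = _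
            ring
          · simp only [dif_neg hd]; ring
        map_smul' := by
          intro r z
          apply Subtype.ext
          funext d
          change (r * (z.1 : D → ZMod 2) d) + _ = r * (_ + _)
          by_cases hd : rev d = d
          · simp only [dif_pos hd]
            change _ + (r * z.2 ⟨d, hd⟩) = _
            ring
          · simp only [dif_neg hd]; ring }
    have hJ : Function.Injective J := by
      rw [← LinearMap.ker_eq_bot, LinearMap.ker_eq_bot']
      rintro ⟨⟨_, ⟨x, rfl⟩⟩, s⟩ h0
      have h0' : ∀ d, A x d + (if hd : rev d = d then s ⟨d, hd⟩ else 0) = 0 := by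
        intro d
        exact congrArg (fun (u : LinearMap.ker A) => (u : D → ZMod 2) d) h0
      have hs0 : s = 0 := by
        funext ⟨d, hd⟩
        have := h0' d
        rw [dif_pos hd, hAapp, hd, add_self_two, zero_add] at this
        exact this
      have hA0 : A x = 0 := by
        funext d
        have := h0' d
        rw [hs0] at this
        simpa using this
      ext1
      · apply Subtype.ext; exact hA0
      · exact hs0
    have e2 := LinearMap.finrank_le_finrank_of_injective hJ
    rw [Module.finrank_prod, Module.finrank_fintype_fun_eq_card] at e2
    have e3 := Fintype.card_subtype_compl (fun d => rev d = d)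
    have e4 := Fintype.card_subtype_le (fun d => rev d = d)
    omega
  -- (9)
  have h9 : Nat.card (Quotient cell) + Nat.card (Quotient comp) ≤
      Nat.card (Quotient (SameCycle.setoid φ)) + 1 := by
    let L : ((Quotient cell → ZMod 2) × (Quotient comp → ZMod 2)) →ₗ[ZMod 2]
        (Quotient (SameCycle.setoid φ) → ZMod 2) :=
      { toFun := fun z q => Quotient.lift (fun d => z.1 (Quotient.mk _ d) + z.2 (Quotient.mk _ d))
          (by
            intro a b hab
            have g1 : (Quotient.mk cell a) = Quotient.mk cell b := Quotient.sound (hwc a b hab)
            have g2 : (Quotient.mk comp a) = Quotient.mk comp b := Quotient.sound (hwk a b hab)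
            simp only [g1, g2]) q
        map_add' := by
          intro z w
          funext q
          induction q using Quotient.inductionOn with
          | _ d =>
            change (z.1 _ + w.1 _) + (z.2 _ + w.2 _) = (z.1 _ + z.2 _) + (w.1 _ + w.2 _)
            ring
        map_smul' := by
          intro r z
          funext q
          induction q using Quotient.inductionOn with
          | _ d =>
            change (r * z.1 _) + (r * z.2 _) = r * (z.1 _ + z.2 _)
            ring }
    have e1 := LinearMap.finrank_range_add_finrank_ker L
    have e2 : finrank (ZMod 2) (LinearMap.ker L) ≤ 1 := by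
      let M : LinearMap.ker L →ₗ[ZMod 2] ZMod 2 :=
        { toFun := fun u => u.1.1 (Quotient.mk _ d₀)
          map_add' := by intro g h; rfl
          map_smul' := by intro r g; rfl }
      have hM : Function.Injective M := by
        rw [← LinearMap.ker_eq_bot, LinearMap.ker_eq_bot']
        rintro ⟨⟨f, g⟩, hfg⟩ h0
        have h0' : f (Quotient.mk _ d₀) = 0 := h0
        have hfg' : ∀ d, f (Quotient.mk _ d) = g (Quotient.mk _ d) := by
          intro d
          rw [LinearMap.mem_ker] at hfg
          exact eq_of_add_eq_zero (congrFun hfg (Quotient.mk _ d))
        have hall : ∀ d, f (Quotient.mk _ d) = 0 := by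
          intro d
          have := hconn d₀ d
          induction this with
          | refl => exact h0'
          | @tail b c _ hstep ih =>
            rcases hstep with rfl | rfl | hstep
            · rw [hfg', ← ih, hfg']
              congr 1
              exact (Quotient.sound (hc_rev b)).symm
            · rw [hfg', ← ih, hfg']
              congr 1
              exact (Quotient.sound (hc_rot b)).symm
            · rw [← ih]
              congr 1
              exact (Quotient.sound hstep).symm
        apply Subtype.ext
        ext q
        · induction q using Quotient.inductionOn with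
          | _ d => exact hall d
        · induction q using Quotient.inductionOn with
          | _ d => exact (hfg' d).symm.trans (hall d)
      have := LinearMap.finrank_le_finrank_of_injective hM
      rwa [Module.finrank_self] at this
    have e3 := Submodule.finrank_le (LinearMap.range L)
    rw [Module.finrank_prod, Module.finrank_fintype_fun_eq_card,
      Module.finrank_fintype_fun_eq_card] at e1
    rw [Module.finrank_fintype_fun_eq_card] at e3
    rw [Nat.card_eq_fintype_card, Nat.card_eq_fintype_card, Nat.card_eq_fintype_card]
    omega
  -- (5)
  have h5 : Fintype.card P ≤ finrank (ZMod 2) ((LinearMap.range A).map N) +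
      Nat.card (Quotient comp) := by
    set R := (LinearMap.range A).map N with hR
    have step : ∀ a b, comp a b →
        (Pi.single (org a) 1 + Pi.single (org b) 1 : P → ZMod 2) ∈ R := by
      intro a b hab
      induction hab with
      | refl a =>
        have : (Pi.single (org a) 1 + Pi.single (org a) 1 : P → ZMod 2) = 0 := by
          ext p; exact add_self_two _
        rw [this]; exact R.zero_mem
      | symm a b _ ih => rw [add_comm]; exact ih
      | trans a b c _ _ ih1 ih2 =>
        have := R.add_mem ih1 ih2
        convert this using 1
        ext p
        simp only [Pi.add_apply]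
        generalize (Pi.single (org a) 1 : P → ZMod 2) p = x
        generalize (Pi.single (org b) 1 : P → ZMod 2) p = y
        generalize (Pi.single (org c) 1 : P → ZMod 2) p = z
        have := add_self_two y
        calc x + z = x + (y + y) + z := by rw [this, add_zero]
          _ = x + y + (y + z) := by ring
      | rel b' c' hstep =>
        rcases hstep with rfl | rfl
        · refine ⟨A (Pi.single b' 1), ⟨_, rfl⟩, ?_⟩
          ext p
          rw [hNapp]
          simp only [hAapp, Finset.sum_add_distrib]
          rw [Finset.sum_filter, Finset.sum_filter]
          rw [Finset.sum_eq_single b' (by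
            intro d _ hd
            rw [Pi.single_eq_of_ne hd]; simp) (by simp)]
          rw [Finset.sum_eq_single (rev b') (by
            intro d _ hd
            rw [Pi.single_eq_of_ne (by
              intro hh
              apply hd
              rw [← hh, hrr])]; simp) (by simp)]
          rw [hrr, Pi.single_eq_same]
          simp only [Pi.add_apply, Pi.single_apply, eq_comm]
        · have : (Pi.single (org b') 1 + Pi.single (org (rot b')) 1 : P → ZMod 2) = 0 := by
            rw [horg]
            ext p; exact add_self_two _
          rw [this]; exact R.zero_mem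
    let bb : Quotient comp → (P → ZMod 2) := fun q => Pi.single (org q.out) 1
    have htop : (⊤ : Submodule (ZMod 2) (P → ZMod 2)) ≤
        R ⊔ Submodule.span (ZMod 2) (Set.range bb) := by
      intro f _
      have hf : f = ∑ p, f p • (Pi.single p 1 : P → ZMod 2) := by
        ext q
        simp [Finset.sum_apply, Pi.single_apply]
      rw [hf]
      apply Submodule.sum_mem
      intro p _
      apply Submodule.smul_mem
      obtain ⟨d, rfl⟩ := hsurj p
      set d₁ := (Quotient.mk comp d).out with hd₁
      have e1 := step d d₁ (comp.symm (Quotient.mk_out d))
      have e2 : (Pi.single (org d) 1 : P → ZMod 2) =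
          (Pi.single (org d) 1 + Pi.single (org d₁) 1) + Pi.single (org d₁) 1 := by
        ext q
        simp only [Pi.add_apply]
        rw [add_assoc, add_self_two, add_zero]
      rw [e2]
      exact Submodule.add_mem _ (Submodule.mem_sup_left e1)
        (Submodule.mem_sup_right (Submodule.subset_span ⟨Quotient.mk comp d, rfl⟩))
    have e1 := Submodule.finrank_mono htop
    rw [finrank_top, Module.finrank_fintype_fun_eq_card] at e1
    have e2 := Submodule.finrank_add_le_finrank_add_finrank R
      (Submodule.span (ZMod 2) (Set.range bb))
    have e3 : finrank (ZMod 2) (Submodule.span (ZMod 2) (Set.range bb)) ≤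
        Fintype.card (Quotient comp) := finrank_range_le_card bb
    rw [Nat.card_eq_fintype_card]
    omega
  -- (6)
  set Z : Submodule (ZMod 2) (D → ZMod 2) :=
    (LinearMap.ker (N.domRestrict (LinearMap.range A))).map (LinearMap.range A).subtype with hZ
  have hZmem : ∀ x, x ∈ Z ↔ x ∈ LinearMap.range A ∧ N x = 0 := by
    intro x
    constructor
    · rintro ⟨⟨y, hy⟩, hy', rfl⟩
      exact ⟨hy, hy'⟩
    · rintro ⟨hx, hx'⟩
      exact ⟨⟨x, hx⟩, hx', rfl⟩
  have h6 : finrank (ZMod 2) Z + Fintype.card P ≤ finrank (ZMod 2) (LinearMap.range A) +
      Nat.card (Quotient comp) := by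
    have e1 := LinearMap.finrank_range_add_finrank_ker (N.domRestrict (LinearMap.range A))
    rw [LinearMap.range_domRestrict] at e1
    have e2 : finrank (ZMod 2) Z =
        finrank (ZMod 2) (LinearMap.ker (N.domRestrict (LinearMap.range A))) := by
      rw [hZ, Submodule.finrank_map_subtype_eq]
    omega
  -- (2)
  have h2 : U.map A ≤ Z := by
    rintro _ ⟨x, hx, rfl⟩
    rw [hZmem]
    refine ⟨⟨x, rfl⟩, ?_⟩
    have hx1 := (hUmem x).mp hx
    ext p
    rw [hNapp]
    simp only [hAapp, Finset.sum_add_distrib, Pi.zero_apply]
    have : ∑ d ∈ univ.filter (fun d => org d = p), x (rev d) =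
        ∑ d ∈ univ.filter (fun d => org d = p), x d := by
      have e1 : ∀ d, x (rev d) = x (rot⁻¹ d) := by
        intro d
        have := hx1 _ _ (hcell (rev d))
        rw [hφ, Equiv.Perm.mul_apply, hrr] at this
        exact this
      simp only [e1]
      apply Finset.sum_bij (fun d _ => rot⁻¹ d)
      · intro d hd
        rw [Finset.mem_filter] at hd ⊢
        refine ⟨Finset.mem_univ _, ?_⟩
        rw [← hd.2, ← horg (rot⁻¹ d)]; simp
      · intro a _ b _ hab
        exact rot⁻¹.injective hab
      · intro b hb
        rw [Finset.mem_filter] at hb
        refine ⟨rot b, ?_, by simp⟩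
        rw [Finset.mem_filter]
        exact ⟨Finset.mem_univ _, by rw [horg]; exact hb.2⟩
      · intro d _; rfl
    rw [this]
    exact add_self_two _
  -- (7)
  have h7 : U.map A = Z := by
    apply Submodule.eq_of_le_of_finrank_le h2
    omega
  -- (8)
  have h8 : c ∈ Z := by
    rw [hZmem]
    refine ⟨?_, ?_⟩
    · let r := Fintype.equivFin D
      refine ⟨fun d => if r d < r (rev d) then c d else 0, ?_⟩
      ext d
      rw [hAapp, hrr, hc]
      rcases lt_trichotomy (r d) (r (rev d)) with h | h | h
      · rw [if_pos h, if_neg (not_lt.mpr h.le), add_zero]
      · have hfix := (r.injective h).symm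
        rw [hc0 d hfix]
        simp
      · rw [if_neg (not_lt.mpr h.le), if_pos h, zero_add]
    · ext p
      rw [hNapp]; exact hs p
  rw [← h7] at h8
  obtain ⟨σ, hσ, hσc⟩ := h8
  refine ⟨σ, (hUmem σ).mp hσ, ?_⟩
  intro d
  have := congrFun hσc d
  rw [hAapp] at this
  rw [← this, ← add_assoc, add_self_two, zero_add]

end

end Pool.Agent.Helper19.Fan
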