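import Pool.Agent.Helper19.Fan.Basic
import Pool.Agent.Helper19.Fan.Planar

set_option autoImplicit false

/-!
# Two parallel edges never bound the same cell in the same direction
-/

namespace Pool.Agent.Helper19.Fan

open Equiv.Perm Finset

variable {V E : Type} {G : E → Sym2 V} {X D : Type}

namespace Drawing

variable {Γ : Drawing G X D}

theorem Good.ne_of_cross (h : Γ.Good) {a : D} (ha : Γ.IsX (Γ.phi a)) {e f : E}
    (he : Γ.lab a = some e) (hG : G e = G f) : Γ.lab (Γ.phi a) ≠ some f := by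
  intro hf
  have h1 : Γ.tgt (Γ.phi a) ∈ G e := by rw [hG]; exact Γ.tgt_mem hf
  rcases (Γ.mem_iff he _).mp h1 with h1 | h1
  · exact (h.corner ha).2.1 h1
  · exact (h.corner ha).1 h1

/-- The last dart of an edge, with the side function constant along the edge. -/
theorem Good.exists_last (h : Γ.Good) {e f : E} (hG : G e = G f) (σ : D → ZMod 2)
    (hσ : ∀ d, σ (Γ.phi d) = σ d) (c : D → ZMod 2) (hc : ∀ d, σ (Γ.rev d) = σ d + c d)
    (hc0 : ∀ d, Γ.lab d ≠ some e → Γ.lab d ≠ some f → c d = 0) {d : D} {v : V}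
    (hL : Leads Γ.rev Γ.rot Γ.org d v) (hl : Γ.lab d = some e) :
    ∃ l, Γ.lab l = some e ∧ Γ.org (Γ.rev l) = Sum.inl v ∧ σ l = σ d := by
  induction hL with
  | @stop d v h1 => exact ⟨d, hl, h1, rfl⟩
  | @cross d x v h1 _ ih =>
    have hX : Γ.IsX (Γ.rev d) := ⟨x, h1⟩
    have hl' : Γ.lab (Γ.rot (Γ.rot (Γ.rev d))) = some e := by
      rw [Γ.lab_rot2 hX, Γ.lab_rev, hl]
    obtain ⟨l, hl1, hl2, hl3⟩ := ih hl'
    refine ⟨l, hl1, hl2, hl3.trans ?_⟩
    have hXp : Γ.IsX (Γ.phi d) := Γ.isX_phi.mpr hX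
    have e1 : Γ.phi (Γ.rev (Γ.phi d)) = Γ.rot (Γ.rot (Γ.rev d)) := by
      rw [phi_apply, Γ.rev_rev, Γ.rot_inv_of_isX hXp, rot_phi]
    rw [← e1, hσ, hc, hσ, hc0 _ ?_ ?_, add_zero]
    · exact h.ne_of_cross hXp hl rfl
    · exact h.ne_of_cross hXp hl hG

theorem Good.sum_label [Fintype D] [DecidableEq V] [DecidableEq X] [DecidableEq E]
    (h : Γ.Good) (e : E) (v : V) :
    ∑ d ∈ univ.filter (fun d => Γ.org d = Sum.inl v), (if Γ.lab d = some e then (1 : ZMod 2) else 0)
      = if v ∈ G e then 1 else 0 := by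
  split_ifs with hv
  · have hex : ∃ r, Γ.lab r = some e ∧ Γ.org r = Sum.inl v := by
      have key : ∀ d v, Leads Γ.rev Γ.rot Γ.org d v → Γ.lab d = some e →
          ∃ r, Γ.lab r = some e ∧ Γ.org r = Sum.inl v := by
        intro d v hL hl
        obtain ⟨l, hl1, hl2, -⟩ := h.exists_last (f := e) rfl (fun _ => 0) (fun _ => rfl)
          (fun _ => 0) (fun _ => (add_zero _).symm) (fun _ _ _ => rfl) hL hl
        exact ⟨Γ.rev l, by rw [Γ.lab_rev, hl1], hl2⟩
      obtain ⟨d, hd⟩ := Γ.drawn e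
      rcases (Γ.mem_iff hd v).mp hv with rfl | rfl
      · exact key d _ (Γ.leads_tgt d) hd
      · exact key (Γ.rev d) _ (Γ.leads_tgt _) (by rw [Γ.lab_rev, hd])
    obtain ⟨r, hr1, hr2⟩ := hex
    rw [Finset.sum_eq_single r]
    · rw [if_pos hr1]
    · intro d hd hdr
      rw [Finset.mem_filter] at hd
      rw [if_neg]
      intro hh
      exact hdr (Γ.single d r e v hh hr1 hd.2 hr2)
    · intro hr
      exact (hr (Finset.mem_filter.mpr ⟨Finset.mem_univ _, hr2⟩)).elim
  · apply Finset.sum_eq_zero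
    intro d hd
    rw [Finset.mem_filter] at hd
    rw [if_neg]
    intro hh
    apply hv
    have := Γ.tgt_rev_mem hh
    rwa [Γ.tgt_rev_of_org hd.2] at this

/-- Two parallel edges never bound the same cell in the same direction. -/
theorem Good.same_edge [Finite V] [Finite X] [Finite D] (h : Γ.Good) {a a' : D} {e f : E}
    (he : Γ.lab a = some e) (hf : Γ.lab a' = some f) (hG : G e = G f)
    (hcyc : Γ.phi.SameCycle a a') (ht : Γ.tgt a = Γ.tgt a') : e = f := by
  classical
  by_contra hef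
  have : Fintype V := Fintype.ofFinite V
  have : Fintype X := Fintype.ofFinite X
  have : Fintype D := Fintype.ofFinite D
  set c : D → ZMod 2 := fun d => (if Γ.lab d = some e then 1 else 0) +
    (if Γ.lab d = some f then 1 else 0) with hcdef
  have hcrev : ∀ d, c (Γ.rev d) = c d := by
    intro d; simp only [hcdef, Γ.lab_rev]
  have hs : ∀ p, ∑ d ∈ univ.filter (fun d => Γ.org d = p), c d = 0 := by
    intro p
    rcases p with v | x
    · simp only [hcdef, Finset.sum_add_distrib]
      rw [h.sum_label e v, h.sum_label f v, ← hG]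
      exact add_self_two _
    · apply Finset.sum_involution (fun d _ => Γ.rot (Γ.rot d))
      · intro d hd
        rw [Finset.mem_filter] at hd
        have : c (Γ.rot (Γ.rot d)) = c d := by
          simp only [hcdef, Γ.lab_rot2 ⟨x, hd.2⟩]
        rw [this]; exact add_self_two _
      · intro d hd _
        rw [Finset.mem_filter] at hd
        exact Γ.rot2_ne ⟨x, hd.2⟩
      · intro d hd
        rw [Finset.mem_filter] at hd ⊢
        exact ⟨Finset.mem_univ _, by rw [org_rot, org_rot]; exact hd.2⟩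
      · intro d hd
        rw [Finset.mem_filter] at hd
        exact Γ.rot4 ⟨x, hd.2⟩
  obtain ⟨σ, hσ, hσc⟩ := exists_side Γ.rev Γ.rot Γ.org Γ.cell Γ.rev_rev Γ.org_rot Γ.org_surj
    Γ.cell_walk Γ.connected (by
      have h1 := Γ.euler
      have h2 : Nat.card {d // Γ.lab d ≠ none} = Fintype.card {d // ¬ Γ.rev d = d} := by
        rw [← Nat.card_eq_fintype_card]
        apply Nat.card_congr
        apply Equiv.subtypeEquivRight
        intro d
        rw [Γ.rev_eq_iff]
      rw [h2, Nat.card_eq_fintype_card (α := V), Nat.card_eq_fintype_card (α := X)] at h1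
      rw [Fintype.card_sum]
      exact h1) c hcrev (by
      intro d hd
      have h1 := Γ.rev_eq_iff.mp hd
      simp only [hcdef, h1]
      simp) hs
  have hσ' : ∀ d, σ (Γ.phi d) = σ d := fun d => (hσ _ _ (Γ.cell_phi d)).symm
  have hc0 : ∀ d, Γ.lab d ≠ some e → Γ.lab d ≠ some f → c d = 0 := by
    intro d h1 h2
    simp only [hcdef, if_neg h1, if_neg h2, add_zero]
  have hc1 : ∀ d, Γ.lab d = some e → c d = 1 := by
    intro d h1
    have h2 : Γ.lab d ≠ some f := by
      rw [h1]; intro hh; exact hef (Option.some.inj hh)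
    simp only [hcdef, if_pos h1, if_neg h2, add_zero]
  have hc1' : ∀ d, Γ.lab d = some f → c d = 1 := by
    intro d h1
    have h2 : Γ.lab d ≠ some e := by
      rw [h1]; intro hh; exact hef (Option.some.inj hh).symm
    simp only [hcdef, if_pos h1, if_neg h2, zero_add]
  obtain ⟨l, hl1, hl2, hl3⟩ := h.exists_last hG σ hσ' c hσc hc0 (Γ.leads_tgt a) he
  obtain ⟨l', hl1', hl2', hl3'⟩ := h.exists_last hG.symm σ hσ' c hσc
    (fun d h1 h2 => hc0 d h2 h1) (Γ.leads_tgt a') hf
  rw [← ht] at hl2'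
  set w := Γ.tgt a with hw
  set r := Γ.rev l with hr
  set r' := Γ.rev l' with hr'
  have hre : Γ.lab r = some e := by rw [hr, Γ.lab_rev, hl1]
  have hrf : Γ.lab r' = some f := by rw [hr', Γ.lab_rev, hl1']
  have hσaa : σ a = σ a' := by
    obtain ⟨n, rfl⟩ := hcyc.exists_nat_pow_eq
    clear hcyc hf ht hl3'
    induction n with
    | zero => rfl
    | succ n ih => rw [pow_succ', Equiv.Perm.mul_apply, hσ', ← ih]
  have hσrr : σ r = σ r' := by
    rw [hr, hr', hσc, hσc, hc1 l hl1, hc1' l' hl1', hl3, hl3', hσaa]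
  clear_value r r'
  have hrot : ∀ d, σ (Γ.rot d) = σ d + c (Γ.rot d) := by
    intro d
    have h1 : σ d = σ (Γ.rot d) + c (Γ.rot d) := by
      rw [← hσc, ← hσ' (Γ.rev (Γ.rot d)), phi_apply, Γ.rev_rev]
      simp
    rw [h1, add_assoc, add_self_two, add_zero]
  have hsc : Γ.rot.SameCycle r r' := by
    rw [← Γ.org_eq_iff, hl2, hl2']
  have hrne : r ≠ r' := by
    intro hh
    rw [hh, hrf] at hre
    exact hef (Option.some.inj hre).symm
  have hex : ∃ i : ℕ, 0 < i ∧ (Γ.rot ^ i) r = r' := by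
    obtain ⟨i, hi⟩ := hsc.exists_nat_pow_eq
    refine ⟨i, ?_, hi⟩
    rcases Nat.eq_zero_or_pos i with rfl | hpos
    · exact absurd hi hrne
    · exact hpos
  obtain ⟨hpos, hi⟩ := Nat.find_spec hex
  set i₀ := Nat.find hex with hi₀
  have hmin : ∀ j, 0 < j → j < i₀ → (Γ.rot ^ j) r ≠ r' := by
    intro j h1 h2 h3
    exact Nat.find_min hex h2 ⟨h1, h3⟩
  have horg : ∀ j : ℕ, Γ.org ((Γ.rot ^ j) r) = Sum.inl w := by
    intro j
    induction j with
    | zero => exact hl2
    | succ j ih => rw [pow_succ', Equiv.Perm.mul_apply, org_rot, ih]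
  have hconst : ∀ j, j < i₀ → σ ((Γ.rot ^ j) r) = σ r := by
    intro j
    induction j with
    | zero => intro _; rfl
    | succ j ih =>
      intro hj
      rw [pow_succ', Equiv.Perm.mul_apply, hrot, ih (by omega)]
      have hstep : Γ.rot ((Γ.rot ^ j) r) = (Γ.rot ^ (j + 1)) r := by
        rw [pow_succ', Equiv.Perm.mul_apply]
      rw [hstep, hc0, add_zero]
      · intro hh
        have hrr : (Γ.rot ^ (j + 1)) r = r := Γ.single _ _ e w hh hre (horg _) hl2
        apply hmin (i₀ - (j + 1)) (by omega) (by omega)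
        have : (Γ.rot ^ i₀) r = (Γ.rot ^ (i₀ - (j + 1))) ((Γ.rot ^ (j + 1)) r) := by
          rw [← Equiv.Perm.mul_apply, ← pow_add]
          congr 2
          omega
        rw [hrr] at this
        rw [← this, hi]
      · intro hh
        exact hmin (j + 1) (by omega) hj (Γ.single _ _ f w hh hrf (horg _) hl2')
  have hlast : σ r' = σ r + 1 := by
    have h1 : (Γ.rot ^ i₀) r = Γ.rot ((Γ.rot ^ (i₀ - 1)) r) := by
      rw [← Equiv.Perm.mul_apply, ← pow_succ']
      congr 2
      omega
    rw [← hi, h1, hrot, hconst _ (by omega), ← h1, hi, hc1' r' hrf]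
  rw [← hσrr] at hlast
  have : (1 : ZMod 2) = 0 := by
    have h2 : σ r + 0 = σ r + 1 := by rw [add_zero]; exact hlast
    exact (add_left_cancel h2).symm
  exact absurd this (by decide)

end Drawing

end Pool.Agent.Helper19.Fan
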