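import Pool.Agent.Helper19.Fan.Ladder

set_option autoImplicit false

/-!
# The transfers
-/

namespace Pool.Agent.Helper19.Fan

open Equiv.Perm

open scoped Classical

variable {V E : Type} {G : E → Sym2 V} {X D : Type}

namespace Drawing

variable {Γ : Drawing G X D}

namespace FanData

variable (F : Γ.FanData)

/-- `1` if the centre of the edge is on the left of the dart, else `0`. -/
noncomputable def b (d : D) : ℤ := if ∃ e, Γ.lab d = some e ∧ Γ.tgt d = F.u e then 1 else 0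

theorem b01 (d : D) : F.b d = 0 ∨ F.b d = 1 := by
  unfold b; split_ifs
  · exact Or.inr rfl
  · exact Or.inl rfl

theorem b_eq_one {d : D} {e : E} (he : Γ.lab d = some e) : F.b d = 1 ↔ Γ.tgt d = F.u e := by
  unfold b
  constructor
  · intro h
    split_ifs at h with h1
    · obtain ⟨e', he', h2⟩ := h1
      rw [he] at he'
      rw [Option.some.inj he']; exact h2
    · exact absurd h (by norm_num)
  · intro h
    rw [if_pos ⟨e, he, h⟩]

theorem b_eq_zero {d : D} {e : E} (he : Γ.lab d = some e) : F.b d = 0 ↔ Γ.tgt d ≠ F.u e := by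
  rw [← not_iff_not, not_not, ← F.b_eq_one he]
  rcases F.b01 d with h | h <;> simp [h]

theorem b_congr {a c : D} (h1 : Γ.lab a = Γ.lab c) (h2 : Γ.tgt a = Γ.tgt c) : F.b a = F.b c := by
  unfold b; rw [h1, h2]

theorem b_rev (h : Γ.Good) {d : D} (hd : ∃ e, Γ.lab d = some e) :
    F.b (Γ.rev d) = 1 - F.b d := by
  obtain ⟨e, he⟩ := hd
  have he' : Γ.lab (Γ.rev d) = some e := by rw [Γ.lab_rev]; exact he
  have hne := h.tgt_ne he
  rcases (Γ.mem_iff he (F.u e)).mp (F.mem e) with h1 | h1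
  · have e1 : F.b d = 1 := (F.b_eq_one he).mpr h1.symm
    have e2 : F.b (Γ.rev d) = 0 := (F.b_eq_zero he').mpr (by rw [h1]; exact hne.symm)
    rw [e1, e2]; norm_num
  · have e1 : F.b d = 0 := (F.b_eq_zero he).mpr (by rw [h1]; exact hne)
    have e2 : F.b (Γ.rev d) = 1 := (F.b_eq_one he').mpr h1.symm
    rw [e1, e2]; norm_num

theorem b_rev_isX (h : Γ.Good) {d : D} (hd : Γ.IsX d) : F.b (Γ.rev d) = 1 - F.b d :=
  F.b_rev h (Γ.lab_isX hd)

theorem b_rot2 (h : Γ.Good) {d : D} (hd : Γ.IsX d) :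
    F.b (Γ.rot (Γ.rot d)) = 1 - F.b d := by
  rw [← F.b_rev_isX h hd]
  apply F.b_congr
  · rw [Γ.lab_rot2 hd, Γ.lab_rev]
  · rw [Γ.tgt_rot2 hd]

/-- the centre, from the end of a dart: centre on the left -/
theorem end_left {a : D} {e : E} (he : Γ.lab a = some e) (hX : Γ.IsX (Γ.phi a))
    (hb : F.b a = 1) : Γ.tgt (Γ.phi a) = F.w e := by
  obtain ⟨x, hx⟩ := Γ.isX_phi.mp hX
  apply Γ.tgt_eq
  have h1 := (F.b_eq_one he).mp hb
  have := F.left e a x he hx (by rw [← h1]; exact Γ.leads_tgt a)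
  exact this

theorem end_right (h : Γ.Good) {a : D} {e : E} (he : Γ.lab a = some e) (hX : Γ.IsX (Γ.phi a))
    (hb : F.b a = 0) : Γ.tgt (Γ.rev (Γ.phi a)) = F.w e := by
  have hX' : Γ.IsX (Γ.rev a) := Γ.isX_phi.mp hX
  set c := Γ.rev (Γ.rot (Γ.rot (Γ.rev a))) with hc
  have hlab : Γ.lab c = some e := by
    rw [hc, Γ.lab_rev, Γ.lab_rot2 hX', Γ.lab_rev, he]
  have hphi : Γ.phi c = Γ.rot (Γ.rev a) := by
    rw [hc, phi_apply, rev_rev']; simp
  have hXc : Γ.IsX (Γ.phi c) := by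
    rw [hphi]; exact Γ.isX_rot.mpr hX'
  have hbc : F.b c = 1 := by
    rw [hc, F.b_rev_isX h (Γ.isX_rot.mpr (Γ.isX_rot.mpr hX')), F.b_rot2 h hX']
    have h2 := F.b_rev_isX h hX'
    rw [rev_rev'] at h2
    omega
  have := F.end_left hlab hXc hbc
  rw [hphi] at this
  rw [← this]
  have h3 : Γ.rot (Γ.rev a) = Γ.rot (Γ.rot (Γ.phi a)) := by rw [rot_phi]
  rw [h3, Γ.tgt_rot2 hX]

theorem start_left (h : Γ.Good) {a : D} {e : E} (he : Γ.lab a = some e) (hX : Γ.IsX a)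
    (hb : F.b a = 1) : Γ.tgt (Γ.rev (Γ.phi⁻¹ a)) = F.w e := by
  set c := Γ.rev (Γ.rot (Γ.rot a)) with hc
  have hlab : Γ.lab c = some e := by
    rw [hc, Γ.lab_rev, Γ.lab_rot2 hX, he]
  have hphi : Γ.phi c = Γ.rot a := by
    rw [hc, phi_apply, rev_rev']; simp
  have hXc : Γ.IsX (Γ.phi c) := by
    rw [hphi]; exact Γ.isX_rot.mpr hX
  have hbc : F.b c = 1 := by
    rw [hc, F.b_rev_isX h (Γ.isX_rot.mpr (Γ.isX_rot.mpr hX)), F.b_rot2 h hX]
    omega
  have := F.end_left hlab hXc hbc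
  rw [hphi] at this
  rw [phi_inv_apply, rev_rev', this]

theorem start_right (h : Γ.Good) {a : D} {e : E} (he : Γ.lab a = some e) (hX : Γ.IsX a)
    (hb : F.b a = 0) : Γ.tgt (Γ.phi⁻¹ a) = F.w e := by
  set c := Γ.rev (Γ.rot (Γ.rot a)) with hc
  have hlab : Γ.lab c = some e := by
    rw [hc, Γ.lab_rev, Γ.lab_rot2 hX, he]
  have hphi : Γ.phi c = Γ.rot a := by
    rw [hc, phi_apply, rev_rev']; simp
  have hXc : Γ.IsX (Γ.phi c) := by
    rw [hphi]; exact Γ.isX_rot.mpr hX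
  have hbc : F.b c = 0 := by
    rw [hc, F.b_rev_isX h (Γ.isX_rot.mpr (Γ.isX_rot.mpr hX)), F.b_rot2 h hX]
    omega
  have := F.end_right h hlab hXc hbc
  rw [hphi] at this
  rw [phi_inv_apply, this]

theorem b_phi_rev {a : D} (ha : Γ.IsX a) :
    F.b (Γ.phi (Γ.rev a)) = F.b (Γ.phi⁻¹ a) :=
  F.b_congr (Γ.across ha).1 (Γ.across ha).2.1

theorem b_phi_inv_rev {a : D} (ha : Γ.IsX (Γ.phi a)) :
    F.b (Γ.phi⁻¹ (Γ.rev a)) = F.b (Γ.phi a) := by
  have := F.b_phi_rev (Γ.isX_phi.mp ha)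
  rw [rev_rev'] at this
  exact this.symm

/-- The two edges crossing a segment have a common endpoint, on the same side. -/
theorem share (F : Γ.FanData) (h : Γ.Good) {a : D} (h1 : Γ.IsX a) (h2 : Γ.IsX (Γ.phi a)) :
    Γ.tgt (Γ.phi a) = Γ.tgt (Γ.rev (Γ.phi⁻¹ a)) ∨ Γ.tgt (Γ.rev (Γ.phi a)) = Γ.tgt (Γ.phi⁻¹ a) := by
  obtain ⟨e, he⟩ := Γ.lab_isX h1
  rcases F.b01 a with hb | hb
  · right; rw [F.end_right h he h2 hb, F.start_right h he h1 hb]
  · left; rw [F.end_left he h2 hb, F.start_left h he h1 hb]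

/-- The number of near quadrants at the corner where `a` starts. -/
noncomputable def near (a : D) : ℤ := if Γ.IsX a then F.b (Γ.phi⁻¹ a) * F.b a else 0

noncomputable def eps (a : D) : ℤ := F.b (Γ.phi⁻¹ a) + F.b (Γ.phi a) - 1

noncomputable def delta (a : D) : ℤ :=
  if Γ.Fl a then F.b a + (1 - F.b (Γ.phi⁻¹ a)) * (1 - F.b (Γ.phi a)) else 0

/-- `a` is a side of a triangle with a vertex, whose base has its centre at that vertex. -/
def RS (a : D) : Prop :=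
  (Γ.TB (Γ.phi⁻¹ a) ∧ F.b (Γ.phi⁻¹ a) = 1) ∨ (Γ.TB (Γ.phi a) ∧ F.b (Γ.phi a) = 1)

noncomputable def te (Γ : Drawing G X D) (a : D) : ℤ := if Γ.TEnd a then 1 else 0

/-- The transfer from the cell on the left of `a` to the cell on the right. -/
noncomputable def tau (a : D) : ℤ :=
  if Γ.Fl a then (2 * F.b a - 1) * (2 + F.eps a) + (2 + |F.eps a|) * (te Γ (Γ.rev a) - te Γ a)
  else if F.RS a ∨ F.RS (Γ.rev a) then 4 * F.b a - 2 else 0

theorem te01 (a : D) : te Γ a = 0 ∨ te Γ a = 1 := by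
  unfold te; split_ifs
  · exact Or.inr rfl
  · exact Or.inl rfl

theorem eps_rev {a : D} (h1 : Γ.IsX a) (h2 : Γ.IsX (Γ.phi a)) :
    F.eps (Γ.rev a) = F.eps a := by
  unfold eps
  rw [F.b_phi_rev h1, F.b_phi_inv_rev h2]; ring

theorem RS.lab {a : D} (ha : F.RS a) : ∃ e, Γ.lab a = some e := by
  rcases ha with ⟨h1, _⟩ | ⟨h1, _⟩
  · have : Γ.IsX (Γ.phi (Γ.phi⁻¹ a)) := h1.2.1
    rw [phi_phi_inv] at this
    exact Γ.lab_isX this
  · have := Γ.isX_phi.mp h1.1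
    obtain ⟨e, he⟩ := Γ.lab_isX this
    exact ⟨e, by rw [← he, Γ.lab_rev]⟩

theorem tau_rev (h : Γ.Good) (a : D) : F.tau (Γ.rev a) = - F.tau a := by
  unfold tau
  rw [Γ.fl_rev, rev_rev']
  by_cases hF : Γ.Fl a
  · rw [if_pos hF, if_pos hF, F.eps_rev hF.1 hF.2.1, F.b_rev_isX h hF.1]
    ring
  · rw [if_neg hF, if_neg hF]
    by_cases hR : F.RS a ∨ F.RS (Γ.rev a)
    · rw [if_pos hR, if_pos hR.symm]
      have : ∃ e, Γ.lab a = some e := by
        rcases hR with hR | hR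
        · exact hR.lab
        · obtain ⟨e, he⟩ := hR.lab
          exact ⟨e, by rw [← he, Γ.lab_rev]⟩
      rw [F.b_rev h this]; ring
    · rw [if_neg hR, if_neg (fun hh => hR hh.symm)]; ring

end FanData

end Drawing

end Pool.Agent.Helper19.Fan
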